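import Mathlib

/-!
# Minors of simple graphs: basic facts
-/

set_option autoImplicit false

namespace Pool.Agent.Q275

/-- `H` is a minor of `G`: there are pairwise disjoint vertex sets `B w` of `G`, one for each
vertex `w` of `H`, each inducing a connected subgraph, such that adjacent vertices of `H` have
branch sets joined by an edge of `G`. -/
def IsMinor {W V : Type} (H : SimpleGraph W) (G : SimpleGraph V) : Prop :=
  ∃ B : W → Set V, (∀ w, (G.induce (B w)).Connected) ∧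
    (∀ w w', w ≠ w' → Disjoint (B w) (B w')) ∧
    (∀ w w', H.Adj w w' → ∃ a ∈ B w, ∃ b ∈ B w', G.Adj a b)

/-- connectedness through closed subsets -/
theorem connected_iff {V : Type} {G : SimpleGraph V} {S : Set V} :
    (G.induce S).Connected ↔ S.Nonempty ∧
      ∀ A ⊆ S, A.Nonempty → (∀ x ∈ A, ∀ y ∈ S, G.Adj x y → y ∈ A) → S ⊆ A := by
  constructor
  · intro h
    obtain ⟨a⟩ := h.nonempty
    refine ⟨⟨a.1, a.2⟩, ?_⟩
    rintro A hAS ⟨x, hx⟩ hcl y hy
    have hr := h.preconnected ⟨x, hAS hx⟩ ⟨y, hy⟩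
    obtain ⟨w⟩ := hr
    have key : ∀ {u v : S} (p : (G.induce S).Walk u v), u.1 ∈ A → v.1 ∈ A := by
      intro u v p
      induction p with
      | nil => exact id
      | @cons a b c hab q ih =>
        intro ha
        exact ih (hcl _ ha _ b.2 (by simpa using hab))
    exact key w hx
  · rintro ⟨⟨x, hx⟩, h⟩
    have key := h {y | ∃ hy : y ∈ S, (G.induce S).Reachable ⟨x, hx⟩ ⟨y, hy⟩}
      (fun y hy => hy.1) ⟨x, hx, SimpleGraph.Reachable.refl _⟩ (by
        rintro a ⟨ha, hra⟩ b hb hab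
        exact ⟨hb, hra.trans (SimpleGraph.Adj.reachable (by simpa using hab))⟩)
    have : Nonempty S := ⟨⟨x, hx⟩⟩
    refine ⟨fun a b => ?_⟩
    obtain ⟨_, ha⟩ := key a.2
    obtain ⟨_, hb⟩ := key b.2
    exact ha.symm.trans hb

theorem connected_singleton {V : Type} (G : SimpleGraph V) (v : V) :
    (G.induce ({v} : Set V)).Connected := by
  rw [connected_iff]
  refine ⟨⟨v, rfl⟩, ?_⟩
  rintro A hA ⟨x, hx⟩ _ y hy
  rw [Set.mem_singleton_iff] at hy
  have := hA hx
  rw [Set.mem_singleton_iff] at this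
  rw [hy, ← this]; exact hx

theorem IsMinor.nonempty {V : Type} {G : SimpleGraph V} {S : Set V}
    (h : (G.induce S).Connected) : S.Nonempty := (connected_iff.1 h).1

/-- union of connected sets along a connected index set -/
theorem connected_biUnion {V W : Type} {G : SimpleGraph V} {H : SimpleGraph W} {B : W → Set V}
    {C : Set W} (hC : (H.induce C).Connected) (hB : ∀ w ∈ C, (G.induce (B w)).Connected)
    (hadj : ∀ w ∈ C, ∀ w' ∈ C, H.Adj w w' → ∃ a ∈ B w, ∃ b ∈ B w', G.Adj a b) :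
    (G.induce (⋃ w ∈ C, B w)).Connected := by
  rw [connected_iff] at hC ⊢
  obtain ⟨⟨c, hc⟩, hC⟩ := hC
  obtain ⟨x, hx⟩ := (connected_iff.1 (hB c hc)).1
  refine ⟨⟨x, Set.mem_biUnion hc hx⟩, ?_⟩
  rintro A hA ⟨y, hy⟩ hcl
  have hin : ∀ w ∈ C, (∃ z ∈ B w, z ∈ A) → B w ⊆ A := by
    rintro w hw ⟨z, hz, hzA⟩
    have := (connected_iff.1 (hB w hw)).2 (A ∩ B w) Set.inter_subset_right ⟨z, hzA, hz⟩ (by
      rintro a ⟨haA, haB⟩ b hb hab
      exact ⟨hcl a haA b (Set.mem_biUnion hw hb) hab, hb⟩)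
    exact fun a ha => (this ha).1
  obtain ⟨w0, hw0, hy0⟩ := Set.mem_iUnion₂.1 (hA hy)
  have hall := hC {w | w ∈ C ∧ B w ⊆ A} (fun w hw => hw.1) ⟨w0, hw0, hin w0 hw0 ⟨y, hy0, hy⟩⟩ (by
    rintro w ⟨hw, hwA⟩ w' hw' hww'
    obtain ⟨a, ha, b, hb, hab⟩ := hadj w hw w' hw' hww'
    exact ⟨hw', hin w' hw' ⟨b, hb, hcl a (hwA ha) b (Set.mem_biUnion hw' hb) hab⟩⟩)
  intro z hz
  obtain ⟨w, hw, hz'⟩ := Set.mem_iUnion₂.1 hz
  exact (hall hw).2 hz'

theorem IsMinor.trans {V W X : Type} {G : SimpleGraph V} {H : SimpleGraph W} {K : SimpleGraph X}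
    (h1 : IsMinor K H) (h2 : IsMinor H G) : IsMinor K G := by
  obtain ⟨C, hC, hCd, hCa⟩ := h1
  obtain ⟨B, hB, hBd, hBa⟩ := h2
  refine ⟨fun x => ⋃ w ∈ C x, B w, ?_, ?_, ?_⟩
  · intro x
    exact connected_biUnion (hC x) (fun w _ => hB w) (fun w _ w' _ h => hBa w w' h)
  · intro x x' hxx'
    rw [Set.disjoint_left]
    intro z hz hz'
    obtain ⟨w, hw, hzw⟩ := Set.mem_iUnion₂.1 hz
    obtain ⟨w', hw', hzw'⟩ := Set.mem_iUnion₂.1 hz'
    by_cases hww : w = w'
    · subst hww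
      exact Set.disjoint_left.1 (hCd x x' hxx') hw hw'
    · exact Set.disjoint_left.1 (hBd w w' hww) hzw hzw'
  · intro x x' hxx'
    obtain ⟨w, hw, w', hw', hww'⟩ := hCa x x' hxx'
    obtain ⟨a, ha, b, hb, hab⟩ := hBa w w' hww'
    exact ⟨a, Set.mem_biUnion hw ha, b, Set.mem_biUnion hw' hb, hab⟩

theorem IsMinor.of_hom {V W : Type} {G : SimpleGraph V} {H : SimpleGraph W} (f : W → V)
    (hf : Function.Injective f) (h : ∀ a b, H.Adj a b → G.Adj (f a) (f b)) : IsMinor H G := by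
  refine ⟨fun w => {f w}, fun w => connected_singleton G _, ?_, ?_⟩
  · intro w w' hww
    exact Set.disjoint_singleton.2 (fun e => hww (hf e))
  · intro w w' hww
    exact ⟨f w, rfl, f w', rfl, h _ _ hww⟩

theorem IsMinor.refl {V : Type} (G : SimpleGraph V) : IsMinor G G :=
  IsMinor.of_hom id Function.injective_id (fun _ _ h => h)

theorem IsMinor.mono {V W : Type} {G G' : SimpleGraph V} {H : SimpleGraph W}
    (h : IsMinor H G) (hG : G ≤ G') : IsMinor H G' :=
  h.trans (IsMinor.of_hom id Function.injective_id (fun _ _ h => hG h))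

end Pool.Agent.Q275
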