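import Pool.Agent.TH458.VC.Haus

/-!
# Matchings of low crossing number for set systems of bounded dual VC-dimension
-/

set_option autoImplicit false

open Finset

namespace Pool.Agent.Q275.BF

/-- The indices of the sets that contain exactly one of the elements `x`, `y`. -/
def sep {n m : ℕ} (S : Fin m → Finset (Fin n)) (x y : Fin n) : Finset (Fin m) :=
  univ.filter (fun j => ¬ (x ∈ S j ↔ y ∈ S j))

/-- The sets with index in `J` are dually shattered: the elements realise all patterns of
membership in them. -/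
def DuallyShattered {n m : ℕ} (S : Fin m → Finset (Fin n)) (J : Finset (Fin m)) : Prop :=
  ∀ T ⊆ J, ∃ x : Fin n, ∀ j ∈ J, (x ∈ S j ↔ j ∈ T)

/-- The number of different patterns of membership of the elements in the sets with index in `L`. -/
def patterns {n m : ℕ} (S : Fin m → Finset (Fin n)) (L : Finset (Fin m)) : ℕ :=
  (univ.image (fun i : Fin n => L.filter (fun j => i ∈ S j))).card

theorem pair {n m : ℕ} (S : Fin m → Finset (Fin n)) (L : Finset (Fin m)) {d : ℕ} (hd1 : 1 ≤ d)
    (hd : ∀ J ⊆ L, DuallyShattered S J → J.card ≤ d) (w : Fin m → ℕ)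
    (hw : ∀ j, w j ≠ 0 → j ∈ L)
    (X : Finset (Fin n)) (hX : 2 ≤ X.card) :
    ∃ x ∈ X, ∃ y ∈ X, x ≠ y ∧
      (X.card : ℝ) * ((∑ j ∈ sep S x y, w j : ℕ) : ℝ) ^ d ≤
        (22 * ((∑ j, w j : ℕ) : ℝ)) ^ d := by
  classical
  obtain ⟨a, ha, b, hb, hab⟩ := Finset.one_lt_card.mp (by omega : 1 < X.card)
  obtain ⟨q, hq, hmin⟩ := Finset.exists_min_image (X.offDiag)
    (fun q : Fin n × Fin n => ∑ j ∈ sep S q.1 q.2, w j)
    ⟨(a, b), by rw [mem_offDiag]; exact ⟨ha, hb, hab⟩⟩
  rw [mem_offDiag] at hq
  obtain ⟨h1, h2, h3⟩ := hq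
  refine ⟨q.1, h1, q.2, h2, h3, ?_⟩
  set r := ∑ j ∈ sep S q.1 q.2, w j with hr
  rcases Nat.eq_zero_or_pos r with hr0 | hr0
  · rw [hr0, Nat.cast_zero, zero_pow (by omega), mul_zero]
    positivity
  let α : Type := Σ j : Fin m, Fin (w j)
  let D : Fin n → Finset α := fun x => univ.filter (fun a : α => x ∈ S a.1)
  have hcardα : Fintype.card α = ∑ j, w j := by
    simp [α, Fintype.card_sigma]
  have hsym : ∀ x y, (symmDiff (D x) (D y)).card = ∑ j ∈ sep S x y, w j := by
    intro x y
    have e1 : symmDiff (D x) (D y) = (sep S x y).sigma (fun _ => univ) := by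
      ext a
      have e2 : a ∈ (sep S x y).sigma (fun j => (univ : Finset (Fin (w j)))) ↔
          a.1 ∈ sep S x y := Finset.mem_sigma.trans (by simp)
      refine Iff.trans ?_ e2.symm
      simp only [mem_symmDiff, D, mem_filter, mem_univ, true_and, sep]
      tauto
    rw [e1, Finset.card_sigma]
    simp
  have hpair : ∀ x ∈ X, ∀ y ∈ X, x ≠ y → r ≤ (symmDiff (D x) (D y)).card := by
    intro x hx y hy hxy
    rw [hsym]
    exact hmin (x, y) (by rw [mem_offDiag]; exact ⟨hx, hy, hxy⟩)
  have hinj : Set.InjOn D X := by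
    intro x hx y hy hxy
    by_contra hne
    have h4 := hpair x hx y hy hne
    rw [hxy, symmDiff_self] at h4
    simp at h4
    omega
  have hrW : r ≤ Fintype.card α := by
    rw [hcardα, hr]
    exact Finset.sum_le_sum_of_subset (Finset.subset_univ _)
  have h4 := Pool.Agent.TH458.VC.haus α (X.image D) r hr0 (by
    intro A hA B hB hAB
    rw [mem_image] at hA hB
    obtain ⟨x, hx, rfl⟩ := hA
    obtain ⟨y, hy, rfl⟩ := hB
    exact hpair x hx y hy (fun h => hAB (by rw [h]))) hrW
  rw [card_image_of_injOn hinj] at h4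
  have hvc : (X.image D).vcDim ≤ d := by
    unfold Finset.vcDim
    apply Finset.sup_le
    intro s hs
    rw [mem_shatterer] at hs
    have hfst : Set.InjOn (fun a : α => a.1) s := by
      intro a ha b hb h5
      by_contra hne
      obtain ⟨u, hu, hsu⟩ := hs (singleton_subset_iff.2 ha)
      rw [mem_image] at hu
      obtain ⟨x, hx, rfl⟩ := hu
      have h6 : a ∈ s ∩ D x := by rw [hsu]; exact mem_singleton_self a
      have h7 : x ∈ S a.1 := (mem_filter.1 (mem_inter.1 h6).2).2
      have h5' : a.1 = b.1 := h5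
      rw [h5'] at h7
      have h8 : b ∈ s ∩ D x := mem_inter.2 ⟨hb, mem_filter.2 ⟨mem_univ _, h7⟩⟩
      rw [hsu, mem_singleton] at h8
      exact hne h8.symm
    have h9 := hd (s.image (fun a : α => a.1)) (by
      intro j hj
      rw [mem_image] at hj
      obtain ⟨a, ha, rfl⟩ := hj
      refine hw a.1 ?_
      have := a.2.2
      omega) (by
      intro T hT
      have h10 : (s.filter (fun a : α => a.1 ∈ T)) ⊆ s := filter_subset _ _
      obtain ⟨u, hu, hsu⟩ := hs h10
      rw [mem_image] at hu
      obtain ⟨x, hx, rfl⟩ := hu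
      refine ⟨x, ?_⟩
      intro j hj
      rw [mem_image] at hj
      obtain ⟨a, ha, rfl⟩ := hj
      have h11 : a ∈ s ∩ D x ↔ a ∈ s.filter (fun a : α => a.1 ∈ T) := by rw [hsu]
      simpa [D, mem_inter, mem_filter, ha] using h11)
    rwa [card_image_of_injOn hfst] at h9
  have hr0' : (0 : ℝ) < r := by exact_mod_cast hr0
  have hbase : (1 : ℝ) ≤ 22 * (Fintype.card α : ℝ) / r := by
    rw [le_div_iff₀ hr0']
    have : (r : ℝ) ≤ Fintype.card α := by exact_mod_cast hrW
    linarith
  have h5 : (X.card : ℝ) ≤ (22 * (Fintype.card α : ℝ) / r) ^ d :=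
    h4.trans (pow_le_pow_right₀ hbase hvc)
  rw [div_pow, le_div_iff₀ (by positivity)] at h5
  rw [← hcardα]
  exact h5

/-- A bound for the fraction of the weight that separates some two of `N` elements. -/
noncomputable def frac (e : ℝ) (K N : ℕ) : ℝ := if N ≤ K then 22 * (N : ℝ) ^ (-e) else 0

theorem frac_nonneg (e : ℝ) (K N : ℕ) : 0 ≤ frac e K N := by
  unfold frac
  split_ifs <;> positivity

/-- A bound for the factor by which the total weight grows. -/
noncomputable def Phi (e : ℝ) (K : ℕ) : ℕ → ℝ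
  | 0 => 1
  | 1 => 1
  | N + 2 => Phi e K N * (1 + frac e K (N + 2))

theorem Phi_nonneg (e : ℝ) (K : ℕ) : ∀ N : ℕ, 0 ≤ Phi e K N
  | 0 => by simp [Phi]
  | 1 => by simp [Phi]
  | N + 2 => by
    have h1 := Phi_nonneg e K N
    have h2 := frac_nonneg e K (N + 2)
    rw [Phi]
    positivity

theorem pair' {n m : ℕ} (S : Fin m → Finset (Fin n)) (L : Finset (Fin m)) {d : ℕ} (hd1 : 1 ≤ d)
    (hd : ∀ J ⊆ L, DuallyShattered S J → J.card ≤ d) (w : Fin m → ℕ)
    (hw : ∀ j, w j ≠ 0 → j ∈ L) (X : Finset (Fin n)) (N : ℕ) (hX : X.card = N + 2) :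
    ∃ x ∈ X, ∃ y ∈ X, x ≠ y ∧
      ((∑ j ∈ sep S x y, w j : ℕ) : ℝ) ≤
        ((∑ j, w j : ℕ) : ℝ) * frac (1 / (d : ℝ)) (patterns S L) (N + 2) := by
  by_cases hK : N + 2 ≤ patterns S L
  · obtain ⟨x, hx, y, hy, hxy, h⟩ := pair S L hd1 hd w hw X (by omega)
    refine ⟨x, hx, y, hy, hxy, ?_⟩
    rw [frac, if_pos hK]
    rw [hX] at h
    push_cast at h ⊢
    set s : ℝ := ∑ j ∈ sep S x y, (w j : ℝ) with hs
    set W : ℝ := ∑ j, (w j : ℝ) with hW
    have hs0 : 0 ≤ s := Finset.sum_nonneg fun _ _ => Nat.cast_nonneg _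
    have hW0 : 0 ≤ W := Finset.sum_nonneg fun _ _ => Nat.cast_nonneg _
    have hN : (0 : ℝ) < (N : ℝ) + 2 := by positivity
    have hd0 : (d : ℝ) ≠ 0 := by
      have : 0 < d := hd1
      positivity
    have h1 : (((N : ℝ) + 2) ^ (-(1 / (d : ℝ)))) ^ d = ((N : ℝ) + 2)⁻¹ := by
      rw [← Real.rpow_natCast, ← Real.rpow_mul hN.le]
      have : -(1 / (d : ℝ)) * d = -1 := by field_simp
      rw [this, Real.rpow_neg_one]
    refine le_of_pow_le_pow_left₀ (n := d) (by omega) (by positivity) ?_
    have h2 : (W * (22 * ((N : ℝ) + 2) ^ (-(1 / (d : ℝ))))) ^ d =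
        (22 * W) ^ d * ((N : ℝ) + 2)⁻¹ := by
      rw [← h1]
      ring
    rw [h2, ← div_eq_mul_inv, le_div_iff₀ hN]
    linarith
  · obtain ⟨x, hx, y, hy, hxy, h⟩ := Finset.exists_ne_map_eq_of_card_lt_of_maps_to
      (s := X) (t := univ.image (fun i : Fin n => L.filter (fun j => i ∈ S j)))
      (f := fun i : Fin n => L.filter (fun j => i ∈ S j)) (by
        unfold patterns at hK
        omega) (by
        intro i _
        exact mem_coe.2 (mem_image_of_mem _ (mem_univ i)))
    refine ⟨x, hx, y, hy, hxy, ?_⟩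
    have h0 : ∑ j ∈ sep S x y, w j = 0 := by
      refine Finset.sum_eq_zero fun j hj => ?_
      by_contra hne
      have hL := hw j hne
      have h1 : (j ∈ L.filter (fun j => x ∈ S j)) ↔ j ∈ L.filter (fun j => y ∈ S j) := by
        rw [show L.filter (fun j => x ∈ S j) = L.filter (fun j => y ∈ S j) from h]
      rw [mem_filter, mem_filter] at h1
      exact (mem_filter.1 hj).2 (by tauto)
    rw [h0, Nat.cast_zero]
    exact mul_nonneg (Nat.cast_nonneg _) (frac_nonneg _ _ _)

theorem count_step {n : ℕ} (A : Finset (Fin n)) (x y : Fin n) (hxy : x ≠ y)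
    (p' : Fin n → Fin n) (hx : p' x = x) (hy : p' y = y) :
    (A.filter (fun i => (if i = x then y else if i = y then x else p' i) ∉ A)).card =
      (A.filter (fun i => p' i ∉ A)).card + (if (x ∈ A ↔ y ∈ A) then 0 else 1) := by
  classical
  by_cases h1 : x ∈ A <;> by_cases h2 : y ∈ A
  · rw [if_pos (by tauto), add_zero]
    congr 1
    ext i
    simp only [mem_filter]
    by_cases h3 : i = x
    · subst h3; simp [h2, hx]
    · by_cases h4 : i = y
      · subst h4; simp [h3, h1, hy]
      · simp [h3, h4]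
  · rw [if_neg (by tauto)]
    have e : A.filter (fun i => (if i = x then y else if i = y then x else p' i) ∉ A) =
        insert x (A.filter (fun i => p' i ∉ A)) := by
      ext i
      simp only [mem_filter, mem_insert]
      by_cases h3 : i = x
      · subst h3; simp [h1, h2]
      · by_cases h4 : i = y
        · subst h4; simp [h3, h2]
        · simp [h3, h4]
    rw [e, card_insert_of_notMem]
    simp [hx]
  · rw [if_neg (by tauto)]
    have e : A.filter (fun i => (if i = x then y else if i = y then x else p' i) ∉ A) =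
        insert y (A.filter (fun i => p' i ∉ A)) := by
      ext i
      simp only [mem_filter, mem_insert]
      by_cases h3 : i = x
      · subst h3; simp [h1, hxy]
      · by_cases h4 : i = y
        · subst h4; simp [h3, h2, h1]
        · simp [h3, h4]
    rw [e, card_insert_of_notMem]
    simp [hy]
  · rw [if_pos (by tauto), add_zero]
    congr 1
    ext i
    simp only [mem_filter]
    by_cases h3 : i = x
    · subst h3; simp [h1]
    · by_cases h4 : i = y
      · subst h4; simp [h2]
      · simp [h3, h4]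

theorem matching {n m : ℕ} (S : Fin m → Finset (Fin n)) (L : Finset (Fin m)) {d : ℕ}
    (hd1 : 1 ≤ d) (hd : ∀ J ⊆ L, DuallyShattered S J → J.card ≤ d) :
    ∀ (N : ℕ) (X : Finset (Fin n)) (w : Fin m → ℕ), (∀ j, w j ≠ 0 → j ∈ L) → X.card = N →
      ∃ p : Fin n → Fin n, (∀ i, p (p i) = i) ∧ (∀ i, i ∉ X → p i = i) ∧
        (X.filter (fun i => p i = i)).card ≤ 1 ∧
        ((∑ j, w j * 2 ^ ((S j).filter (fun i => p i ∉ S j)).card : ℕ) : ℝ) ≤
          ((∑ j, w j : ℕ) : ℝ) * Phi (1 / (d : ℝ)) (patterns S L) N := by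
  intro N
  induction N using Nat.twoStepInduction with
  | zero =>
    intro X w hw hX
    refine ⟨fun i => i, fun _ => rfl, fun _ _ => rfl, ?_, ?_⟩
    · exact (card_filter_le _ _).trans (by omega)
    · have e : ∀ j, ((S j).filter (fun i => i ∉ S j)).card = 0 := by
        intro j
        rw [card_eq_zero, filter_eq_empty_iff]
        intro i hi h
        exact h hi
      simp [e, Phi]
  | one =>
    intro X w hw hX
    refine ⟨fun i => i, fun _ => rfl, fun _ _ => rfl, ?_, ?_⟩
    · exact (card_filter_le _ _).trans (by omega)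
    · have e : ∀ j, ((S j).filter (fun i => i ∉ S j)).card = 0 := by
        intro j
        rw [card_eq_zero, filter_eq_empty_iff]
        intro i hi h
        exact h hi
      simp [e, Phi]
  | more N ih _ =>
    intro X w hw hX
    obtain ⟨x, hx, y, hy, hxy, hsep⟩ := pair' S L hd1 hd w hw X N hX
    set w' : Fin m → ℕ := fun j => if (x ∈ S j ↔ y ∈ S j) then w j else w j * 2 with hw'
    have hX' : ((X.erase x).erase y).card = N := by
      rw [card_erase_of_mem (mem_erase.2 ⟨hxy.symm, hy⟩), card_erase_of_mem hx]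
      omega
    have hww : ∀ j, w' j ≠ 0 → j ∈ L := by
      intro j hj
      refine hw j (fun h => hj ?_)
      rw [hw']
      dsimp only
      rw [h]
      split_ifs <;> rfl
    obtain ⟨p', h1, h2, h3, h4⟩ := ih ((X.erase x).erase y) w' hww hX'
    have hpx : p' x = x := h2 x (by simp)
    have hpy : p' y = y := h2 y (by simp)
    refine ⟨fun i => if i = x then y else if i = y then x else p' i, ?_, ?_, ?_, ?_⟩
    · intro i
      dsimp only
      by_cases h5 : i = x
      · subst h5
        rw [if_pos rfl, if_neg hxy.symm, if_pos rfl]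
      · by_cases h6 : i = y
        · subst h6
          rw [if_neg h5, if_pos rfl, if_pos rfl]
        · rw [if_neg h5, if_neg h6]
          have h7 : p' i ≠ x := by
            intro h
            apply h5
            rw [← h1 i, h, hpx]
          have h8 : p' i ≠ y := by
            intro h
            apply h6
            rw [← h1 i, h, hpy]
          rw [if_neg h7, if_neg h8, h1]
    · intro i hi
      dsimp only
      have h5 : i ≠ x := fun h => hi (h ▸ hx)
      have h6 : i ≠ y := fun h => hi (h ▸ hy)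
      rw [if_neg h5, if_neg h6]
      exact h2 i (by
        rw [mem_erase, mem_erase]
        tauto)
    · refine le_trans (card_le_card ?_) h3
      intro i hi
      rw [mem_filter] at hi ⊢
      obtain ⟨hi1, hi2⟩ := hi
      dsimp only at hi2
      have h5 : i ≠ x := by
        intro h
        rw [if_pos h, h] at hi2
        exact hxy hi2.symm
      have h6 : i ≠ y := by
        intro h
        rw [if_neg h5, if_pos h, h] at hi2
        exact hxy hi2
      rw [if_neg h5, if_neg h6] at hi2
      exact ⟨mem_erase.2 ⟨h6, mem_erase.2 ⟨h5, hi1⟩⟩, hi2⟩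
    · have e1 : ∀ j, w j * 2 ^ ((S j).filter
          (fun i => (if i = x then y else if i = y then x else p' i) ∉ S j)).card =
          w' j * 2 ^ ((S j).filter (fun i => p' i ∉ S j)).card := by
        intro j
        rw [count_step (S j) x y hxy p' hpx hpy, hw']
        dsimp only
        by_cases h5 : (x ∈ S j ↔ y ∈ S j)
        · rw [if_pos h5, if_pos h5, add_zero]
        · rw [if_neg h5, if_neg h5, pow_add]
          ring
      rw [Finset.sum_congr rfl (fun j _ => e1 j)]
      refine h4.trans ?_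
      have e2 : (∑ j, w' j) = (∑ j, w j) + ∑ j ∈ sep S x y, w j := by
        unfold sep
        rw [Finset.sum_filter, ← Finset.sum_add_distrib]
        refine Finset.sum_congr rfl fun j _ => ?_
        rw [hw']
        dsimp only
        by_cases h5 : (x ∈ S j ↔ y ∈ S j)
        · rw [if_pos h5, if_neg (not_not.2 h5), add_zero]
        · rw [if_neg h5, if_pos h5]
          ring
      rw [e2, Phi]
      have h6 := Phi_nonneg (1 / (d : ℝ)) (patterns S L) N
      calc (((∑ j, w j) + ∑ j ∈ sep S x y, w j : ℕ) : ℝ) * Phi (1 / (d : ℝ)) (patterns S L) N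
          ≤ (((∑ j, w j : ℕ) : ℝ) +
              ((∑ j, w j : ℕ) : ℝ) * frac (1 / (d : ℝ)) (patterns S L) (N + 2)) *
              Phi (1 / (d : ℝ)) (patterns S L) N := by
            refine mul_le_mul_of_nonneg_right ?_ h6
            rw [Nat.cast_add]
            linarith
        _ = _ := by ring

/-- The growth factor is at most `exp (22 K ^ (1 - e))` if `0 ≤ e ≤ 1/2`. -/
theorem Phi_le (e : ℝ) (he0 : 0 ≤ e) (he : e ≤ 1 / 2) (K : ℕ) :
    ∀ N : ℕ, Phi e K N ≤ Real.exp (22 * ((min N K : ℕ) : ℝ) ^ (1 - e))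
  | 0 => by
    rw [Phi]
    exact Real.one_le_exp (by positivity)
  | 1 => by
    rw [Phi]
    exact Real.one_le_exp (by positivity)
  | N + 2 => by
    have ih := Phi_le e he0 he K N
    rw [Phi]
    by_cases hK : N + 2 ≤ K
    · rw [frac, if_pos hK, min_eq_left hK]
      rw [min_eq_left (by omega)] at ih
      have hN : (0 : ℝ) < (N : ℝ) + 2 := by positivity
      -- concavity
      have key : (N : ℝ) ^ (1 - e) + ((N : ℝ) + 2) ^ (-e) ≤ ((N : ℝ) + 2) ^ (1 - e) := by
        have h1 := rpow_one_add_le_one_add_mul_self (s := -(2 / ((N : ℝ) + 2))) (p := 1 - e)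
          (by
            rw [neg_le_neg_iff, div_le_one hN]
            have : (0 : ℝ) ≤ N := Nat.cast_nonneg N
            linarith) (by linarith) (by linarith)
        have h2 : 1 + -(2 / ((N : ℝ) + 2)) = (N : ℝ) / ((N : ℝ) + 2) := by
          field_simp
          ring
        rw [h2, Real.div_rpow (Nat.cast_nonneg N) hN.le,
          div_le_iff₀ (Real.rpow_pos_of_pos hN _)] at h1
        have h3 : ((N : ℝ) + 2) ^ (-e) = ((N : ℝ) + 2) ^ (1 - e) / ((N : ℝ) + 2) := by
          rw [← Real.rpow_sub_one hN.ne']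
          congr 1
          ring
        rw [h3]
        have h4 : 0 < ((N : ℝ) + 2) ^ (1 - e) := Real.rpow_pos_of_pos hN _
        set z := ((N : ℝ) + 2) ^ (1 - e) with hz
        have h5 : z / ((N : ℝ) + 2) ≤ 2 * (1 - e) * (z / ((N : ℝ) + 2)) := by
          have : 0 ≤ z / ((N : ℝ) + 2) := by positivity
          nlinarith
        have h6 : (1 + (1 - e) * -(2 / ((N : ℝ) + 2))) * z =
            z - 2 * (1 - e) * (z / ((N : ℝ) + 2)) := by
          field_simp
          ring
        rw [h6] at h1
        linarith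
      push_cast
      calc Phi e K N * (1 + 22 * ((N : ℝ) + 2) ^ (-e))
          ≤ Real.exp (22 * (N : ℝ) ^ (1 - e)) * Real.exp (22 * ((N : ℝ) + 2) ^ (-e)) := by
            refine mul_le_mul ih ?_ (by positivity) (Real.exp_nonneg _)
            rw [add_comm]
            exact Real.add_one_le_exp _
        _ = Real.exp (22 * ((N : ℝ) ^ (1 - e) + ((N : ℝ) + 2) ^ (-e))) := by
            rw [← Real.exp_add]
            ring_nf
        _ ≤ Real.exp (22 * ((N : ℝ) + 2) ^ (1 - e)) := by
            rw [Real.exp_le_exp]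
            linarith
    · rw [frac, if_neg hK, add_zero, mul_one]
      refine ih.trans ?_
      rw [Real.exp_le_exp]
      refine mul_le_mul_of_nonneg_left ?_ (by norm_num)
      refine Real.rpow_le_rpow (Nat.cast_nonneg _) ?_ (by linarith)
      exact_mod_cast min_le_min_right K (by omega : N ≤ N + 2)

end Pool.Agent.Q275.BF
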