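import Mathlib

/-!
Random transversals of 3-uniform hypergraphs with the Hall-type property of the neighbourhood
hypergraph of a cubic graph.  The key lemma `partial_coloring` is proved with kernel vectors.
-/

set_option autoImplicit false

namespace Pool.Agent.Q275.FTDom

open Finset

/-- more unknowns than equations -/
lemma exists_ker {V ι : Type} [Fintype V] [DecidableEq V] (Z : Finset V) (F : Finset ι)
    (A : ι → V → ℝ) (h : F.card < Z.card) :
    ∃ z : V → ℝ, (∃ v ∈ Z, z v ≠ 0) ∧ (∀ v, v ∉ Z → z v = 0) ∧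
      ∀ k ∈ F, ∑ v ∈ Z, A k v * z v = 0 := by
  classical
  let L : (Z → ℝ) →ₗ[ℝ] (F → ℝ) :=
    { toFun := fun z k => ∑ v : Z, A k v * z v
      map_add' := by
        intro x y; funext k; simp [mul_add, Finset.sum_add_distrib]
      map_smul' := by
        intro r x; funext k
        simp only [Pi.smul_apply, smul_eq_mul, RingHom.id_apply, Finset.mul_sum]
        refine Finset.sum_congr rfl (fun v _ => by ring) }
  have hk : LinearMap.ker L ≠ ⊥ := by
    apply LinearMap.ker_ne_bot_of_finrank_lt
    simpa using h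
  obtain ⟨z, hz, hz0⟩ := Submodule.exists_mem_ne_zero_of_ne_bot hk
  refine ⟨fun v => if hv : v ∈ Z then z ⟨v, hv⟩ else 0, ?_, ?_, ?_⟩
  · by_contra hcon
    push Not at hcon
    apply hz0
    funext v
    have := hcon v.1 v.2
    simpa using this
  · intro v hv; simp [hv]
  · intro k hk'
    have h1 : L z ⟨k, hk'⟩ = 0 := by
      rw [LinearMap.mem_ker] at hz
      rw [hz]; rfl
    have h2 : (∑ v : Z, A k v * z v) = 0 := h1
    rw [← Finset.sum_coe_sort Z]
    rw [← h2]
    refine Finset.sum_congr rfl (fun v _ => ?_)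
    simp

/-- Key lemma: a partial colouring that leaves one vertex uncoloured. -/
theorem partial_coloring {V ι : Type} [Fintype V] [DecidableEq V] [Fintype ι] [DecidableEq ι]
    (N : ι → Finset V) (hN : ∀ i, (N i).card = 3) :
    ∀ (n : ℕ) (Z : Finset V), Z.card = n → Z.Nonempty →
      (∀ Z' ⊆ Z, Z'.Nonempty → (univ.filter (fun i => N i ⊆ Z')).card < Z'.card) →
      ∃ u ∈ Z, ∃ c : V → Bool, ∀ i, N i ⊆ Z →
        ∃ x ∈ N i, ∃ y ∈ N i, x ≠ u ∧ y ≠ u ∧ c x = true ∧ c y = false := by
  intro n
  induction n using Nat.strong_induction_on with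
  | _ n ih =>
    intro Z hZn hZ hH
    by_cases hE : ∃ f, N f ⊆ Z
    swap
    · obtain ⟨u, hu⟩ := hZ
      exact ⟨u, hu, fun _ => true, fun i hi => absurd ⟨i, hi⟩ hE⟩
    obtain ⟨f, hf⟩ := hE
    obtain ⟨a, b, c, hab, hac, hbc, hNf⟩ := Finset.card_eq_three.mp (hN f)
    have haZ : a ∈ Z := hf (by simp [hNf])
    have hbZ : b ∈ Z := hf (by simp [hNf])
    have hcZ : c ∈ Z := hf (by simp [hNf])
    set F := univ.filter (fun i => N i ⊆ Z) with hF
    have hFc : F.card < Z.card := hH Z (le_refl _) hZ
    -- good kernel vectors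
    have key : ∀ s : V, s ∈ Z → ∃ z : V → ℝ, (∃ v ∈ Z, z v ≠ 0) ∧ (∀ v, v ∉ Z → z v = 0) ∧
        z s = 0 ∧ ∀ i, N i ⊆ Z → i ≠ f → ∑ v ∈ N i, z v = 0 := by
      intro s hs
      obtain ⟨z, hz1, hz2, hz3⟩ := exists_ker Z F
        (fun i v => if i = f then (if v = s then 1 else 0) else (if v ∈ N i then 1 else 0)) hFc
      refine ⟨z, hz1, hz2, ?_, ?_⟩
      · have := hz3 f (by simp [hF, hf])
        simpa [Finset.sum_ite_eq', hs] using this
      · intro i hi hif
        have := hz3 i (by simp [hF, hi])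
        simp only [hif, if_false, ite_mul, one_mul, zero_mul] at this
        rw [← this, ← Finset.sum_filter]
        refine Finset.sum_congr ?_ (fun _ _ => rfl)
        ext v
        simp only [Finset.mem_filter]
        exact ⟨fun h => ⟨hi h, h⟩, fun h => h.2⟩
    -- choose a good vector
    have good : ∃ z : V → ℝ, (∃ v ∈ Z, z v ≠ 0) ∧ (∀ v, v ∉ Z → z v = 0) ∧
        (∀ i, N i ⊆ Z → i ≠ f → ∑ v ∈ N i, z v = 0) ∧
        ((z a = 0 ∧ z b * z c ≤ 0) ∨ (z b = 0 ∧ z a * z c ≤ 0) ∨ (z c = 0 ∧ z a * z b ≤ 0)) := by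
      obtain ⟨p, hp1, hp2, hpa, hp3⟩ := key a haZ
      obtain ⟨q, hq1, hq2, hqb, hq3⟩ := key b hbZ
      by_cases hgp : p b * p c ≤ 0
      · exact ⟨p, hp1, hp2, hp3, Or.inl ⟨hpa, hgp⟩⟩
      by_cases hgq : q a * q c ≤ 0
      · exact ⟨q, hq1, hq2, hq3, Or.inr (Or.inl ⟨hqb, hgq⟩)⟩
      push Not at hgp hgq
      refine ⟨fun v => p c * q v - q c * p v, ⟨a, haZ, ?_⟩, ?_, ?_, ?_⟩
      · simp only [hpa, mul_zero, sub_zero]
        have h1 : p c ≠ 0 := by intro h; simp [h] at hgp
        have h2 : q a ≠ 0 := by intro h; simp [h] at hgq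
        exact mul_ne_zero h1 h2
      · intro v hv
        simp [hp2 v hv, hq2 v hv]
      · intro i hi hif
        rw [Finset.sum_sub_distrib, ← Finset.mul_sum, ← Finset.mul_sum, hp3 i hi hif,
          hq3 i hi hif]
        ring
      · right; right
        refine ⟨by ring, ?_⟩
        simp only [hpa, hqb, mul_zero, sub_zero, zero_sub]
        nlinarith [mul_pos hgp hgq]
    obtain ⟨z, ⟨v0, hv0, hzv0⟩, hz0, hz3, hz4⟩ := good
    -- support and zero set
    set Z' := Z.filter (fun v => z v = 0) with hZ'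
    have hZ'sub : Z' ⊆ Z := Finset.filter_subset _ _
    have hZ'ne : Z'.Nonempty := by
      rcases hz4 with h | h | h
      · exact ⟨a, by simp [hZ', haZ, h.1]⟩
      · exact ⟨b, by simp [hZ', hbZ, h.1]⟩
      · exact ⟨c, by simp [hZ', hcZ, h.1]⟩
    have hlt : Z'.card < n := by
      rw [← hZn]
      apply Finset.card_lt_card
      refine ⟨hZ'sub, fun h => ?_⟩
      have := h hv0
      simp [hZ'] at this
      exact hzv0 this.2
    obtain ⟨u, hu, c', hc'⟩ := ih Z'.card hlt Z' rfl hZ'ne
      (fun W hW hWne => hH W (hW.trans hZ'sub) hWne)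
    have huz : z u = 0 := by
      have := hu
      simp [hZ'] at this
      exact this.2
    -- rows other than f which meet the support
    have hmix : ∀ i, N i ⊆ Z → i ≠ f → ¬ (N i ⊆ Z') →
        (∃ x ∈ N i, 0 < z x) ∧ (∃ y ∈ N i, z y < 0) := by
      intro i hi hif hnot
      have hs := hz3 i hi hif
      have hex : ∃ x ∈ N i, z x ≠ 0 := by
        by_contra hcon
        push Not at hcon
        apply hnot
        intro x hx
        simp [hZ', hi hx, hcon x hx]
      obtain ⟨x, hx, hxne⟩ := hex
      exact ⟨Finset.exists_pos_of_sum_zero_of_exists_nonzero _ hs ⟨x, hx, hxne⟩, by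
        by_contra hcon
        push Not at hcon
        have := (Finset.sum_eq_zero_iff_of_nonneg (fun y hy => hcon y hy)).mp hs x hx
        exact hxne this⟩
    -- sign choice : a sign sg such that colouring works for f
    have finish : ∃ sg : Bool, ∃ x ∈ N f, ∃ y ∈ N f, x ≠ u ∧ y ≠ u ∧
        (if z x = 0 then c' x else (if 0 < z x then sg else !sg)) = true ∧
        (if z y = 0 then c' y else (if 0 < z y then sg else !sg)) = false := by
      by_cases hfZ' : N f ⊆ Z'
      · obtain ⟨x, hx, y, hy, hxu, hyu, hcx, hcy⟩ := hc' f hfZ'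
        have hx0 : z x = 0 := by
          have := hfZ' hx; simp [hZ'] at this; exact this.2
        have hy0 : z y = 0 := by
          have := hfZ' hy; simp [hZ'] at this; exact this.2
        exact ⟨true, x, hx, y, hy, hxu, hyu, by simp [hx0, hcx], by simp [hy0, hcy]⟩
      · -- either two opposite nonzero entries, or exactly one nonzero entry
        have hcase : (∃ x ∈ N f, ∃ y ∈ N f, 0 < z x ∧ z y < 0) ∨
            (∃ x ∈ N f, z x ≠ 0 ∧ ∃ y ∈ N f, ∃ y' ∈ N f, y ≠ y' ∧ z y = 0 ∧ z y' = 0) := by
          have ha : a ∈ N f := by simp [hNf]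
          have hb : b ∈ N f := by simp [hNf]
          have hc : c ∈ N f := by simp [hNf]
          have hex : z a ≠ 0 ∨ z b ≠ 0 ∨ z c ≠ 0 := by
            by_contra hcon
            push Not at hcon
            apply hfZ'
            intro x hx
            rw [hNf] at hx
            simp only [Finset.mem_insert, Finset.mem_singleton] at hx
            rcases hx with rfl | rfl | rfl
            · simp [hZ', haZ, hcon.1]
            · simp [hZ', hbZ, hcon.2.1]
            · simp [hZ', hcZ, hcon.2.2]
          have gen : ∀ s t r : V, s ∈ N f → t ∈ N f → r ∈ N f → s ≠ t → s ≠ r → t ≠ r →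
              z s = 0 → z t * z r ≤ 0 → (z s ≠ 0 ∨ z t ≠ 0 ∨ z r ≠ 0) →
              (∃ x ∈ N f, ∃ y ∈ N f, 0 < z x ∧ z y < 0) ∨
              (∃ x ∈ N f, z x ≠ 0 ∧ ∃ y ∈ N f, ∃ y' ∈ N f, y ≠ y' ∧ z y = 0 ∧ z y' = 0) := by
            intro s t r hs ht hr hst hsr htr hs0 hle hne
            rcases lt_trichotomy (z t) 0 with h1 | h1 | h1
            · rcases lt_trichotomy (z r) 0 with h2 | h2 | h2
              · exfalso; nlinarith [mul_pos_of_neg_of_neg h1 h2]
              · exact Or.inr ⟨t, ht, h1.ne, s, hs, r, hr, hsr, hs0, h2⟩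
              · exact Or.inl ⟨r, hr, t, ht, h2, h1⟩
            · have h3 : z r ≠ 0 := by
                rcases hne with h | h | h
                · exact absurd hs0 h
                · exact absurd h1 h
                · exact h
              exact Or.inr ⟨r, hr, h3, s, hs, t, ht, hst, hs0, h1⟩
            · rcases lt_trichotomy (z r) 0 with h2 | h2 | h2
              · exact Or.inl ⟨t, ht, r, hr, h1, h2⟩
              · exact Or.inr ⟨t, ht, h1.ne', s, hs, r, hr, hsr, hs0, h2⟩
              · exfalso; nlinarith [mul_pos h1 h2]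
          rcases hz4 with h | h | h
          · exact gen a b c ha hb hc hab hac hbc h.1 h.2 hex
          · exact gen b a c hb ha hc hab.symm hbc hac h.1 h.2 (by tauto)
          · exact gen c a b hc ha hb hac.symm hbc.symm hab h.1 h.2 (by tauto)
        rcases hcase with ⟨x, hx, y, hy, hzx, hzy⟩ | ⟨x, hx, hzx, y, hy, y', hy', hyy, hzy, hzy'⟩
        · refine ⟨true, x, hx, y, hy, ?_, ?_, ?_, ?_⟩
          · rintro rfl; linarith
          · rintro rfl; linarith
          · simp [hzx.ne', hzx]
          · simp [hzy.ne, not_lt.mpr hzy.le]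
        · have hxu : x ≠ u := by rintro rfl; exact hzx huz
          -- pick the one different from u
          obtain ⟨w, hw, hwu, hzw⟩ : ∃ w ∈ N f, w ≠ u ∧ z w = 0 := by
            by_cases h : y = u
            · exact ⟨y', hy', by rintro rfl; exact hyy h, hzy'⟩
            · exact ⟨y, hy, h, hzy⟩
          cases hcw : c' w
          · -- w has colour false, want x true
            refine ⟨decide (0 < z x), x, hx, w, hw, hxu, hwu, ?_, ?_⟩
            · by_cases h : 0 < z x
              · simp [hzx, h]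
              · simp [hzx, h]
            · simp [hzw, hcw]
          · refine ⟨!decide (0 < z x), w, hw, x, hx, hwu, hxu, ?_, ?_⟩
            · simp [hzw, hcw]
            · by_cases h : 0 < z x
              · simp [hzx, h]
              · simp [hzx, h]
    obtain ⟨sg, hsg⟩ := finish
    refine ⟨u, hZ'sub hu, fun v => if z v = 0 then c' v else (if 0 < z v then sg else !sg), ?_⟩
    intro i hi
    by_cases hif : i = f
    · subst hif; exact hsg
    by_cases hiZ' : N i ⊆ Z'
    · obtain ⟨x, hx, y, hy, hxu, hyu, hcx, hcy⟩ := hc' i hiZ'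
      have hx0 : z x = 0 := by
        have := hiZ' hx; simp [hZ'] at this; exact this.2
      have hy0 : z y = 0 := by
        have := hiZ' hy; simp [hZ'] at this; exact this.2
      exact ⟨x, hx, y, hy, hxu, hyu, by simp [hx0, hcx], by simp [hy0, hcy]⟩
    · obtain ⟨⟨x, hx, hzx⟩, y, hy, hzy⟩ := hmix i hi hif hiZ'
      have hxu : x ≠ u := by rintro rfl; linarith
      have hyu : y ≠ u := by rintro rfl; linarith
      cases sg
      · exact ⟨y, hy, x, hx, hyu, hxu, by simp [hzy.ne, not_lt.mpr hzy.le],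
          by simp [hzx.ne', hzx]⟩
      · exact ⟨x, hx, y, hy, hxu, hyu, by simp [hzx.ne', hzx],
          by simp [hzy.ne, not_lt.mpr hzy.le]⟩

end Pool.Agent.Q275.FTDom
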