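import Mathlib
import Pool.Agent.Q275.FTDom

set_option autoImplicit false

namespace Pool.Agent.Q275.FTDom

open Finset

variable {V : Type} [Fintype V] [DecidableEq V]

/-- closed sets of vertices: a neighbourhood that meets `X` lies in `X` -/
def Closed (N : V → Finset V) (X : Finset V) : Prop :=
  ∀ i x, x ∈ N i → x ∈ X → N i ⊆ X

lemma count (N : V → Finset V) (hN : ∀ i, (N i).card = 3)
    (hsym : ∀ x y, x ∈ N y ↔ y ∈ N x) (X : Finset V) (hX : ¬ Closed N X) :
    (univ.filter (fun i => N i ⊆ X)).card < X.card := by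
  classical
  have h1 : ∑ i, (N i ∩ X).card = 3 * X.card := by
    have : ∀ i, (N i ∩ X).card = ∑ x ∈ X, if x ∈ N i then 1 else 0 := by
      intro i
      rw [Finset.sum_ite_mem, Finset.sum_const, smul_eq_mul, mul_one, Finset.inter_comm]
    simp_rw [this]
    rw [Finset.sum_comm]
    have h2 : ∀ x ∈ X, (∑ i, if x ∈ N i then 1 else 0) = 3 := by
      intro x _
      rw [← hN x]
      rw [Finset.card_eq_sum_ones, ← Finset.sum_filter]
      refine Finset.sum_congr ?_ (fun _ _ => rfl)
      ext i
      simp [hsym x i]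
    rw [Finset.sum_congr rfl h2]
    simp [mul_comm]
  have hex : ∃ i x, x ∈ N i ∧ x ∈ X ∧ ¬ N i ⊆ X := by
    by_contra hcon
    push Not at hcon
    exact hX (fun i x h1 h2 => hcon i x h1 h2)
  obtain ⟨j, x, hxj, hxX, hj⟩ := hex
  have h3 : 3 * (univ.filter (fun i => N i ⊆ X)).card + 1 ≤ ∑ i, (N i ∩ X).card := by
    have hsplit : ∑ i, (N i ∩ X).card
        = ∑ i ∈ univ.filter (fun i => N i ⊆ X), (N i ∩ X).card
          + ∑ i ∈ univ.filter (fun i => ¬ N i ⊆ X), (N i ∩ X).card :=
      (Finset.sum_filter_add_sum_filter_not _ _ _).symm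
    rw [hsplit]
    have h4 : ∑ i ∈ univ.filter (fun i => N i ⊆ X), (N i ∩ X).card
        = 3 * (univ.filter (fun i => N i ⊆ X)).card := by
      rw [Finset.sum_congr rfl (g := fun _ => 3)]
      · simp [mul_comm]
      · intro i hi
        simp only [Finset.mem_filter, Finset.mem_univ, true_and] at hi
        rw [Finset.inter_eq_left.mpr hi, hN i]
    have h5 : 1 ≤ ∑ i ∈ univ.filter (fun i => ¬ N i ⊆ X), (N i ∩ X).card := by
      have : (N j ∩ X).card ≤ ∑ i ∈ univ.filter (fun i => ¬ N i ⊆ X), (N i ∩ X).card :=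
        Finset.single_le_sum (f := fun i => (N i ∩ X).card) (fun _ _ => Nat.zero_le _)
          (by simp [hj])
      refine le_trans ?_ this
      exact Finset.card_pos.mpr ⟨x, by simp [hxj, hxX]⟩
    omega
  omega

/-- every weighting has a light transversal -/
theorem light (N : V → Finset V) (hN : ∀ i, (N i).card = 3)
    (hsym : ∀ x y, x ∈ N y ↔ y ∈ N x) (w : V → ℝ) :
    ∀ (n : ℕ) (X : Finset V), X.card = n → Closed N X →
      ∃ T ⊆ X, (∀ i, N i ⊆ X → ∃ x ∈ N i, x ∈ T) ∧ 2 * ∑ v ∈ T, w v ≤ ∑ v ∈ X, w v := by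
  intro n
  induction n using Nat.strong_induction_on with
  | _ n ih =>
    intro X hXn hX
    rcases X.eq_empty_or_nonempty with rfl | hne
    · refine ⟨∅, le_refl _, ?_, by simp⟩
      intro i hi
      have := Finset.card_le_card hi
      rw [hN i] at this
      simp at this
    by_cases hsub : ∃ C, C ⊂ X ∧ C.Nonempty ∧ Closed N C
    · obtain ⟨C, hCX, hCne, hC⟩ := hsub
      have hD : Closed N (X \ C) := by
        intro i x hxi hx y hy
        rw [Finset.mem_sdiff] at hx ⊢
        refine ⟨hX i x hxi hx.1 hy, fun hyC => hx.2 (hC i y hy hyC hxi)⟩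
      have hc1 : C.card < n := by rw [← hXn]; exact Finset.card_lt_card hCX
      have hc2 : (X \ C).card < n := by
        rw [← hXn]
        apply Finset.card_lt_card
        refine ⟨Finset.sdiff_subset, fun h => ?_⟩
        obtain ⟨x, hx⟩ := hCne
        have := h (hCX.1 hx)
        rw [Finset.mem_sdiff] at this
        exact this.2 hx
      obtain ⟨T1, hT1, ht1, hw1⟩ := ih _ hc1 C rfl hC
      obtain ⟨T2, hT2, ht2, hw2⟩ := ih _ hc2 (X \ C) rfl hD
      refine ⟨T1 ∪ T2, ?_, ?_, ?_⟩
      · exact Finset.union_subset (hT1.trans hCX.1) (hT2.trans Finset.sdiff_subset)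
      · intro i hi
        by_cases hm : ∃ x ∈ N i, x ∈ C
        · obtain ⟨x, hx, hxC⟩ := hm
          obtain ⟨y, hy, hyT⟩ := ht1 i (hC i x hx hxC)
          exact ⟨y, hy, Finset.mem_union_left _ hyT⟩
        · push Not at hm
          obtain ⟨y, hy, hyT⟩ := ht2 i (fun y hy => Finset.mem_sdiff.mpr ⟨hi hy, hm y hy⟩)
          exact ⟨y, hy, Finset.mem_union_right _ hyT⟩
      · have hdis : Disjoint T1 T2 := by
          rw [Finset.disjoint_left]
          intro x h1 h2
          exact (Finset.mem_sdiff.mp (hT2 h2)).2 (hT1 h1)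
        rw [Finset.sum_union hdis]
        have hs : ∑ v ∈ X, w v = ∑ v ∈ X \ C, w v + ∑ v ∈ C, w v :=
          (Finset.sum_sdiff hCX.1).symm
        rw [hs]; linarith
    · -- minimal closed set
      push Not at hsub
      obtain ⟨v1, hv1, hmin⟩ := Finset.exists_min_image X w hne
      set Z := X.erase v1 with hZ
      have hZX : Z ⊆ X := Finset.erase_subset _ _
      have hZss : Z ⊂ X := Finset.erase_ssubset hv1
      have hZne : Z.Nonempty := by
        rw [Finset.nonempty_iff_ne_empty]
        intro hZe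
        have hX1 : X = {v1} := by
          have := Finset.insert_erase hv1
          rw [← hZ, hZe] at this
          simpa using this.symm
        have h3 := hN v1
        have : (N v1).Nonempty := by rw [← Finset.card_pos, h3]; norm_num
        obtain ⟨y, hy⟩ := this
        have hy' : v1 ∈ N y := (hsym v1 y).mpr hy
        have h4 := hX y v1 hy' hv1
        have h5 := Finset.card_le_card h4
        rw [hN y, hX1] at h5
        simp at h5
      obtain ⟨u, hu, c, hc⟩ := partial_coloring N hN Z.card Z rfl hZne (by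
        intro Z' hZ' hne'
        apply count N hN hsym
        intro hcl
        exact hsub Z' (Finset.ssubset_of_subset_of_ssubset hZ' hZss) hne' hcl)
      have huv : u ≠ v1 := (Finset.mem_erase.mp hu).1
      have huX : u ∈ X := hZX hu
      set P := (Z.erase u).filter (fun x => c x = true) with hP
      set Q := (Z.erase u).filter (fun x => ¬ c x = true) with hQ
      have hPQ : ∑ v ∈ P, w v + ∑ v ∈ Q, w v = ∑ v ∈ Z.erase u, w v :=
        Finset.sum_filter_add_sum_filter_not _ _ _
      have hZw : ∑ v ∈ Z.erase u, w v + w u = ∑ v ∈ Z, w v := Finset.sum_erase_add _ _ hu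
      have hXw : ∑ v ∈ Z, w v + w v1 = ∑ v ∈ X, w v := Finset.sum_erase_add _ _ hv1
      have hwu := hmin u huX
      have hv1P : v1 ∉ P := by simp [hP, hZ]
      have hv1Q : v1 ∉ Q := by simp [hQ, hZ]
      have hPX : insert v1 P ⊆ X := by
        intro x hx
        rcases Finset.mem_insert.mp hx with rfl | hx
        · exact hv1
        · exact hZX (Finset.erase_subset _ _ (Finset.filter_subset _ _ hx))
      have hQX : insert v1 Q ⊆ X := by
        intro x hx
        rcases Finset.mem_insert.mp hx with rfl | hx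
        · exact hv1
        · exact hZX (Finset.erase_subset _ _ (Finset.filter_subset _ _ hx))
      have hit : ∀ i, N i ⊆ X → (∃ x ∈ N i, x ∈ insert v1 P) ∧ (∃ x ∈ N i, x ∈ insert v1 Q) := by
        intro i hi
        by_cases h : v1 ∈ N i
        · exact ⟨⟨v1, h, Finset.mem_insert_self _ _⟩, ⟨v1, h, Finset.mem_insert_self _ _⟩⟩
        · have hiZ : N i ⊆ Z := fun x hx => Finset.mem_erase.mpr
            ⟨fun h' => h (h' ▸ hx), hi hx⟩
          obtain ⟨x, hx, y, hy, hxu, hyu, hcx, hcy⟩ := hc i hiZ
          refine ⟨⟨x, hx, Finset.mem_insert_of_mem ?_⟩, ⟨y, hy, Finset.mem_insert_of_mem ?_⟩⟩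
          · simp only [hP, Finset.mem_filter]
            exact ⟨Finset.mem_erase.mpr ⟨hxu, hiZ hx⟩, hcx⟩
          · simp only [hQ, Finset.mem_filter]
            exact ⟨Finset.mem_erase.mpr ⟨hyu, hiZ hy⟩, by simp [hcy]⟩
      by_cases hle : 2 * ∑ v ∈ insert v1 P, w v ≤ ∑ v ∈ X, w v
      · exact ⟨insert v1 P, hPX, fun i hi => (hit i hi).1, hle⟩
      · refine ⟨insert v1 Q, hQX, fun i hi => (hit i hi).2, ?_⟩
        rw [Finset.sum_insert hv1P] at hle
        rw [Finset.sum_insert hv1Q]
        push Not at hle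
        linarith

/-- Fractional version: a probability distribution on transversals with marginals at most 1/2 -/
theorem frac (N : V → Finset V) (hN : ∀ i, (N i).card = 3)
    (hsym : ∀ x y, x ∈ N y ↔ y ∈ N x) :
    ∃ l : Finset V → ℝ, (∀ S, 0 ≤ l S) ∧ (∑ S, l S = 1) ∧
      (∀ S, l S ≠ 0 → ∀ i, ∃ x ∈ N i, x ∈ S) ∧
      ∀ v, ∑ S ∈ univ.filter (fun S : Finset V => v ∈ S), l S ≤ 1 / 2 := by
  classical
  let L : (Finset V → ℝ) →ₗ[ℝ] (V → ℝ) :=
    { toFun := fun l v => ∑ S ∈ univ.filter (fun S : Finset V => v ∈ S), l S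
      map_add' := by intro x y; funext v; simp [Finset.sum_add_distrib]
      map_smul' := by intro r x; funext v; simp [Finset.mul_sum] }
  let Lam : Set (Finset V → ℝ) :=
    {l | l ∈ stdSimplex ℝ (Finset V) ∧ ∀ S, (¬ ∀ i, ∃ x ∈ N i, x ∈ S) → l S = 0}
  have hLamEq : Lam = stdSimplex ℝ (Finset V) ∩
      ⋂ S ∈ {S : Finset V | ¬ ∀ i, ∃ x ∈ N i, x ∈ S}, {l : Finset V → ℝ | l S = 0} := by
    ext l
    simp only [Lam, Set.mem_setOf_eq, Set.mem_inter_iff, Set.mem_iInter]
  have hcomp : IsCompact Lam := by
    rw [hLamEq]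
    apply (isCompact_stdSimplex ℝ (Finset V)).inter_right
    refine isClosed_biInter (fun S _ => ?_)
    exact isClosed_eq (continuous_apply S) continuous_const
  have hconv : Convex ℝ Lam := by
    intro x hx y hy a b ha hb hab
    refine ⟨convex_stdSimplex ℝ (Finset V) hx.1 hy.1 ha hb hab, ?_⟩
    intro S hS
    simp [hx.2 S hS, hy.2 S hS]
  have hLc : Continuous L := by
    apply LinearMap.continuous_of_finiteDimensional
  let K := L '' Lam
  have hKc : IsCompact K := hcomp.image hLc
  have hKv : Convex ℝ K := hconv.linear_image L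
  let D : Set (V → ℝ) := {x | ∀ v, x v ≤ 1 / 2}
  have hDc : IsClosed D := by
    have : D = ⋂ v, {x : V → ℝ | x v ≤ 1 / 2} := by
      ext x; simp [D]
    rw [this]
    exact isClosed_iInter (fun v => isClosed_le (continuous_apply v) continuous_const)
  have hDv : Convex ℝ D := by
    intro x hx y hy a b ha hb hab v
    have h1 := hx v
    have h2 := hy v
    simp only [Pi.add_apply, Pi.smul_apply, smul_eq_mul]
    nlinarith
  by_cases hdis : Disjoint D K
  · exfalso
    obtain ⟨f, s, t, hf1, hst, hf2⟩ := geometric_hahn_banach_closed_compact hDv hDc hKv hKc hdis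
    have hfexp : ∀ x : V → ℝ, f x = ∑ v, x v * f (Pi.single v 1) := by
      intro x
      conv_lhs => rw [← Finset.univ_sum_single x]
      rw [map_sum]
      refine Finset.sum_congr rfl (fun v _ => ?_)
      have : (Pi.single v (x v) : V → ℝ) = x v • (Pi.single v (1:ℝ) : V → ℝ) := by
        rw [← Pi.single_smul]; simp
      rw [this, map_smul, smul_eq_mul]
    have hwn : ∀ v, 0 ≤ f (Pi.single v 1) := by
      intro v
      by_contra hneg
      push Not at hneg
      have hhalf := hf1 (fun _ => 1 / 2) (fun _ => le_refl _)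
      set h0 := f (fun _ => (1:ℝ) / 2) with hh0
      have hb : ∀ r : ℝ, 0 ≤ r → h0 - r * f (Pi.single v 1) < s := by
        intro r hr
        have := hf1 ((fun _ => (1:ℝ) / 2) - r • Pi.single v 1) (by
          intro v'
          simp only [Pi.sub_apply, Pi.smul_apply, smul_eq_mul]
          by_cases h : v' = v
          · subst h; simp; linarith
          · simp [h])
        rwa [map_sub, map_smul, smul_eq_mul] at this
      have := hb ((s - h0) / (- f (Pi.single v 1))) (div_nonneg (by linarith) (by linarith))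
      have h2 : (s - h0) / (- f (Pi.single v 1)) * f (Pi.single v 1) = -(s - h0) := by
        rw [div_neg, neg_mul, div_mul_cancel₀ _ hneg.ne]
      rw [h2] at this
      linarith
    obtain ⟨T, _, hT, hTw⟩ := light N hN hsym (fun v => f (Pi.single v 1))
      (univ : Finset V).card univ rfl (fun i x _ _ => Finset.subset_univ _)
    have hTmem : L (Pi.single T 1) ∈ K := by
      refine ⟨Pi.single T 1, ⟨?_, ?_⟩, rfl⟩
      · exact single_mem_stdSimplex ℝ T
      · intro S hS
        by_cases h : S = T
        · subst h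
          exact absurd (fun i => hT i (Finset.subset_univ _)) hS
        · simp [h]
    have hLT : ∀ v, L (Pi.single T 1) v = if v ∈ T then 1 else 0 := by
      intro v
      show ∑ S ∈ univ.filter (fun S : Finset V => v ∈ S), (Pi.single T (1:ℝ) : Finset V → ℝ) S = _
      by_cases h : v ∈ T
      · rw [Finset.sum_eq_single_of_mem T (by simp [h])]
        · simp [h]
        · intro S _ hS; simp [hS]
      · rw [Finset.sum_eq_zero]
        · simp [h]
        · intro S hS
          have : S ≠ T := by
            rintro rfl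
            simp [h] at hS
          simp [this]
    have h1 := hf2 _ hTmem
    rw [hfexp] at h1
    simp only [hLT, ite_mul, one_mul, zero_mul] at h1
    rw [← Finset.sum_filter] at h1
    have h2 : (univ.filter (fun v => v ∈ T)) = T := by ext; simp
    rw [h2] at h1
    have h3 := hf1 (fun _ => 1 / 2) (fun _ => le_refl _)
    rw [hfexp] at h3
    simp only [← Finset.mul_sum] at h3
    linarith
  · rw [Set.not_disjoint_iff] at hdis
    obtain ⟨x, hxD, l, hl, hlx⟩ := hdis
    refine ⟨l, hl.1.1, hl.1.2, ?_, ?_⟩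
    · intro S hS
      by_contra hcon
      exact hS (hl.2 S hcon)
    · intro v
      have := hxD v
      rw [← hlx] at this
      exact this

end Pool.Agent.Q275.FTDom
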