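import Pool.Agent.Q275.GapProof

set_option autoImplicit false

namespace Pool.Agent.Q275.Gap

open Pool.Agent.Q275

/-- index of the block of `i`: first `a` blocks of size 2, then blocks of size 3 -/
def blk (a i : ℕ) : ℕ := if i < 2 * a then i / 2 else a + (i - 2 * a) / 3

/-- disjoint union of `a` edges and `b` triangles -/
def blockGraph (a n : ℕ) : SimpleGraph (Fin n) where
  Adj i j := i ≠ j ∧ blk a i = blk a j
  symm := ⟨fun _ _ h => ⟨h.1.symm, h.2.symm⟩⟩
  loopless := ⟨fun _ h => h.1 rfl⟩

instance (a n : ℕ) : DecidableRel (blockGraph a n).Adj := fun i j => by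
  unfold blockGraph; exact inferInstance

lemma block_adj {a n : ℕ} {i j : Fin n} :
    (blockGraph a n).Adj i j ↔ i ≠ j ∧ blk a i = blk a j := Iff.rfl

lemma block_free {a n : ℕ} : Free pair (blockGraph a n) := by
  rw [free_iff]
  intro S hS
  rw [connected_iff] at hS
  obtain ⟨⟨x, hx⟩, hcl⟩ := hS
  have hsub := hcl {y | y ∈ S ∧ blk a y = blk a x} (fun y hy => hy.1) ⟨x, hx, rfl⟩ (by
    rintro y ⟨hy, hyx⟩ z hz hyz
    exact ⟨hz, by rw [← hyx]; exact hyz.2.symm⟩)
  have himg : S.image Fin.val ⊆
      if x.val < 2 * a then {2 * (x.val / 2), 2 * (x.val / 2) + 1} else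
        {2 * a + 3 * ((x.val - 2 * a) / 3), 2 * a + 3 * ((x.val - 2 * a) / 3) + 1,
          2 * a + 3 * ((x.val - 2 * a) / 3) + 2} := by
    intro m hm
    obtain ⟨y, hy, rfl⟩ := Finset.mem_image.1 hm
    have hyx := (hsub hy).2
    unfold blk at hyx
    split_ifs at hyx ⊢ <;> simp only [Finset.mem_insert, Finset.mem_singleton] <;> omega
  have hc := Finset.card_le_card himg
  rw [Finset.card_image_of_injective _ Fin.val_injective] at hc
  refine hc.trans ?_
  split_ifs
  · exact Finset.card_le_two.trans (by norm_num)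
  · exact Finset.card_le_three

/-- every vertex has a partner in its block -/
lemma block_partner {a b n : ℕ} (hn : n = 2 * a + 3 * b) (i : Fin n) :
    ∃ j, (blockGraph a n).Adj i j := by
  have hi := i.2
  by_cases h : i.val < 2 * a
  · by_cases h2 : i.val % 2 = 0
    · refine ⟨⟨i.val + 1, by omega⟩, ?_, ?_⟩
      · intro e; have := congrArg Fin.val e; simp at this
      · unfold blk; simp only; split_ifs <;> omega
    · refine ⟨⟨i.val - 1, by omega⟩, ?_, ?_⟩
      · intro e; have := congrArg Fin.val e; simp at this; omega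
      · unfold blk; simp only; split_ifs <;> omega
  · by_cases h2 : (i.val - 2 * a) % 3 = 2
    · refine ⟨⟨i.val - 1, by omega⟩, ?_, ?_⟩
      · intro e; have := congrArg Fin.val e; simp at this; omega
      · unfold blk; simp only; split_ifs <;> omega
    · refine ⟨⟨i.val + 1, by omega⟩, ?_, ?_⟩
      · intro e; have := congrArg Fin.val e; simp at this
      · unfold blk; simp only; split_ifs <;> omega

lemma block_edgeMaximal {a b n : ℕ} (hn : n = 2 * a + 3 * b) :
    EdgeMaximal pair (blockGraph a n) := by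
  refine ⟨block_free, ?_⟩
  intro u v huv hna hfree
  obtain ⟨u', hu'⟩ := block_partner hn u
  obtain ⟨v', hv'⟩ := block_partner hn v
  have hbl : blk a u ≠ blk a v := fun h => hna ⟨huv, h⟩
  refine hfree ⟨4, P4⟩ (Or.inl rfl) (minor_P4 (a := u') (b := u) (c := v) (d := v') ?_ ?_ ?_ ?_ ?_ ?_)
  · rw [edge_adj huv]; exact Or.inl hu'.symm
  · rw [edge_adj huv]; exact Or.inr (Or.inl ⟨rfl, rfl⟩)
  · rw [edge_adj huv]; exact Or.inl hv'
  · intro e; exact hbl (by rw [hu'.2, e])
  · intro e; exact hbl (by rw [hu'.2, e, ← hv'.2])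
  · intro e; exact hbl (by rw [e, hv'.2])

lemma block_degree {a b n : ℕ} (hn : n = 2 * a + 3 * b) (i : Fin n) :
    (blockGraph a n).degree i = if i.val < 2 * a then 1 else 2 := by
  have hi := i.2
  rw [← SimpleGraph.card_neighborFinset_eq_degree,
    ← Finset.card_image_of_injective _ Fin.val_injective]
  split_ifs with h
  · have : ((blockGraph a n).neighborFinset i).image Fin.val =
        {if i.val % 2 = 0 then i.val + 1 else i.val - 1} := by
      ext m
      simp only [Finset.mem_image, SimpleGraph.mem_neighborFinset, block_adj,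
        Finset.mem_singleton]
      constructor
      · rintro ⟨j, ⟨hne, hb⟩, rfl⟩
        have hne' : i.val ≠ j.val := fun e => hne (Fin.ext e)
        unfold blk at hb
        split_ifs at hb ⊢ <;> omega
      · intro hm
        have hmn : m < n := by split_ifs at hm <;> omega
        refine ⟨⟨m, hmn⟩, ⟨?_, ?_⟩, rfl⟩
        · intro e; have := congrArg Fin.val e; simp at this; split_ifs at hm <;> omega
        · unfold blk; simp only; split_ifs at hm ⊢ <;> omega
    rw [this]; simp
  · have : ((blockGraph a n).neighborFinset i).image Fin.val =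
        {2 * a + 3 * ((i.val - 2 * a) / 3) + ((i.val - 2 * a) + 1) % 3,
          2 * a + 3 * ((i.val - 2 * a) / 3) + ((i.val - 2 * a) + 2) % 3} := by
      ext m
      simp only [Finset.mem_image, SimpleGraph.mem_neighborFinset, block_adj,
        Finset.mem_singleton, Finset.mem_insert]
      constructor
      · rintro ⟨j, ⟨hne, hb⟩, rfl⟩
        have hne' : i.val ≠ j.val := fun e => hne (Fin.ext e)
        unfold blk at hb
        split_ifs at hb
        · omega
        · omega
      · intro hm
        have hmn : m < n := by omega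
        refine ⟨⟨m, hmn⟩, ⟨?_, ?_⟩, rfl⟩
        · intro e; have := congrArg Fin.val e; simp at this; omega
        · unfold blk; simp only; split_ifs <;> omega
    rw [this, Finset.card_pair]
    omega

lemma block_edges {a b n : ℕ} (hn : n = 2 * a + 3 * b) :
    (blockGraph a n).edgeFinset.card = a + 3 * b := by
  have h1 := (blockGraph a n).sum_degrees_eq_twice_card_edges
  have h2 : ∑ i : Fin n, (blockGraph a n).degree i = 2 * a + 2 * (3 * b) := by
    calc ∑ i : Fin n, (blockGraph a n).degree i
        = ∑ i : Fin n, (fun m : ℕ => if m < 2 * a then 1 else 2) i.val :=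
          Finset.sum_congr rfl fun i _ => block_degree hn i
      _ = ∑ m ∈ Finset.range n, (if m < 2 * a then 1 else 2) :=
          Fin.sum_univ_eq_sum_range (fun m : ℕ => if m < 2 * a then 1 else 2) n
      _ = 2 * a + 2 * (3 * b) := by
          rw [hn, Finset.sum_range_add]
          have e1 : ∑ x ∈ Finset.range (2 * a), (if x < 2 * a then 1 else 2) = 2 * a := by
            rw [Finset.sum_congr rfl (fun x hx => if_pos (Finset.mem_range.1 hx))]
            simp
          have e2 : ∑ x ∈ Finset.range (3 * b), (if 2 * a + x < 2 * a then 1 else 2)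
              = 2 * (3 * b) := by
            rw [Finset.sum_congr rfl (fun x _ => if_neg (by omega))]
            simp; ring
          rw [e1, e2]
  omega

/-! ### the set of edge numbers -/

lemma mem_E_blocks {a b n : ℕ} (hn : n = 2 * a + 3 * b) : a + 3 * b ∈ E pair n := by
  classical
  refine ⟨blockGraph a n, block_edgeMaximal hn, ?_⟩
  rw [← block_edges hn, ← SimpleGraph.coe_edgeFinset, Set.ncard_coe_finset]

lemma E_subset (n : ℕ) : E pair n ⊆
    (({n - 1} ∪ (Finset.range (n / 6 + 1)).image (fun j => n - ((2 * n) % 3 + 3 * j)) :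
      Finset ℕ) : Set ℕ) := by
  classical
  rintro m ⟨G, hG, rfl⟩
  have h := edges_cases hG
  rw [Fintype.card_fin] at h
  rw [← SimpleGraph.coe_edgeFinset, Set.ncard_coe_finset]
  simp only [Finset.coe_union, Finset.coe_singleton, Set.mem_union,
    Set.mem_singleton_iff, Finset.coe_image, Finset.coe_range, Set.mem_image, Set.mem_Iio]
  rcases h with h | ⟨a, ha1, ha2, ha3⟩
  · left; omega
  · right
    obtain ⟨c, hc⟩ := ha2
    refine ⟨(a - (2 * n) % 3) / 3, ?_, ?_⟩
    · omega
    · omega

lemma E_finite (n : ℕ) : (E pair n).Finite := (Finset.finite_toSet _).subset (E_subset n)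

lemma E_ncard (n : ℕ) : (E pair n).ncard ≤ n / 6 + 2 := by
  classical
  refine (Set.ncard_le_ncard (E_subset n) (Finset.finite_toSet _)).trans ?_
  rw [Set.ncard_coe_finset]
  refine (Finset.card_union_le _ _).trans ?_
  have := Finset.card_image_le (s := Finset.range (n / 6 + 1))
    (f := fun j => n - ((2 * n) % 3 + 3 * j))
  rw [Finset.card_range] at this
  rw [Finset.card_singleton]
  omega

lemma E_le {n m : ℕ} (h : m ∈ E pair n) : m ≤ n := by
  have := E_subset n h
  simp only [Finset.coe_union, Finset.coe_singleton, Set.mem_union,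
    Set.mem_singleton_iff, Finset.coe_image, Finset.coe_range, Set.mem_image, Set.mem_Iio] at this
  rcases this with h | ⟨j, -, h⟩ <;> omega

lemma gap_le (n : ℕ) : gap pair n ≤ n := by
  unfold gap Mplus
  refine (Nat.sub_le _ _).trans ?_
  by_cases h : (E pair n).Nonempty
  · exact csSup_le h (fun m hm => E_le hm)
  · rw [Set.not_nonempty_iff_eq_empty.1 h]; simp

lemma gap_ge {n : ℕ} (hn : 6 ≤ n) : n ≤ 2 * gap pair n + 9 := by
  have hbdd : BddAbove (E pair n) := ⟨n, fun m hm => E_le hm⟩
  obtain ⟨b1, hb1⟩ : ∃ b, n = 2 * ((2 * n) % 3) + 3 * b :=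
    ⟨(n - 2 * ((2 * n) % 3)) / 3, by omega⟩
  obtain ⟨b2, hb2⟩ : ∃ b, n = 2 * ((2 * n) % 3 + 3 * ((n / 2 - (2 * n) % 3) / 3)) + 3 * b :=
    ⟨(n - 2 * ((2 * n) % 3 + 3 * ((n / 2 - (2 * n) % 3) / 3))) / 3, by omega⟩
  have h1 := mem_E_blocks hb1
  have h2 := mem_E_blocks hb2
  have h3 : _ ≤ Mplus pair n := le_csSup hbdd h1
  have h4 : Mminus pair n ≤ _ := Nat.sInf_le h2
  unfold gap
  omega

lemma E_ge {n m : ℕ} (hn : 2 ≤ n) (h : m ∈ E pair n) : n ≤ 2 * m := by
  have := E_subset n h
  simp only [Finset.coe_union, Finset.coe_singleton, Set.mem_union,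
    Set.mem_singleton_iff, Finset.coe_image, Finset.coe_range, Set.mem_image, Set.mem_Iio] at this
  rcases this with h | ⟨j, hj, h⟩
  · omega
  · obtain ⟨G, hG, hm⟩ := h ▸ (by assumption : m ∈ E pair n)
    classical
    have h' := edges_cases hG
    rw [Fintype.card_fin] at h'
    rw [← SimpleGraph.coe_edgeFinset, Set.ncard_coe_finset] at hm
    rcases h' with h' | ⟨a, ha1, ha2, ha3⟩ <;> omega

lemma two_gap_le {n : ℕ} (hn : 6 ≤ n) : 2 * gap pair n ≤ n := by
  have hne : (E pair n).Nonempty := by
    obtain ⟨b1, hb1⟩ : ∃ b, n = 2 * ((2 * n) % 3) + 3 * b :=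
      ⟨(n - 2 * ((2 * n) % 3)) / 3, by omega⟩
    exact ⟨_, mem_E_blocks hb1⟩
  have h1 : Mplus pair n ≤ n := csSup_le hne (fun m hm => E_le hm)
  have h2 : n ≤ 2 * Mminus pair n := E_ge (by omega) (Nat.sInf_mem hne)
  unfold gap
  omega

lemma ncard_ge {n : ℕ} (hn : 6 ≤ n) : n ≤ 6 * (E pair n).ncard + 5 := by
  classical
  set J := (n / 2 - (2 * n) % 3) / 3 + 1 with hJ
  have hsub : (((Finset.range J).image (fun j => n - ((2 * n) % 3 + 3 * j)) : Finset ℕ) : Set ℕ) ⊆
      E pair n := by
    intro m hm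
    obtain ⟨j, hj, rfl⟩ := Finset.mem_image.1 (Finset.mem_coe.1 hm)
    rw [Finset.mem_range] at hj
    obtain ⟨b, hb⟩ : ∃ b, n = 2 * ((2 * n) % 3 + 3 * j) + 3 * b :=
      ⟨(n - 2 * ((2 * n) % 3 + 3 * j)) / 3, by omega⟩
    have := mem_E_blocks hb
    have e : (2 * n) % 3 + 3 * j + 3 * b = n - ((2 * n) % 3 + 3 * j) := by omega
    rw [← e]
    exact this
  have h1 := Set.ncard_le_ncard hsub (E_finite n)
  rw [Set.ncard_coe_finset, Finset.card_image_of_injOn, Finset.card_range] at h1
  · omega
  · intro i hi j hj hij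
    simp only [Finset.coe_range, Set.mem_Iio] at hi hj
    simp only at hij
    omega

end Pool.Agent.Q275.Gap
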