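import Pool.Agent.Q275.Base

/-!
# Edge-maximal minor-free graphs: definitions
-/

set_option autoImplicit false

namespace Pool.Agent.Q275.Gap

open Pool.Agent.Q275

/-- A set of finite graphs (each given on some `Fin k`). -/
abbrev GraphSet : Type := Set (Σ k : ℕ, SimpleGraph (Fin k))

/-- A suitable set: a nonempty set of graphs, each with at least one edge. -/
def Suitable (𝓗 : GraphSet) : Prop := 𝓗.Nonempty ∧ ∀ H ∈ 𝓗, ∃ a b, H.2.Adj a b

/-- `G` is `𝓗`-free: no member of `𝓗` is a minor of `G`. -/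
def Free (𝓗 : GraphSet) {V : Type} (G : SimpleGraph V) : Prop := ∀ H ∈ 𝓗, ¬ IsMinor H.2 G

/-- `G` is edge-maximal `𝓗`-free: it is `𝓗`-free and adding any edge between two distinct
non-adjacent vertices creates a minor in `𝓗`. -/
def EdgeMaximal (𝓗 : GraphSet) {V : Type} (G : SimpleGraph V) : Prop :=
  Free 𝓗 G ∧ ∀ u v, u ≠ v → ¬ G.Adj u v → ¬ Free 𝓗 (G ⊔ SimpleGraph.edge u v)

/-- `E 𝓗 n`: the numbers of edges of the edge-maximal `𝓗`-free graphs on `n` vertices. -/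
def E (𝓗 : GraphSet) (n : ℕ) : Set ℕ :=
  {m | ∃ G : SimpleGraph (Fin n), EdgeMaximal 𝓗 G ∧ G.edgeSet.ncard = m}

/-- the largest element of `E 𝓗 n` -/
noncomputable def Mplus (𝓗 : GraphSet) (n : ℕ) : ℕ := sSup (E 𝓗 n)

/-- the least element of `E 𝓗 n` -/
noncomputable def Mminus (𝓗 : GraphSet) (n : ℕ) : ℕ := sInf (E 𝓗 n)

/-- `gap 𝓗 n = M⁺ - M⁻` -/
noncomputable def gap (𝓗 : GraphSet) (n : ℕ) : ℕ := Mplus 𝓗 n - Mminus 𝓗 n

/-- `limp 𝓗`: the lower limit of `gap 𝓗 n / n`. The class of `𝓗`-free graphs is linearly impure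
when it is positive. -/
noncomputable def limp (𝓗 : GraphSet) : ℝ :=
  Filter.liminf (fun n : ℕ => (gap 𝓗 n : ℝ) / n) Filter.atTop

/-- the path on four vertices -/
def P4 : SimpleGraph (Fin 4) := SimpleGraph.fromRel (fun a b => a.val + 1 = b.val)

/-- the claw: vertex `0` joined to the three others -/
def K13 : SimpleGraph (Fin 4) := SimpleGraph.fromRel (fun a _ => a = 0)

/-- the pair `{P₄, K₁,₃}` -/
def pair : GraphSet := {⟨4, P4⟩, ⟨4, K13⟩}

end Pool.Agent.Q275.Gap
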