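import Pool.Agent.Q275.GapDefs

set_option autoImplicit false

namespace Pool.Agent.Q275.Gap

open Pool.Agent.Q275

variable {V : Type} {G : SimpleGraph V}

lemma P4_adj {a b : Fin 4} : P4.Adj a b ↔ a ≠ b ∧ (a.val + 1 = b.val ∨ b.val + 1 = a.val) := by
  unfold P4; rw [SimpleGraph.fromRel_adj]

lemma K13_adj {a b : Fin 4} : K13.Adj a b ↔ a ≠ b ∧ (a = 0 ∨ b = 0) := by
  unfold K13; rw [SimpleGraph.fromRel_adj]

lemma suitable_pair : Suitable pair := by
  refine ⟨⟨⟨4, P4⟩, Or.inl rfl⟩, ?_⟩
  rintro H (rfl | rfl)
  · exact ⟨0, 1, by rw [P4_adj]; decide⟩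
  · exact ⟨0, 1, by rw [K13_adj]; decide⟩

/-- path subgraph gives a minor -/
lemma minor_P4 {a b c d : V} (hab : G.Adj a b) (hbc : G.Adj b c) (hcd : G.Adj c d)
    (hac : a ≠ c) (had : a ≠ d) (hbd : b ≠ d) : IsMinor P4 G := by
  refine IsMinor.of_hom ![a, b, c, d] ?_ ?_
  · intro i j hij
    have h1 := hab.ne; have h2 := hbc.ne; have h3 := hcd.ne
    fin_cases i <;> fin_cases j <;> simp_all
  · intro i j hij
    rw [P4_adj] at hij
    have h1 := hab.symm; have h2 := hbc.symm; have h3 := hcd.symm
    fin_cases i <;> fin_cases j <;> simp_all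

lemma minor_K13 {a b c d : V} (hab : G.Adj a b) (hac : G.Adj a c) (had : G.Adj a d)
    (hbc : b ≠ c) (hbd : b ≠ d) (hcd : c ≠ d) : IsMinor K13 G := by
  refine IsMinor.of_hom ![a, b, c, d] ?_ ?_
  · intro i j hij
    have h1 := hab.ne; have h2 := hac.ne; have h3 := had.ne
    fin_cases i <;> fin_cases j <;> simp_all
  · intro i j hij
    rw [K13_adj] at hij
    have h1 := hab.symm; have h2 := hac.symm; have h3 := had.symm
    fin_cases i <;> fin_cases j <;> simp_all

/-- being free of both means: connected sets have at most three vertices -/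
lemma free_iff : Free pair G ↔ ∀ S : Finset V, (G.induce (S : Set V)).Connected → S.card ≤ 3 := by
  classical
  constructor
  · intro hF S hS
    by_contra hcon
    push Not at hcon
    rw [connected_iff] at hS
    obtain ⟨⟨x, hx⟩, hcl⟩ := hS
    -- a set of at most three elements is not closed
    have step : ∀ A : Finset V, A ⊆ S → A.Nonempty → A.card ≤ 3 →
        ∃ y ∈ A, ∃ z ∈ S, G.Adj y z ∧ z ∉ A := by
      intro A hA hne hc
      by_contra hno
      push Not at hno
      have := hcl (A : Set V) (by exact_mod_cast hA) (by exact_mod_cast hne)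
        (fun y hy z hz hyz => hno y hy z hz hyz)
      have h2 : S ⊆ A := by exact_mod_cast this
      have := Finset.card_le_card h2
      omega
    obtain ⟨x', hx', y, hy, hxy, -⟩ := step {x} (by simpa using hx) (by simp) (by simp)
    rw [Finset.mem_singleton] at hx'
    subst hx'
    obtain ⟨c, hc, z, hz, hcz, hzn⟩ := step {x', y} (by
      intro w hw; rw [Finset.mem_insert, Finset.mem_singleton] at hw
      rcases hw with rfl | rfl
      · exact hx
      · exact hy) (by simp) (by
        have := Finset.card_insert_le x' ({y} : Finset V); simp at this ⊢; omega)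
    -- a path p - c - q
    obtain ⟨p, c, q, hpc, hcq, hpq, hpS, hcS, hqS⟩ : ∃ p c q, G.Adj p c ∧ G.Adj c q ∧ p ≠ q ∧
        p ∈ S ∧ c ∈ S ∧ q ∈ S := by
      rw [Finset.mem_insert, Finset.mem_singleton, not_or] at hzn
      rw [Finset.mem_insert, Finset.mem_singleton] at hc
      rcases hc with rfl | rfl
      · exact ⟨y, c, z, hxy.symm, hcz, Ne.symm hzn.2, hy, hx, hz⟩
      · exact ⟨x', c, z, hxy, hcz, Ne.symm hzn.1, hx, hy, hz⟩
    obtain ⟨u, hu, w, hw, huw, hwn⟩ := step {p, c, q} (by
      intro w hw
      simp only [Finset.mem_insert, Finset.mem_singleton] at hw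
      rcases hw with rfl | rfl | rfl <;> assumption) (by simp) (Finset.card_le_three)
    simp only [Finset.mem_insert, Finset.mem_singleton, not_or] at hwn hu
    obtain ⟨hw1, hw2, hw3⟩ := hwn
    rcases hu with rfl | rfl | rfl
    · exact hF ⟨4, P4⟩ (Or.inl rfl) (minor_P4 huw.symm hpc hcq hw2 hw3 hpq)
    · exact hF ⟨4, K13⟩ (Or.inr rfl) (minor_K13 hpc.symm hcq huw hpq (Ne.symm hw1) (Ne.symm hw3))
    · exact hF ⟨4, P4⟩ (Or.inl rfl) (minor_P4 hpc hcq huw hpq (Ne.symm hw1) (Ne.symm hw2))
  · intro h
    have key : ∀ H : SimpleGraph (Fin 4), (H.induce (Set.univ : Set (Fin 4))).Connected →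
        ¬ IsMinor H G := by
      rintro H hH ⟨B, hB, hBd, hBa⟩
      have hne : ∀ i, (B i).Nonempty := fun i => (connected_iff.1 (hB i)).1
      choose x hx using hne
      -- connected finite subset of the union containing the four points
      have hU := connected_biUnion hH (fun w _ => hB w) (fun w _ w' _ hw => hBa w w' hw)
      set U : Set V := ⋃ w ∈ (Set.univ : Set (Fin 4)), B w with hUdef
      have hxU : ∀ i, x i ∈ U := fun i => Set.mem_biUnion (Set.mem_univ i) (hx i)
      -- walks from x 0 to x i inside U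
      have hw : ∀ i, ∃ T : Finset V, x 0 ∈ T ∧ x i ∈ T ∧ (G.induce (T : Set V)).Connected := by
        intro i
        obtain ⟨w⟩ := hU.preconnected ⟨x 0, hxU 0⟩ ⟨x i, hxU i⟩
        have aux : ∀ {a b : U} (p : (G.induce U).Walk a b), ∃ T : Finset V, a.1 ∈ T ∧ b.1 ∈ T ∧
            (G.induce (T : Set V)).Connected := by
          intro a b p
          induction p with
          | @nil a => exact ⟨{a.1}, by simp, by simp, by
              rw [Finset.coe_singleton]; exact connected_singleton G a.1⟩
          | @cons a b c hab q ih =>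
            obtain ⟨T, hbT, hcT, hT⟩ := ih
            have hab' : G.Adj a.1 b.1 := by simpa using hab
            refine ⟨insert a.1 T, by simp, by simp [hcT], ?_⟩
            rw [connected_iff] at hT ⊢
            refine ⟨⟨a.1, by simp⟩, ?_⟩
            intro A hA hAne hAcl
            have haA : a.1 ∈ A ↔ b.1 ∈ A := by
              constructor
              · intro h; exact hAcl _ h _ (by simp [hbT]) hab'
              · intro h; exact hAcl _ h _ (by simp) hab'.symm
            have hbA : b.1 ∈ A := by
              obtain ⟨z, hz⟩ := hAne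
              by_cases hza : z = a.1
              · exact haA.1 (hza ▸ hz)
              · have hzT : z ∈ (T : Set V) := by
                  have := hA hz
                  simp only [Finset.coe_insert, Set.mem_insert_iff] at this
                  exact this.resolve_left hza
                exact (hT.2 (A ∩ T) Set.inter_subset_right ⟨z, hz, hzT⟩ (by
                  rintro y ⟨hyA, hyT⟩ y' hy' hyy
                  exact ⟨hAcl y hyA y' (by simp; exact Or.inr hy') hyy, hy'⟩) hbT).1
            have hTA : (T : Set V) ⊆ A := fun y hy => (hT.2 (A ∩ T) Set.inter_subset_right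
              ⟨b.1, hbA, hbT⟩ (by
                rintro y ⟨hyA, hyT⟩ y' hy' hyy
                exact ⟨hAcl y hyA y' (by simp; exact Or.inr hy') hyy, hy'⟩) hy).1
            intro y hy
            simp only [Finset.coe_insert, Set.mem_insert_iff] at hy
            rcases hy with rfl | hy
            · exact haA.2 hbA
            · exact hTA hy
        obtain ⟨T, h1, h2, h3⟩ := aux w
        exact ⟨T, h1, h2, h3⟩
      choose T hT0 hTi hTc using hw
      set S : Finset V := Finset.univ.biUnion T with hS
      have hSc : (G.induce (S : Set V)).Connected := by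
        rw [connected_iff]
        refine ⟨⟨x 0, by simp [hS]; exact ⟨0, hT0 0⟩⟩, ?_⟩
        intro A hA hAne hAcl
        have hin : ∀ i, (∃ z ∈ T i, z ∈ A) → (T i : Set V) ⊆ A := by
          rintro i ⟨z, hz, hzA⟩ y hy
          exact ((connected_iff.1 (hTc i)).2 (A ∩ T i) Set.inter_subset_right ⟨z, hzA, hz⟩ (by
            rintro a ⟨ha, haT⟩ b hb hab
            refine ⟨hAcl a ha b ?_ hab, hb⟩
            simp only [hS, Finset.coe_biUnion, Set.mem_iUnion]
            exact ⟨i, by simp, hb⟩) hy).1
        obtain ⟨z, hz⟩ := hAne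
        have hzS := hA hz
        simp only [hS, Finset.coe_biUnion, Set.mem_iUnion] at hzS
        obtain ⟨i, -, hzi⟩ := hzS
        have h0 : x 0 ∈ A := hin i ⟨z, hzi, hz⟩ (hT0 i)
        intro y hy
        simp only [hS, Finset.coe_biUnion, Set.mem_iUnion] at hy
        obtain ⟨j, -, hyj⟩ := hy
        exact hin j ⟨x 0, hT0 j, h0⟩ hyj
      have hcard := h S hSc
      have hsub : Finset.univ.image x ⊆ S := by
        intro y hy
        obtain ⟨i, -, rfl⟩ := Finset.mem_image.1 hy
        rw [hS, Finset.mem_biUnion]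
        exact ⟨i, Finset.mem_univ _, hTi i⟩
      have hinj : Function.Injective x := by
        intro i j hij
        by_contra hne
        exact Set.disjoint_left.1 (hBd i j hne) (hx i) (hij ▸ hx j)
      have := Finset.card_le_card hsub
      rw [Finset.card_image_of_injective _ hinj, Finset.card_univ, Fintype.card_fin] at this
      omega
    rintro H (rfl | rfl)
    · refine key P4 ?_
      rw [connected_iff]
      refine ⟨⟨0, trivial⟩, ?_⟩
      intro A _ hne hcl i _
      have e01 : (0 : Fin 4) ∈ A ↔ (1 : Fin 4) ∈ A :=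
        ⟨fun h => hcl _ h _ trivial (by rw [P4_adj]; decide),
          fun h => hcl _ h _ trivial (by rw [P4_adj]; decide)⟩
      have e12 : (1 : Fin 4) ∈ A ↔ (2 : Fin 4) ∈ A :=
        ⟨fun h => hcl _ h _ trivial (by rw [P4_adj]; decide),
          fun h => hcl _ h _ trivial (by rw [P4_adj]; decide)⟩
      have e23 : (2 : Fin 4) ∈ A ↔ (3 : Fin 4) ∈ A :=
        ⟨fun h => hcl _ h _ trivial (by rw [P4_adj]; decide),
          fun h => hcl _ h _ trivial (by rw [P4_adj]; decide)⟩
      obtain ⟨z, hz⟩ := hne
      fin_cases z <;> fin_cases i <;> simp_all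
    · refine key K13 ?_
      rw [connected_iff]
      refine ⟨⟨0, trivial⟩, ?_⟩
      intro A _ hne hcl i _
      have e01 : (0 : Fin 4) ∈ A ↔ (1 : Fin 4) ∈ A :=
        ⟨fun h => hcl _ h _ trivial (by rw [K13_adj]; decide),
          fun h => hcl _ h _ trivial (by rw [K13_adj]; decide)⟩
      have e12 : (0 : Fin 4) ∈ A ↔ (2 : Fin 4) ∈ A :=
        ⟨fun h => hcl _ h _ trivial (by rw [K13_adj]; decide),
          fun h => hcl _ h _ trivial (by rw [K13_adj]; decide)⟩
      have e23 : (0 : Fin 4) ∈ A ↔ (3 : Fin 4) ∈ A :=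
        ⟨fun h => hcl _ h _ trivial (by rw [K13_adj]; decide),
          fun h => hcl _ h _ trivial (by rw [K13_adj]; decide)⟩
      obtain ⟨z, hz⟩ := hne
      fin_cases z <;> fin_cases i <;> simp_all

/-! ### the structure of edge-maximal graphs -/

lemma edge_adj {a b x y : V} (hab : a ≠ b) : (G ⊔ SimpleGraph.edge a b).Adj x y ↔
    G.Adj x y ∨ (x = a ∧ y = b) ∨ (x = b ∧ y = a) := by
  rw [SimpleGraph.sup_adj, SimpleGraph.edge_adj]
  constructor
  · rintro (h | ⟨h | h, -⟩)
    · exact Or.inl h
    · exact Or.inr (Or.inl h)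
    · exact Or.inr (Or.inr h)
  · rintro (h | ⟨rfl, rfl⟩ | ⟨rfl, rfl⟩)
    · exact Or.inl h
    · exact Or.inr ⟨Or.inl ⟨rfl, rfl⟩, hab⟩
    · exact Or.inr ⟨Or.inr ⟨rfl, rfl⟩, hab.symm⟩

/-- adjacency is transitive in an edge-maximal graph -/
lemma adj_trans (hG : EdgeMaximal pair G) {u v w : V} (huv : G.Adj u v) (hvw : G.Adj v w)
    (huw : u ≠ w) : G.Adj u w := by
  classical
  by_contra hn
  refine hG.2 u w huw hn ?_
  rw [free_iff]
  intro S hS
  have hfree := free_iff.1 hG.1
  rw [connected_iff] at hS
  obtain ⟨hSne, hScl⟩ := hS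
  by_cases hboth : u ∈ S ∧ w ∈ S
  · obtain ⟨huS, hwS⟩ := hboth
    have hc : (G.induce ((insert v S : Finset V) : Set V)).Connected := by
      rw [connected_iff]
      refine ⟨⟨v, by simp⟩, ?_⟩
      intro A hA hAne hAcl
      have hvS : v ∈ ((insert v S : Finset V) : Set V) := by simp
      have huS' : u ∈ ((insert v S : Finset V) : Set V) := by simp [huS]
      have hwS' : w ∈ ((insert v S : Finset V) : Set V) := by simp [hwS]
      have hvu : v ∈ A → u ∈ A := fun h => hAcl v h u huS' huv.symm
      have huv' : u ∈ A → v ∈ A := fun h => hAcl u h v hvS huv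
      have hvw' : v ∈ A → w ∈ A := fun h => hAcl v h w hwS' hvw
      have hwv' : w ∈ A → v ∈ A := fun h => hAcl w h v hvS hvw.symm
      have hSA : (A ∩ (S : Set V)).Nonempty → (S : Set V) ⊆ A := by
        intro hne y hy
        refine (hScl (A ∩ S) Set.inter_subset_right hne ?_ hy).1
        rintro a ⟨ha, haS⟩ b hb hab
        rw [edge_adj huw] at hab
        rcases hab with hab | ⟨rfl, rfl⟩ | ⟨rfl, rfl⟩
        · exact ⟨hAcl a ha b (by simp; exact Or.inr hb) hab, hb⟩
        · exact ⟨hvw' (huv' ha), hb⟩
        · exact ⟨hvu (hwv' ha), hb⟩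
      obtain ⟨z, hz⟩ := hAne
      have hzS : (A ∩ (S : Set V)).Nonempty := by
        by_cases hzv : z = v
        · exact ⟨u, hvu (hzv ▸ hz), huS⟩
        · have := hA hz
          simp only [Finset.coe_insert, Set.mem_insert_iff] at this
          exact ⟨z, hz, this.resolve_left hzv⟩
      have hall := hSA hzS
      intro y hy
      simp only [Finset.coe_insert, Set.mem_insert_iff] at hy
      rcases hy with rfl | hy
      · exact huv' (hall huS)
      · exact hall hy
    have := hfree _ hc
    have h2 := Finset.card_le_card (Finset.subset_insert v S)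
    omega
  · have hc : (G.induce (S : Set V)).Connected := by
      rw [connected_iff]
      refine ⟨hSne, ?_⟩
      intro A hA hAne hAcl
      refine hScl A hA hAne ?_
      intro a ha b hb hab
      rw [edge_adj huw] at hab
      rcases hab with hab | ⟨rfl, rfl⟩ | ⟨rfl, rfl⟩
      · exact hAcl a ha b hb hab
      · exact absurd ⟨hA ha, hb⟩ hboth
      · exact absurd ⟨hb, hA ha⟩ hboth
    exact hfree S hc

section Finite
variable [Fintype V] [DecidableEq V] [DecidableRel G.Adj]

/-- closed neighbourhood -/
def cl (G : SimpleGraph V) [DecidableRel G.Adj] (v : V) : Finset V :=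
  Finset.univ.filter (fun w => w = v ∨ G.Adj v w)

lemma mem_cl {v w : V} : w ∈ cl G v ↔ w = v ∨ G.Adj v w := by
  unfold cl; simp

lemma cl_card (v : V) : (cl G v).card = G.degree v + 1 := by
  have : cl G v = insert v (G.neighborFinset v) := by
    ext w; rw [mem_cl, Finset.mem_insert, SimpleGraph.mem_neighborFinset]
  rw [this, Finset.card_insert_of_notMem (by simp), SimpleGraph.card_neighborFinset_eq_degree]

lemma cl_eq (hG : EdgeMaximal pair G) {u v : V} (h : u ∈ cl G v) : cl G u = cl G v := by
  rw [mem_cl] at h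
  rcases h with rfl | h
  · rfl
  · ext w
    rw [mem_cl, mem_cl]
    constructor
    · rintro (rfl | h')
      · exact Or.inr h
      · by_cases hw : w = v
        · exact Or.inl hw
        · exact Or.inr (adj_trans hG h h' (Ne.symm hw))
    · rintro (rfl | h')
      · exact Or.inr h.symm
      · by_cases hw : w = u
        · exact Or.inl hw
        · exact Or.inr (adj_trans hG h.symm h' (Ne.symm hw))

/-- a connected set lies in a closed neighbourhood -/
lemma conn_subset_cl (hG : EdgeMaximal pair G) {S : Finset V}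
    (hS : (G.induce (S : Set V)).Connected) {v : V} (hv : v ∈ S) : S ⊆ cl G v := by
  rw [connected_iff] at hS
  have := hS.2 {w | w ∈ S ∧ w ∈ cl G v} (fun w hw => hw.1) ⟨v, hv, by rw [mem_cl]; exact Or.inl rfl⟩ (by
    rintro a ⟨haS, ha⟩ b hb hab
    refine ⟨hb, ?_⟩
    rw [← cl_eq hG ha, mem_cl]
    exact Or.inr hab)
  exact fun w hw => (this hw).2

lemma cl_conn (hG : EdgeMaximal pair G) (v : V) : (G.induce (cl G v : Set V)).Connected := by
  rw [connected_iff]
  refine ⟨⟨v, by simp [mem_cl]⟩, ?_⟩
  intro A hA hne hcl w hw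
  obtain ⟨a, ha⟩ := hne
  have haC : a ∈ cl G v := hA ha
  have hwC : w ∈ cl G a := by
    have h2 := cl_eq hG haC
    rw [h2]; exact hw
  rw [mem_cl] at hwC
  rcases hwC with rfl | h
  · exact ha
  · exact hcl a ha w hw h

lemma cl_card_le (hG : EdgeMaximal pair G) (v : V) : (cl G v).card ≤ 3 :=
  free_iff.1 hG.1 _ (cl_conn hG v)

lemma four_le (hG : EdgeMaximal pair G) {u v : V} (huv : u ≠ v) (hn : ¬ G.Adj u v) :
    4 ≤ (cl G u).card + (cl G v).card := by
  by_contra hcon
  push Not at hcon
  refine hG.2 u v huv hn ?_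
  rw [free_iff]
  intro S hS
  rw [connected_iff] at hS
  obtain ⟨⟨x, hx⟩, hScl⟩ := hS
  by_cases hxuv : x ∈ cl G u ∪ cl G v
  · have hsub : S ⊆ cl G u ∪ cl G v := by
      have := hScl {w | w ∈ S ∧ w ∈ cl G u ∪ cl G v} (fun w hw => hw.1) ⟨x, hx, hxuv⟩ (by
        rintro a ⟨haS, ha⟩ b hb hab
        refine ⟨hb, ?_⟩
        rw [edge_adj huv] at hab
        rw [Finset.mem_union] at ha ⊢
        rcases hab with hab | ⟨rfl, rfl⟩ | ⟨rfl, rfl⟩
        · rcases ha with ha | ha
          · left; rw [← cl_eq hG ha, mem_cl]; exact Or.inr hab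
          · right; rw [← cl_eq hG ha, mem_cl]; exact Or.inr hab
        · right; rw [mem_cl]; exact Or.inl rfl
        · left; rw [mem_cl]; exact Or.inl rfl)
      exact fun w hw => (this hw).2
    have h1 := Finset.card_le_card hsub
    have h2 := Finset.card_union_le (cl G u) (cl G v)
    omega
  · have hsub : S ⊆ cl G x := by
      have := hScl {w | w ∈ S ∧ w ∈ cl G x} (fun w hw => hw.1)
        ⟨x, hx, by rw [mem_cl]; exact Or.inl rfl⟩ (by
        rintro a ⟨haS, ha⟩ b hb hab
        refine ⟨hb, ?_⟩
        rw [edge_adj huv] at hab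
        rw [Finset.mem_union, not_or] at hxuv
        rcases hab with hab | ⟨rfl, rfl⟩ | ⟨rfl, rfl⟩
        · rw [← cl_eq hG ha, mem_cl]; exact Or.inr hab
        · exfalso; apply hxuv.1; rw [cl_eq hG ha, mem_cl]; exact Or.inl rfl
        · exfalso; apply hxuv.2; rw [cl_eq hG ha, mem_cl]; exact Or.inl rfl)
      exact fun w hw => (this hw).2
    exact (Finset.card_le_card hsub).trans (cl_card_le hG x)

/-- `k` divides the number of vertices whose class has `k` elements -/
lemma dvd_card (hG : EdgeMaximal pair G) (k : ℕ) :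
    k ∣ (Finset.univ.filter (fun v => (cl G v).card = k)).card := by
  set A := Finset.univ.filter (fun v => (cl G v).card = k) with hA
  rw [Finset.card_eq_sum_card_fiberwise (f := cl G) (t := A.image (cl G))
    (fun x hx => Finset.mem_image_of_mem _ hx)]
  apply Finset.dvd_sum
  intro c hc
  obtain ⟨v, hv, rfl⟩ := Finset.mem_image.1 hc
  have : A.filter (fun a => cl G a = cl G v) = cl G v := by
    ext w
    rw [Finset.mem_filter, hA, Finset.mem_filter]
    rw [hA, Finset.mem_filter] at hv
    constructor
    · rintro ⟨-, h⟩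
      rw [← h, mem_cl]; exact Or.inl rfl
    · intro h
      have h2 := cl_eq hG h
      exact ⟨⟨Finset.mem_univ _, by rw [h2]; exact hv.2⟩, h2⟩
  rw [this]
  rw [hA, Finset.mem_filter] at hv
  rw [hv.2]

/-- the number of edges of an edge-maximal graph -/
lemma edges_cases (hG : EdgeMaximal pair G) :
    G.edgeFinset.card + 1 = Fintype.card V ∨
    ∃ a, 2 * a ≤ Fintype.card V ∧ 3 ∣ Fintype.card V - 2 * a ∧
      G.edgeFinset.card + a = Fintype.card V := by
  set n1 := (Finset.univ.filter (fun v => (cl G v).card = 1)).card with hn1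
  set n2 := (Finset.univ.filter (fun v => (cl G v).card = 2)).card with hn2
  set n3 := (Finset.univ.filter (fun v => (cl G v).card = 3)).card with hn3
  have hd2 : 2 ∣ n2 := dvd_card hG 2
  have hd3 : 3 ∣ n3 := dvd_card hG 3
  have hcases : ∀ v, (cl G v).card = 1 ∨ (cl G v).card = 2 ∨ (cl G v).card = 3 := by
    intro v
    have h1 := cl_card_le hG v
    have h2 := cl_card (G := G) v
    omega
  have hsumn : Fintype.card V = n1 + n2 + n3 := by
    have : ∀ v : V, 1 = (if (cl G v).card = 1 then 1 else 0) + (if (cl G v).card = 2 then 1 else 0)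
        + (if (cl G v).card = 3 then 1 else 0) := by
      intro v
      rcases hcases v with h | h | h <;> simp [h]
    calc Fintype.card V = ∑ v : V, 1 := by simp
      _ = ∑ v : V, ((if (cl G v).card = 1 then 1 else 0) + (if (cl G v).card = 2 then 1 else 0)
        + (if (cl G v).card = 3 then 1 else 0)) := Finset.sum_congr rfl fun v _ => this v
      _ = n1 + n2 + n3 := by
        rw [Finset.sum_add_distrib, Finset.sum_add_distrib, ← Finset.card_filter,
          ← Finset.card_filter, ← Finset.card_filter]
  have hsumd : 2 * G.edgeFinset.card = n2 + 2 * n3 := by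
    rw [← G.sum_degrees_eq_twice_card_edges]
    have : ∀ v : V, G.degree v = (if (cl G v).card = 2 then 1 else 0)
        + 2 * (if (cl G v).card = 3 then 1 else 0) := by
      intro v
      have h2 := cl_card (G := G) v
      rcases hcases v with h | h | h <;> simp [h] <;> omega
    calc ∑ v, G.degree v = ∑ v : V, ((if (cl G v).card = 2 then 1 else 0)
        + 2 * (if (cl G v).card = 3 then 1 else 0)) := Finset.sum_congr rfl fun v _ => this v
      _ = n2 + 2 * n3 := by
        rw [Finset.sum_add_distrib, ← Finset.mul_sum, ← Finset.card_filter, ← Finset.card_filter]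
  rcases Nat.eq_zero_or_pos n1 with h0 | hpos
  · right
    obtain ⟨a, ha⟩ := hd2
    refine ⟨a, ?_, ?_, ?_⟩
    · omega
    · have : Fintype.card V - 2 * a = n3 := by omega
      rw [this]; exact hd3
    · omega
  · left
    obtain ⟨u, hu⟩ := Finset.card_pos.1 hpos
    rw [Finset.mem_filter] at hu
    have hall : ∀ v, v ≠ u → (cl G v).card = 3 := by
      intro v hv
      have hna : ¬ G.Adj u v := by
        intro h
        have h2 := cl_card (G := G) u
        have h3 : 0 < G.degree u := by
          rw [G.degree_pos_iff_exists_adj]; exact ⟨v, h⟩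
        omega
      have h4 := four_le hG (Ne.symm hv) hna
      have h5 := cl_card_le hG v
      omega
    have e1 : n1 = 1 := by
      rw [hn1, Finset.card_eq_one]
      refine ⟨u, ?_⟩
      ext v
      rw [Finset.mem_filter, Finset.mem_singleton]
      constructor
      · rintro ⟨-, h⟩
        by_contra hne
        have := hall v hne
        omega
      · rintro rfl
        exact hu
    have e2 : n2 = 0 := by
      rw [hn2, Finset.card_eq_zero, Finset.filter_eq_empty_iff]
      intro v _ h
      by_cases hvu : v = u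
      · rw [hvu] at h; omega
      · have := hall v hvu; omega
    omega

end Finite

end Pool.Agent.Q275.Gap
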