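import Pool.Agent.Q275.Base

/-!
# Vertex identification and edge contraction distances to a minor-closed class
-/

set_option autoImplicit false

namespace Pool.Agent.Q275.Ident

open Pool.Agent.Q275

/-- The image of a graph under a map of vertex sets, loops and multiple edges removed: `x` and `y`
are adjacent iff they are distinct and some edge of `G` joins a vertex mapped to `x` to a vertex
mapped to `y`. -/
def push {V W : Type} (π : V → W) (G : SimpleGraph V) : SimpleGraph W where
  Adj x y := x ≠ y ∧ ∃ a b, π a = x ∧ π b = y ∧ G.Adj a b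
  symm := ⟨fun _ _ h => ⟨h.1.symm, by
    obtain ⟨a, b, ha, hb, hab⟩ := h.2
    exact ⟨b, a, hb, ha, hab.symm⟩⟩⟩
  loopless := ⟨fun _ h => h.1 rfl⟩

/-- `G'` arises from `G` by a `k`-identification: for a set `X` of at most `k` vertices and a
partition of `X`, every part is identified to one vertex (`π` is the quotient map; outside `X` it
is injective and nothing outside `X` is identified with anything). -/
def IsIdent {V W : Type} (k : ℕ) (G : SimpleGraph V) (G' : SimpleGraph W) : Prop :=
  ∃ (X : Finset V) (π : V → W), X.card ≤ k ∧ Function.Surjective π ∧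
    (∀ a b, π a = π b → a = b ∨ (a ∈ X ∧ b ∈ X)) ∧ G' = push π G

/-- `G'` arises from `G` by contracting one edge `uv`. -/
def IsContr1 {V W : Type} (G : SimpleGraph V) (G' : SimpleGraph W) : Prop :=
  ∃ (u v : V) (π : V → W), G.Adj u v ∧ Function.Surjective π ∧
    (∀ a b, π a = π b ↔ a = b ∨ (a = u ∧ b = v) ∨ (a = v ∧ b = u)) ∧ G' = push π G

/-- `Contr k G G'`: `k` successive edge contractions turn `G` into `G'`. -/
inductive Contr : ℕ → ∀ {V W : Type}, SimpleGraph V → SimpleGraph W → Prop
  | refl {V : Type} (G : SimpleGraph V) : Contr 0 G G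
  | step {k : ℕ} {V W X : Type} {G : SimpleGraph V} {H : SimpleGraph W} {K : SimpleGraph X} :
      IsContr1 G H → Contr k H K → Contr (k + 1) G K

/-- A graph class: a predicate on graphs. -/
abbrev GraphClass := ∀ V : Type, SimpleGraph V → Prop

/-- minor-closed classes of finite graphs (closure under isomorphism is included) -/
def MinorClosed (H : GraphClass) : Prop :=
  ∀ (V W : Type) [Finite V] [Finite W] (G : SimpleGraph V) (K : SimpleGraph W),
    IsMinor K G → H V G → H W K

/-- `G` admits a `k`-identification to `H`. -/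
def IdLe (H : GraphClass) {V : Type} (G : SimpleGraph V) (k : ℕ) : Prop :=
  ∃ (W : Type) (_ : Finite W) (G' : SimpleGraph W), IsIdent k G G' ∧ H W G'

/-- `k` successive edge contractions turn `G` into a member of `H`. -/
def EcLe (H : GraphClass) {V : Type} (G : SimpleGraph V) (k : ℕ) : Prop :=
  ∃ (W : Type) (_ : Finite W) (G' : SimpleGraph W), Contr k G G' ∧ H W G'

/-- `id_H(G)` -/
noncomputable def idn (H : GraphClass) {V : Type} (G : SimpleGraph V) : ℕ :=
  sInf {k | IdLe H G k}

/-- `ec_H(G)` (meaningful when `∃ k, EcLe H G k`) -/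
noncomputable def ec (H : GraphClass) {V : Type} (G : SimpleGraph V) : ℕ :=
  sInf {k | EcLe H G k}

/-- The statement asked for in the problem. -/
def Question : Prop :=
  ∀ H : GraphClass, MinorClosed H → ∃ f : ℕ → ℕ, ∀ (V : Type) [Finite V] (G : SimpleGraph V),
    (∃ k, EcLe H G k) → ec H G ≤ f (idn H G)

end Pool.Agent.Q275.Ident
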