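import Pool.Agent.Q275.IdentDefs

set_option autoImplicit false

namespace Pool.Agent.Q275.Ident

open Pool.Agent.Q275

/-! ### The class of graphs with at most one vertex of degree at least three -/

/-- at most one vertex of degree at least three -/
def OneHub : GraphClass := fun _ G =>
  ∀ x y, 3 ≤ (G.neighborSet x).ncard → 3 ≤ (G.neighborSet y).ncard → x = y

/-- the outside neighbours of a set -/
def bd {V : Type} (G : SimpleGraph V) (B : Set V) : Set V := {v | v ∉ B ∧ ∃ b ∈ B, G.Adj b v}

lemma bd_card_le {V : Type} [Finite V] {G : SimpleGraph V} {B : Set V}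
    (hB : (G.induce B).Connected) (hdeg : ∀ b ∈ B, (G.neighborSet b).ncard ≤ 2) :
    (bd G B).ncard ≤ 2 := by
  classical
  rw [connected_iff] at hB
  obtain ⟨⟨b0, hb0⟩, hB⟩ := hB
  -- a maximal subset with small boundary
  obtain ⟨M, ⟨hMB, hMne, hM2⟩, hmax⟩ : ∃ M : Set V, (M ⊆ B ∧ M.Nonempty ∧ (bd G M).ncard ≤ 2) ∧
      ∀ M' : Set V, M' ⊆ B ∧ M'.Nonempty ∧ (bd G M').ncard ≤ 2 → M ⊆ M' → M' = M := by
    obtain ⟨M, hM, hmax⟩ := (Set.toFinite {M : Set V | M ⊆ B ∧ M.Nonempty ∧
      (bd G M).ncard ≤ 2}).exists_maximal ⟨{b0}, by simpa using hb0, ⟨b0, rfl⟩, by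
        refine le_trans (Set.ncard_le_ncard ?_ (Set.toFinite _)) (hdeg b0 hb0)
        rintro v ⟨-, b, hb, hbv⟩
        rw [Set.mem_singleton_iff] at hb
        subst hb
        exact hbv⟩
    exact ⟨M, hM, fun M' hM' hle => Set.Subset.antisymm (hmax hM' hle) hle⟩
  by_cases hall : B ⊆ M
  · rw [Set.Subset.antisymm hall hMB]; exact hM2
  · exfalso
    obtain ⟨x, hx, y, hy, hxy, hyM⟩ : ∃ x ∈ M, ∃ y ∈ B, G.Adj x y ∧ y ∉ M := by
      by_contra hcon
      push Not at hcon
      exact hall (hB M hMB hMne (fun x hx y hy hxy => hcon x hx y hy hxy))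
    have hyb : y ∈ bd G M := ⟨hyM, x, hx, hxy⟩
    have h1 : (bd G M \ {y}).ncard + 1 = (bd G M).ncard :=
      Set.ncard_sdiff_singleton_add_one hyb (Set.toFinite _)
    have hxn : x ∈ G.neighborSet y := hxy.symm
    have h2 : (G.neighborSet y \ {x}).ncard + 1 = (G.neighborSet y).ncard :=
      Set.ncard_sdiff_singleton_add_one hxn (Set.toFinite _)
    have h3 := hdeg y hy
    have hsub : bd G (insert y M) ⊆ (bd G M \ {y}) ∪ (G.neighborSet y \ {x}) := by
      rintro v ⟨hv, b, hb, hbv⟩
      have hvy : v ≠ y := fun e => hv (Or.inl e)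
      have hvM : v ∉ M := fun e => hv (Or.inr e)
      rcases hb with rfl | hb
      · right
        exact ⟨hbv, fun e => hvM (by rw [Set.mem_singleton_iff] at e; rw [e]; exact hx)⟩
      · left
        exact ⟨⟨hvM, b, hb, hbv⟩, hvy⟩
    have h4 : (bd G (insert y M)).ncard ≤ 2 := by
      refine le_trans (Set.ncard_le_ncard hsub (Set.toFinite _)) ?_
      refine le_trans (Set.ncard_union_le _ _) ?_
      omega
    have h5 := hmax (insert y M) ⟨by
      rintro z (rfl | hz)
      · exact hy
      · exact hMB hz, ⟨y, Or.inl rfl⟩, h4⟩ (Set.subset_insert _ _)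
    exact hyM (h5 ▸ Or.inl rfl)

theorem oneHub_minorClosed : MinorClosed OneHub := by
  intro V W _ _ G K hK hG x y hx hy
  obtain ⟨B, hB, hd, ha⟩ := hK
  have key : ∀ x, 3 ≤ (K.neighborSet x).ncard → ∃ b ∈ B x, 3 ≤ (G.neighborSet b).ncard := by
    intro x hx
    by_contra hcon
    push Not at hcon
    have h2 := bd_card_le (hB x) (fun b hb => by have := hcon b hb; omega)
    have hch : ∀ z : K.neighborSet x, ∃ v ∈ bd G (B x), v ∈ B z := by
      rintro ⟨z, hz⟩
      obtain ⟨a, haB, b, hbB, hab⟩ := ha x z hz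
      refine ⟨b, ⟨?_, a, haB, hab⟩, hbB⟩
      intro hb
      exact Set.disjoint_left.1 (hd x z hz.ne) hb hbB
    choose g hg1 hg2 using hch
    have hinj : Function.Injective (fun z => (⟨g z, hg1 z⟩ : bd G (B x))) := by
      intro z z' hzz
      have e : g z = g z' := congrArg Subtype.val hzz
      by_contra hne
      have : (z : W) ≠ z' := fun h => hne (Subtype.ext h)
      exact Set.disjoint_left.1 (hd _ _ this) (hg2 z) (e ▸ hg2 z')
    have := Nat.card_le_card_of_injective _ hinj
    rw [Nat.card_coe_set_eq, Nat.card_coe_set_eq] at this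
    omega
  obtain ⟨b, hb, hb3⟩ := key x hx
  obtain ⟨c, hc, hc3⟩ := key y hy
  have hbc := hG b c hb3 hc3
  subst hbc
  by_contra hne
  exact Set.disjoint_left.1 (hd x y hne) hb hc

/-! ### Quotient maps with connected fibres -/

/-- `π` is a contraction map -/
structure Quot' {V W : Type} (π : V → W) (G : SimpleGraph V) (G' : SimpleGraph W) : Prop where
  surj : Function.Surjective π
  fib : ∀ w, (G.induce (π ⁻¹' {w})).Connected
  eq : G' = push π G

lemma Quot'.refl {V : Type} (G : SimpleGraph V) : Quot' id G G := by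
  refine ⟨Function.surjective_id, fun w => ?_, ?_⟩
  · exact connected_singleton G w
  · ext x y
    constructor
    · intro h
      exact ⟨h.ne, x, y, rfl, rfl, h⟩
    · rintro ⟨-, a, b, rfl, rfl, h⟩
      exact h

lemma Quot'.of_contr1 {V W : Type} {G : SimpleGraph V} {G' : SimpleGraph W}
    {u v : V} {π : V → W} (huv : G.Adj u v) (hs : Function.Surjective π)
    (hπ : ∀ a b, π a = π b ↔ a = b ∨ (a = u ∧ b = v) ∨ (a = v ∧ b = u)) (he : G' = push π G) :
    Quot' π G G' := by
  refine ⟨hs, fun w => ?_, he⟩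
  obtain ⟨a, rfl⟩ := hs w
  rw [connected_iff]
  refine ⟨⟨a, rfl⟩, ?_⟩
  rintro A hA ⟨x, hx⟩ hcl y hy
  have hxa : π x = π a := hA hx
  have hya : π y = π a := hy
  rcases (hπ x y).1 (hxa.trans hya.symm) with rfl | ⟨rfl, rfl⟩ | ⟨rfl, rfl⟩
  · exact hx
  · exact hcl _ hx _ hy huv
  · exact hcl _ hx _ hy huv.symm

lemma Quot'.comp {V W X : Type} {π : V → W} {ρ : W → X} {G : SimpleGraph V} {H : SimpleGraph W}
    {K : SimpleGraph X} (h1 : Quot' π G H) (h2 : Quot' ρ H K) : Quot' (ρ ∘ π) G K := by
  refine ⟨h2.surj.comp h1.surj, fun x => ?_, ?_⟩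
  · have := connected_biUnion (G := G) (B := fun w => π ⁻¹' {w}) (h2.fib x)
      (fun w _ => h1.fib w) (by
        intro w _ w' _ hww
        rw [h1.eq] at hww
        obtain ⟨-, a, b, ha, hb, hab⟩ := hww
        exact ⟨a, ha, b, hb, hab⟩)
    have e : (ρ ∘ π) ⁻¹' {x} = ⋃ w ∈ ρ ⁻¹' {x}, π ⁻¹' {w} := by
      ext v
      simp
    rw [e]
    exact this
  · rw [h2.eq, h1.eq]
    ext x y
    constructor
    · rintro ⟨hxy, a, b, rfl, rfl, -, c, d, rfl, rfl, hcd⟩
      exact ⟨hxy, c, d, rfl, rfl, hcd⟩
    · rintro ⟨hxy, c, d, rfl, rfl, hcd⟩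
      exact ⟨hxy, π c, π d, rfl, rfl, fun e => hxy (congrArg ρ e), c, d, rfl, rfl, hcd⟩

theorem contr_quot {k : ℕ} {V W : Type} {G : SimpleGraph V} {G' : SimpleGraph W}
    (h : Contr k G G') : ∀ [Finite V], ∃ π : V → W, Quot' π G G' ∧ Nat.card V = Nat.card W + k := by
  induction h with
  | refl G => intro _; exact ⟨id, Quot'.refl G, rfl⟩
  | @step k V W X G H K h1 h2 ih =>
    intro _
    obtain ⟨u, v, π, huv, hs, hπ, he⟩ := h1
    have : Finite W := Finite.of_surjective π hs
    obtain ⟨ρ, hρ, hcard⟩ := ih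
    refine ⟨ρ ∘ π, (Quot'.of_contr1 huv hs hπ he).comp hρ, ?_⟩
    have hc : Nat.card V = Nat.card W + 1 := by
      classical
      have hb : Function.Bijective (fun x : ({v}ᶜ : Set V) => π x) := by
        constructor
        · intro x y hxy
          rcases (hπ x y).1 hxy with h | ⟨-, h⟩ | ⟨h, -⟩
          · exact Subtype.ext h
          · exact absurd h y.2
          · exact absurd h x.2
        · intro w
          obtain ⟨a, rfl⟩ := hs w
          by_cases hav : a = v
          · refine ⟨⟨u, fun e => huv.ne e⟩, ?_⟩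
            exact (hπ u a).2 (Or.inr (Or.inl ⟨rfl, hav⟩))
          · exact ⟨⟨a, hav⟩, rfl⟩
      have h1 := Nat.card_eq_of_bijective _ hb
      have h2 : ({v} : Set V).ncard + ({v}ᶜ : Set V).ncard = Nat.card V := Set.ncard_add_ncard_compl _
      rw [Set.ncard_singleton, ← Nat.card_coe_set_eq, h1] at h2
      omega
    omega

/-! ### Contracting a connected graph to a point -/

/-- contracting an edge -/
theorem exists_contr1 {V : Type} [Finite V] {G : SimpleGraph V} (hG : G.Connected)
    (h2 : 2 ≤ Nat.card V) : ∃ (W : Type) (_ : Finite W) (G' : SimpleGraph W), IsContr1 G G' ∧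
      G'.Connected ∧ Nat.card V = Nat.card W + 1 := by
  classical
  obtain ⟨u, v, huv⟩ : ∃ u v, G.Adj u v := by
    have : Nontrivial V := Finite.one_lt_card_iff_nontrivial.1 h2
    obtain ⟨x⟩ := hG.nonempty
    obtain ⟨y, hy⟩ := hG.preconnected.exists_adj_of_nontrivial x
    exact ⟨x, y, hy⟩
  let π : V → {x // x ≠ v} := fun x => if h : x = v then ⟨u, huv.ne⟩ else ⟨x, h⟩
  have hs : Function.Surjective π := by
    rintro ⟨x, hx⟩
    exact ⟨x, by simp [π, hx]⟩
  have hπ : ∀ a b, π a = π b ↔ a = b ∨ (a = u ∧ b = v) ∨ (a = v ∧ b = u) := by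
    intro a b
    by_cases ha : a = v
    · by_cases hb : b = v
      · subst ha; subst hb; simp
      · subst ha
        simp only [π, dif_pos, dif_neg hb, Subtype.mk.injEq]
        constructor
        · intro e; exact Or.inr (Or.inr ⟨trivial, e.symm⟩)
        · rintro (e | ⟨-, e⟩ | ⟨-, e⟩)
          · exact absurd e.symm hb
          · exact absurd e hb
          · exact e.symm
    · by_cases hb : b = v
      · subst hb
        simp only [π, dif_pos, dif_neg ha, Subtype.mk.injEq]
        constructor
        · intro e; exact Or.inr (Or.inl ⟨e, trivial⟩)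
        · rintro (e | ⟨e, -⟩ | ⟨e, -⟩)
          · exact absurd e ha
          · exact e
          · exact absurd e ha
      · simp only [π, dif_neg ha, dif_neg hb, Subtype.mk.injEq]
        constructor
        · exact Or.inl
        · rintro (e | ⟨-, e⟩ | ⟨e, -⟩)
          · exact e
          · exact absurd e hb
          · exact absurd e ha
  refine ⟨{x // x ≠ v}, inferInstance, push π G, ⟨u, v, π, huv, hs, hπ, rfl⟩, ?_, ?_⟩
  · have : Nonempty {x // x ≠ v} := ⟨⟨u, huv.ne⟩⟩
    refine ⟨fun x y => ?_⟩
    obtain ⟨a, rfl⟩ := hs x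
    obtain ⟨b, rfl⟩ := hs y
    obtain ⟨p⟩ := hG.preconnected a b
    induction p with
    | nil => exact SimpleGraph.Reachable.refl _
    | @cons a c b hac _ ih =>
      refine SimpleGraph.Reachable.trans ?_ ih
      by_cases hne : π a = π c
      · rw [hne]
      · exact SimpleGraph.Adj.reachable (G := push π G) ⟨hne, a, c, rfl, rfl, hac⟩
  · have h2 : ({v} : Set V).ncard + ({v}ᶜ : Set V).ncard = Nat.card V := Set.ncard_add_ncard_compl _
    rw [Set.ncard_singleton, ← Nat.card_coe_set_eq] at h2
    have : Nat.card ({v}ᶜ : Set V) = Nat.card {x // x ≠ v} := rfl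
    omega

theorem ecLe_of_connected (n : ℕ) : ∀ {V : Type} [Finite V] {G : SimpleGraph V},
    G.Connected → Nat.card V = n + 1 → EcLe OneHub G n := by
  induction n with
  | zero =>
    intro V _ G hG hc
    refine ⟨V, inferInstance, G, Contr.refl G, ?_⟩
    intro x y _ _
    have : Subsingleton V := (Nat.card_eq_one_iff_unique.1 (by omega)).1
    exact Subsingleton.elim _ _
  | succ n ih =>
    intro V _ G hG hc
    obtain ⟨W, hW, G', h1, h2, h3⟩ := exists_contr1 hG (by omega)
    obtain ⟨X, hX, K, h4, h5⟩ := ih h2 (by omega)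
    exact ⟨X, hX, K, Contr.step h1 h4, h5⟩

/-! ### The double broom -/

/-- the path `inl 0, ..., inl n` with `n` leaves `inr (b, l)` at each end -/
def broom (n : ℕ) : SimpleGraph (Fin (n + 1) ⊕ (Bool × Fin n)) where
  Adj x y := match x, y with
    | Sum.inl i, Sum.inl j => (i : ℕ) + 1 = j ∨ (j : ℕ) + 1 = i
    | Sum.inl i, Sum.inr (b, _) => i = if b then Fin.last n else 0
    | Sum.inr (b, _), Sum.inl i => i = if b then Fin.last n else 0
    | Sum.inr _, Sum.inr _ => False
  symm := ⟨by
    rintro (i | ⟨b, l⟩) (j | ⟨c, m⟩) h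
    · exact h.symm
    · exact h
    · exact h
    · exact h⟩
  loopless := ⟨by
    rintro (i | ⟨b, l⟩) h
    · rcases h with h | h <;> omega
    · exact h⟩

/-- the two hubs -/
def hub (n : ℕ) (b : Bool) : Fin (n + 1) ⊕ (Bool × Fin n) :=
  Sum.inl (if b then Fin.last n else 0)

lemma broom_conn (n : ℕ) : (broom n).Connected := by
  have h0 : ∀ i : ℕ, ∀ hi : i < n + 1, (broom n).Reachable (Sum.inl 0) (Sum.inl ⟨i, hi⟩) := by
    intro i
    induction i with
    | zero => intro _; exact SimpleGraph.Reachable.refl _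
    | succ i ih =>
      intro hi
      refine (ih (by omega)).trans (SimpleGraph.Adj.reachable ?_)
      exact Or.inl rfl
  have h1 : ∀ x, (broom n).Reachable (Sum.inl 0) x := by
    rintro (⟨i, hi⟩ | ⟨b, l⟩)
    · exact h0 i hi
    · refine (h0 ((if b then Fin.last n else 0 : Fin (n + 1)) : ℕ) (Fin.is_lt _)).trans
        (SimpleGraph.Adj.reachable ?_)
      exact rfl
  have : Nonempty (Fin (n + 1) ⊕ (Bool × Fin n)) := ⟨Sum.inl 0⟩
  exact ⟨fun a b => (h1 a).symm.trans (h1 b)⟩

/-- vertices other than the hubs have at most two neighbours -/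
lemma broom_deg {n : ℕ} {x : Fin (n + 1) ⊕ (Bool × Fin n)} (hx : ∀ b, x ≠ hub n b) :
    ((broom n).neighborSet x).ncard ≤ 2 := by
  rcases x with ⟨i, hi⟩ | ⟨b, l⟩
  · have hi0 : i ≠ 0 := by
      rintro rfl
      exact hx false rfl
    have hin : i ≠ n := by
      rintro rfl
      exact hx true rfl
    have : (broom n).neighborSet (Sum.inl ⟨i, hi⟩) ⊆
        {Sum.inl ⟨i - 1, by omega⟩, Sum.inl ⟨i + 1, by omega⟩} := by
      rintro (⟨j, hj⟩ | ⟨c, m⟩) h
      · rcases h with h | h
        · right
          have h' : i + 1 = j := h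
          subst h'
          rfl
        · left
          have h' : j + 1 = i := h
          have : j = i - 1 := by omega
          subst this
          rfl
      · exfalso
        have h' : (⟨i, hi⟩ : Fin (n + 1)) = if c then Fin.last n else 0 := h
        cases c
        · exact hi0 (congrArg Fin.val h')
        · exact hin (congrArg Fin.val h')
    refine le_trans (Set.ncard_le_ncard this (Set.toFinite _)) ?_
    refine le_trans (Set.ncard_insert_le _ _) ?_
    rw [Set.ncard_singleton]
  · have : (broom n).neighborSet (Sum.inr (b, l)) ⊆ {hub n b} := by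
      rintro (j | ⟨c, m⟩) h
      · have h' : j = if b then Fin.last n else 0 := h
        rw [h']; rfl
      · exact h.elim
    refine le_trans (Set.ncard_le_ncard this (Set.toFinite _)) ?_
    rw [Set.ncard_singleton]
    omega

/-- identifying the two hubs gives a graph with one hub -/
theorem broom_id (n : ℕ) (hn : 0 < n) : IdLe OneHub (broom n) 2 := by
  classical
  have hne : hub n true ≠ hub n false := by
    intro e
    have := congrArg Fin.val (Sum.inl.inj e)
    simp at this
    omega
  let π : (Fin (n + 1) ⊕ (Bool × Fin n)) → {x // x ≠ hub n true} :=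
    fun x => if h : x = hub n true then ⟨hub n false, hne.symm⟩ else ⟨x, h⟩
  have hs : Function.Surjective π := by
    rintro ⟨x, hx⟩
    exact ⟨x, by simp [π, hx]⟩
  refine ⟨{x // x ≠ hub n true}, inferInstance, push π (broom n),
    ⟨{hub n false, hub n true}, π, Finset.card_le_two, hs, ?_, rfl⟩, ?_⟩
  · intro a b hab
    by_cases ha : a = hub n true
    · by_cases hb : b = hub n true
      · exact Or.inl (ha.trans hb.symm)
      · simp only [π, dif_pos ha, dif_neg hb, Subtype.mk.injEq] at hab
        right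
        rw [ha, ← hab]
        simp
    · by_cases hb : b = hub n true
      · simp only [π, dif_neg ha, dif_pos hb, Subtype.mk.injEq] at hab
        right
        rw [hb, hab]
        simp
      · simp only [π, dif_neg ha, dif_neg hb, Subtype.mk.injEq] at hab
        exact Or.inl hab
  · -- one hub
    have key : ∀ x : {x // x ≠ hub n true}, 3 ≤ ((push π (broom n)).neighborSet x).ncard →
        (x : Fin (n + 1) ⊕ (Bool × Fin n)) = hub n false := by
      rintro ⟨x, hx⟩ h3
      by_contra hxf
      have hsub : (push π (broom n)).neighborSet ⟨x, hx⟩ ⊆ π '' ((broom n).neighborSet x) := by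
        rintro y ⟨-, a, b, ha, rfl, hab⟩
        refine ⟨b, ?_, rfl⟩
        have hax : a = x := by
          by_cases hat : a = hub n true
          · simp only [π, dif_pos hat, Subtype.mk.injEq] at ha
            exact absurd ha.symm hxf
          · simp only [π, dif_neg hat, Subtype.mk.injEq] at ha
            exact ha
        rw [← hax]
        exact hab
      have h1 := Set.ncard_le_ncard hsub (Set.toFinite _)
      have h2 := Set.ncard_image_le (f := π) (Set.toFinite ((broom n).neighborSet x))
      have h4 := broom_deg (x := x) (by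
        intro b
        cases b
        · exact hxf
        · exact hx)
      omega
    intro x y hx hy
    exact Subtype.ext ((key x hx).trans (key y hy).symm)

/-- the lower bound for contractions -/
theorem broom_ec (n k : ℕ) (h : EcLe OneHub (broom n) k) : n ≤ k + 2 := by
  classical
  by_contra hcon
  push Not at hcon
  obtain ⟨W, hW, G', hc, hG'⟩ := h
  obtain ⟨π, hπ, hcard⟩ := contr_quot hc
  -- fibres are small
  have hfib : ∀ w, (π ⁻¹' {w}).ncard ≤ k + 1 := by
    intro w
    have hinj : ∃ s : W → (Fin (n + 1) ⊕ (Bool × Fin n)), ∀ w, π (s w) = w :=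
      ⟨fun w => (hπ.surj w).choose, fun w => (hπ.surj w).choose_spec⟩
    obtain ⟨s, hs⟩ := hinj
    have hsub : Disjoint (π ⁻¹' {w}) (s '' {w}ᶜ) := by
      rw [Set.disjoint_left]
      rintro x hx ⟨w', hw', rfl⟩
      have hx' : π (s w') = w := hx
      rw [hs] at hx'
      exact hw' hx'
    have h1 := Set.ncard_union_eq hsub (Set.toFinite _) (Set.toFinite _)
    have h2 : (s '' {w}ᶜ).ncard = ({w}ᶜ : Set W).ncard := by
      apply Set.ncard_image_of_injective
      intro a b hab
      rw [← hs a, ← hs b, hab]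
    have h3 : ({w} : Set W).ncard + ({w}ᶜ : Set W).ncard = Nat.card W := Set.ncard_add_ncard_compl _
    rw [Set.ncard_singleton] at h3
    have h4 : (π ⁻¹' {w} ∪ s '' {w}ᶜ).ncard ≤ Nat.card (Fin (n + 1) ⊕ (Bool × Fin n)) :=
      Set.ncard_le_card _
    omega
  -- the hubs are not merged
  have hhub : π (hub n true) ≠ π (hub n false) := by
    intro e
    have hall : ∀ i : ℕ, ∀ hi : i < n + 1, π (Sum.inl ⟨i, hi⟩) = π (hub n false) := by
      by_contra hex
      push Not at hex
      obtain ⟨i, hi, hne⟩ := hex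
      have := (connected_iff.1 (hπ.fib (π (hub n false)))).2
        {x | π x = π (hub n false) ∧ ((∃ j : Fin (n + 1), (j : ℕ) < i ∧ x = Sum.inl j) ∨
          ∃ l, x = Sum.inr (false, l))}
        (fun x hx => hx.1) ⟨hub n false, rfl, Or.inl ⟨0, by
          rcases Nat.eq_zero_or_pos i with h0 | h0
          · subst h0; exact absurd rfl hne
          · simpa using h0, rfl⟩⟩ (by
          rintro x ⟨hx, hx'⟩ y hy hxy
          refine ⟨hy, ?_⟩
          rcases hx' with ⟨⟨j, hj⟩, hji, rfl⟩ | ⟨l, rfl⟩
          · rcases y with ⟨j', hj'⟩ | ⟨c, m⟩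
            · left
              refine ⟨⟨j', hj'⟩, ?_, rfl⟩
              have hji' : j < i := hji
              show j' < i
              rcases hxy with h | h
              · have h' : j + 1 = j' := h
                rcases Nat.lt_or_ge j' i with h1 | h1
                · exact h1
                · exfalso
                  have : j' = i := by omega
                  subst this
                  exact hne hy
              · have h' : j' + 1 = j := h
                omega
            · right
              have h' : (⟨j, hj⟩ : Fin (n + 1)) = if c then Fin.last n else 0 := hxy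
              cases c
              · exact ⟨m, rfl⟩
              · exfalso
                have h1 : j = n := congrArg Fin.val h'
                have hji' : j < i := hji
                omega
          · rcases y with ⟨j', hj'⟩ | ⟨c, m⟩
            · left
              have h' : (⟨j', hj'⟩ : Fin (n + 1)) = 0 := hxy
              refine ⟨⟨j', hj'⟩, ?_, rfl⟩
              have h1 : j' = 0 := congrArg Fin.val h'
              show j' < i
              rcases Nat.eq_zero_or_pos i with h0 | h0
              · subst h0; exact absurd rfl hne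
              · omega
            · exact hxy.elim)
      obtain ⟨-, ⟨j, hj, hj'⟩ | ⟨l, hl⟩⟩ := this (show hub n true ∈ _ from e)
      · have h1 := Sum.inl.inj hj'
        have h2 : n = j := congrArg Fin.val h1
        omega
      · exact absurd hl (by simp [hub])
    have hsub : Set.range (fun i : Fin (n + 1) => (Sum.inl i : Fin (n + 1) ⊕ (Bool × Fin n))) ⊆
        π ⁻¹' {π (hub n false)} := by
      rintro _ ⟨⟨i, hi⟩, rfl⟩
      exact hall i hi
    have h1 := Set.ncard_le_ncard hsub (Set.toFinite _)
    have h2 : (Set.range (fun i : Fin (n + 1) =>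
        (Sum.inl i : Fin (n + 1) ⊕ (Bool × Fin n)))).ncard = n + 1 := by
      rw [← Set.image_univ, Set.ncard_image_of_injective _ Sum.inl_injective, Set.ncard_univ]
      simp
    have h3 := hfib (π (hub n false))
    omega
  -- both hubs keep degree at least three
  have hdeg : ∀ b, 3 ≤ (G'.neighborSet (π (hub n b))).ncard := by
    intro b
    -- leaves outside the fibre
    set F := π ⁻¹' {π (hub n b)} with hF
    have hleaf : ∀ l : Fin n, (Sum.inr (b, l) : Fin (n + 1) ⊕ (Bool × Fin n)) ∉ F →
        ∀ x, π x = π (Sum.inr (b, l)) → x = Sum.inr (b, l) := by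
      intro l hl x hx
      have := (connected_iff.1 (hπ.fib (π (Sum.inr (b, l))))).2 {Sum.inr (b, l)}
        (by rintro y hy; rw [Set.mem_singleton_iff] at hy; rw [hy]; rfl) ⟨_, rfl⟩ (by
          rintro y hy z hz hyz
          rw [Set.mem_singleton_iff] at hy
          subst hy
          exfalso
          rcases z with j | ⟨c, m⟩
          · have h' : j = if b then Fin.last n else 0 := hyz
            subst h'
            apply hl
            exact (hz : π (hub n b) = _).symm
          · exact hyz)
      exact this hx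
    have hsub : (fun l : Fin n => π (Sum.inr (b, l))) ''
        {l | (Sum.inr (b, l) : Fin (n + 1) ⊕ (Bool × Fin n)) ∉ F} ⊆
        G'.neighborSet (π (hub n b)) := by
      rintro _ ⟨l, hl, rfl⟩
      show G'.Adj _ _
      rw [hπ.eq]
      refine ⟨fun e => hl e.symm, hub n b, Sum.inr (b, l), rfl, rfl, rfl⟩
    have h1 := Set.ncard_le_ncard hsub (Set.toFinite _)
    rw [Set.InjOn.ncard_image (by
      intro l hl m hm hlm
      have := hleaf m hm _ hlm
      simpa using this)] at h1
    have h2 : {l : Fin n | (Sum.inr (b, l) : Fin (n + 1) ⊕ (Bool × Fin n)) ∈ F}.ncard +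
        {l : Fin n | (Sum.inr (b, l) : Fin (n + 1) ⊕ (Bool × Fin n)) ∉ F}.ncard = n := by
      have := Set.ncard_add_ncard_compl
        {l : Fin n | (Sum.inr (b, l) : Fin (n + 1) ⊕ (Bool × Fin n)) ∈ F}
      rw [Nat.card_eq_fintype_card, Fintype.card_fin] at this
      exact this
    have h3 : {l : Fin n | (Sum.inr (b, l) : Fin (n + 1) ⊕ (Bool × Fin n)) ∈ F}.ncard + 1 ≤
        F.ncard := by
      have hss : insert (hub n b) ((fun l : Fin n =>
          (Sum.inr (b, l) : Fin (n + 1) ⊕ (Bool × Fin n))) ''
          {l : Fin n | (Sum.inr (b, l) : Fin (n + 1) ⊕ (Bool × Fin n)) ∈ F}) ⊆ F := by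
        rintro x (rfl | ⟨l, hl, rfl⟩)
        · exact rfl
        · exact hl
      have h5 := Set.ncard_le_ncard hss (Set.toFinite _)
      rw [Set.ncard_insert_of_notMem (by
        rintro ⟨l, -, hl⟩
        exact absurd hl (by simp [hub])) (Set.toFinite _),
        Set.ncard_image_of_injective _ (by
          intro l m hlm
          simpa using hlm)] at h5
      exact h5
    have h4 : F.ncard ≤ k + 1 := hfib (π (hub n b))
    omega
  exact hhub (hG' _ _ (hdeg true) (hdeg false))

/-- the examples -/
theorem exists_class : ∃ H : GraphClass, MinorClosed H ∧ ∀ n : ℕ,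
    ∃ (V : Type) (_ : Finite V) (G : SimpleGraph V), G.Connected ∧ IdLe H G 2 ∧
      (∃ k, EcLe H G k) ∧ ∀ k, EcLe H G k → n ≤ k := by
  refine ⟨OneHub, oneHub_minorClosed, fun n => ?_⟩
  have hfin : ∃ k, EcLe OneHub (broom (n + 2)) k := by
    obtain ⟨k, hk⟩ : ∃ k, Nat.card (Fin (n + 2 + 1) ⊕ (Bool × Fin (n + 2))) = k + 1 :=
      ⟨Nat.card (Fin (n + 2 + 1) ⊕ (Bool × Fin (n + 2))) - 1, by
        have : 0 < Nat.card (Fin (n + 2 + 1) ⊕ (Bool × Fin (n + 2))) := Nat.card_pos
        omega⟩
    exact ⟨k, ecLe_of_connected k (broom_conn (n + 2)) hk⟩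
  refine ⟨_, inferInstance, broom (n + 2), broom_conn _, broom_id (n + 2) (by omega), hfin, ?_⟩
  intro k hk
  have := broom_ec _ _ hk
  omega

theorem not_question : ¬ Question := by
  intro hQ
  obtain ⟨H, hH, hex⟩ := exists_class
  obtain ⟨f, hf⟩ := hQ H hH
  obtain ⟨V, hV, G, -, hid, hec, hlow⟩ := hex (f 0 + f 1 + f 2 + 1)
  have h1 := hf V G hec
  have h3 : idn H G ≤ 2 := Nat.sInf_le hid
  have h4 : f 0 + f 1 + f 2 + 1 ≤ ec H G := hlow _ (Nat.sInf_mem (s := {k | EcLe H G k}) hec)
  have h2 : idn H G = 0 ∨ idn H G = 1 ∨ idn H G = 2 := by omega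
  rcases h2 with h | h | h <;> rw [h] at h1 <;> omega

end Pool.Agent.Q275.Ident
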