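import Pool.Agent.Q271.LD3.Main3
import Pool.Agent.Results.MP_e8ee11_co.LowCrossingPaths

/-!
# Colourings opposite on the pairs of a matching, with an additive power of a logarithm
-/

set_option autoImplicit false

open Finset

namespace Pool.Agent.Q275.BF

open Pool.Agent.H320R2.LD Pool.Agent.Q271.LD3
open Pool.Agent.Results.MP_e8ee11_co.LowCrossingPaths (split)

theorem pairing3 (κ : ℝ) (hκ : 9 < κ) :
    ∃ C : ℝ, 0 < C ∧
      ∀ (n m t k : ℕ) (S : Fin m → Finset (Fin n)) (p : Fin n → Fin n), (∀ i, p (p i) = i) →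
        (∀ i : Fin n, (Finset.univ.filter (fun j : Fin m => i ∈ S j)).card ≤ t) →
        (∀ j : Fin m, split p (S j) ≤ k) →
        ∃ χ : Fin n → ℤ, (∀ i, χ i = 1 ∨ χ i = -1) ∧
          ∀ j : Fin m, ((|∑ i ∈ S j, χ i| : ℤ) : ℝ) ≤
            C * Real.sqrt ((t : ℝ) + (split p (S j) : ℝ) + Real.log k ^ κ) := by
  have hκ0 : 0 < κ := by linarith
  have hx0 : 0 < κ⁻¹ := inv_pos.2 hκ0
  have hx9 : κ⁻¹ < (2 - 1) / 9 := by
    rw [show ((2:ℝ) - 1) / 9 = (9:ℝ)⁻¹ by norm_num]
    exact inv_strictAnti₀ (by norm_num) hκ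
  obtain ⟨C, hC, h⟩ := main3 1 κ⁻¹ le_rfl hx0 hx9
  -- a threshold above which `τ ≤ exp (τ^(1/κ))`
  obtain ⟨T0, hT0⟩ := Filter.eventually_atTop.mp
    (Pool.Agent.H320R2.LD.PARAM.ev_log κ⁻¹ 1 hx0 one_pos)
  set T : ℝ := max 1 T0 with hT
  have hT1 : 1 ≤ T := le_max_left _ _
  refine ⟨C * Real.sqrt (T + 2), by positivity, ?_⟩
  intro n m t k S p hp h1 h2
  have hlogk0 : 0 ≤ Real.log k ^ κ := Real.rpow_nonneg (Real.log_natCast_nonneg k) _
  set τ : ℝ := max T (max ((2 * t : ℕ) : ℝ) (Real.log k ^ κ)) with hτ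
  have hτT : T ≤ τ := le_max_left _ _
  have hτ1 : 1 ≤ τ := hT1.trans hτT
  have hτ0 : 0 < τ := by linarith
  have hτt : ((2 * t : ℕ) : ℝ) ≤ τ := (le_max_left _ _).trans (le_max_right _ _)
  have hτk : Real.log k ^ κ ≤ τ := (le_max_right _ _).trans (le_max_right _ _)
  have hexpτ : τ ≤ Real.exp (τ ^ κ⁻¹) := by
    have e1 := hT0 τ ((le_max_right _ _).trans hτT)
    rw [one_mul] at e1
    calc τ = Real.exp (Real.log τ) := (Real.exp_log hτ0).symm
      _ ≤ _ := Real.exp_le_exp.2 e1
  have hkexp : (k : ℝ) ≤ Real.exp (τ ^ κ⁻¹) := by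
    rcases Nat.eq_zero_or_pos k with h0 | h0
    · rw [h0]
      simp only [Nat.cast_zero]
      exact (Real.exp_pos _).le
    · have hk0 : (0:ℝ) < k := by exact_mod_cast h0
      have e1 : Real.log k ≤ τ ^ κ⁻¹ := by
        calc Real.log k = (Real.log k ^ κ) ^ κ⁻¹ := by
              rw [← Real.rpow_mul (Real.log_natCast_nonneg k), mul_inv_cancel₀ hκ0.ne',
                Real.rpow_one]
          _ ≤ τ ^ κ⁻¹ := Real.rpow_le_rpow hlogk0 hτk hx0.le
      calc (k : ℝ) = Real.exp (Real.log k) := (Real.exp_log hk0).symm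
        _ ≤ _ := Real.exp_le_exp.2 e1
  -- the reduced matrix
  set B : Fin m → Fin n → ℝ := fun j i =>
    if p i = i then (if i ∈ S j then 1 else 0)
    else if i < p i then (if i ∈ S j then 1 else 0) - (if p i ∈ S j then 1 else 0) else 0 with hB
  have hBsq : ∀ j i, B j i ^ 2 ≤ 1 := by
    intro j i
    simp only [hB]
    split_ifs <;> norm_num
  have hBrow : ∀ j i, B j i ≠ 0 → ∃ a ∈ (S j).filter (fun i => p i = i ∨ p i ∉ S j),
      min a (p a) = i := by
    intro j i hne
    simp only [hB] at hne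
    by_cases hpi : p i = i
    · rw [if_pos hpi] at hne
      by_cases hi : i ∈ S j
      · exact ⟨i, mem_filter.2 ⟨hi, Or.inl hpi⟩, by rw [hpi, min_self]⟩
      · simp [hi] at hne
    · rw [if_neg hpi] at hne
      by_cases hlt : i < p i
      · rw [if_pos hlt] at hne
        by_cases hi : i ∈ S j
        · by_cases hi' : p i ∈ S j
          · simp [hi, hi'] at hne
          · exact ⟨i, mem_filter.2 ⟨hi, Or.inr hi'⟩, min_eq_left hlt.le⟩
        · by_cases hi' : p i ∈ S j
          · refine ⟨p i, mem_filter.2 ⟨hi', Or.inr (by rwa [hp])⟩, ?_⟩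
            rw [hp]
            exact min_eq_right hlt.le
          · simp [hi, hi'] at hne
      · simp [hlt] at hne
  have hBcol : ∀ j i, B j i ≠ 0 → i ∈ S j ∨ p i ∈ S j := by
    intro j i hne
    by_contra hcon
    push Not at hcon
    apply hne
    simp [hB, hcon.1, hcon.2]
  have hrow : ∀ j, (univ.filter (fun i => B j i ≠ 0)).card ≤ split p (S j) := by
    intro j
    unfold split
    refine le_trans (card_le_card ?_)
      (card_image_le (s := (S j).filter (fun i => p i = i ∨ p i ∉ S j)) (f := fun a => min a (p a)))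
    intro i hi
    obtain ⟨a, ha, he⟩ := hBrow j i (mem_filter.1 hi).2
    exact mem_image.2 ⟨a, ha, he⟩
  have hcol : ∀ i, (univ.filter (fun j => B j i ≠ 0)).card ≤ 2 * t := by
    intro i
    have hsub : univ.filter (fun j => B j i ≠ 0) ⊆
        univ.filter (fun j => i ∈ S j) ∪ univ.filter (fun j => p i ∈ S j) := by
      intro j hj
      rcases hBcol j i (mem_filter.1 hj).2 with h3 | h3
      · exact mem_union_left _ (mem_filter.2 ⟨mem_univ _, h3⟩)
      · exact mem_union_right _ (mem_filter.2 ⟨mem_univ _, h3⟩)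
    have := (card_le_card hsub).trans (card_union_le _ _)
    have := h1 i
    have := h1 (p i)
    omega
  -- row scale
  set w : Fin m → ℝ := fun j => max τ (split p (S j) : ℝ) with hw
  have hwτ : ∀ j, τ ≤ w j := fun j => le_max_left _ _
  have hw0 : ∀ j, 0 < w j := fun j => lt_of_lt_of_le hτ0 (hwτ j)
  set A : Fin m → Fin n → ℝ := fun j i => B j i / Real.sqrt (w j) with hA
  have hAsq : ∀ j i, A j i ^ 2 = B j i ^ 2 / w j := by
    intro j i
    simp only [hA]
    rw [div_pow, Real.sq_sqrt (hw0 j).le]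
  have hAne : ∀ j i, A j i ≠ 0 → B j i ≠ 0 := by
    intro j i hne h0
    apply hne
    simp only [hA, h0, zero_div]
  have hBle : ∀ j i, B j i ^ 2 ≤ if B j i ≠ 0 then 1 else 0 := by
    intro j i
    by_cases h0 : B j i = 0
    · simp [h0]
    · simp only [ne_eq, h0, not_false_eq_true, if_true]
      exact hBsq j i
  have hrow1 : ∀ j, ∑ i, A j i ^ 2 ≤ 1 := by
    intro j
    simp_rw [hAsq]
    rw [← Finset.sum_div, div_le_one (hw0 j)]
    calc ∑ i, B j i ^ 2 ≤ ∑ i, (if B j i ≠ 0 then (1 : ℝ) else 0) :=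
          Finset.sum_le_sum fun i _ => hBle j i
      _ = ((univ.filter (fun i => B j i ≠ 0)).card : ℝ) := by
          rw [Finset.sum_boole]
      _ ≤ (split p (S j) : ℝ) := by exact_mod_cast hrow j
      _ ≤ w j := le_max_right _ _
  have hadm : Adm3 τ 1 κ⁻¹ A := by
    refine ⟨fun j i => ?_, hrow1, fun i => ?_, fun j => ?_, fun i => ?_, fun y => ?_⟩
    · rw [hAsq, div_mul_eq_mul_div, div_le_one (hw0 j)]
      calc B j i ^ 2 * τ ≤ 1 * τ := mul_le_mul_of_nonneg_right (hBsq j i) hτ0.le
        _ ≤ w j := by rw [one_mul]; exact hwτ j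
    · simp_rw [hAsq]
      calc ∑ j, B j i ^ 2 / w j
          ≤ ∑ j, (if B j i ≠ 0 then (1 : ℝ) else 0) / τ := by
            refine Finset.sum_le_sum fun j _ => ?_
            refine div_le_div₀ ?_ (hBle j i) hτ0 (hwτ j)
            split_ifs <;> norm_num
        _ = ((univ.filter (fun j => B j i ≠ 0)).card : ℝ) / τ := by
            rw [← Finset.sum_div, Finset.sum_boole]
        _ ≤ 1 := by
            rw [div_le_one hτ0]
            refine le_trans ?_ hτt
            exact_mod_cast hcol i
    · refine le_trans ?_ (le_trans (Nat.cast_le.2 (h2 j)) hkexp)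
      rw [Nat.cast_le]
      refine le_trans (Finset.card_le_card fun i hi => ?_) (hrow j)
      rw [Finset.mem_filter] at hi ⊢
      exact ⟨hi.1, hAne j i hi.2⟩
    · refine le_trans ?_ (hτt.trans hexpτ)
      rw [Nat.cast_le]
      refine le_trans (Finset.card_le_card fun j hj => ?_) (hcol i)
      rw [Finset.mem_filter] at hj ⊢
      exact ⟨hj.1, hAne j i hj.2⟩
    · rw [Real.rpow_one]
      have e1 : ∀ j, (∑ i, |A j i| * |y i|) ^ 2 ≤ ∑ i, (if B j i ≠ 0 then y i ^ 2 else 0) := by
        intro j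
        have c1 : ∑ i, |A j i| * |y i| =
            ∑ i ∈ univ.filter (fun i => B j i ≠ 0), |A j i| * |y i| := by
          rw [Finset.sum_filter]
          refine Finset.sum_congr rfl fun i _ => ?_
          by_cases h0 : B j i = 0
          · have : A j i = 0 := by simp only [hA, h0, zero_div]
            simp [this, h0]
          · simp [h0]
        rw [c1]
        refine (Finset.sum_mul_sq_le_sq_mul_sq _ (fun i => |A j i|) (fun i => |y i|)).trans ?_
        have c3 : ∑ i ∈ univ.filter (fun i => B j i ≠ 0), |A j i| ^ 2 ≤ 1 := by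
          refine le_trans ?_ (hrow1 j)
          refine (Finset.sum_le_sum_of_subset_of_nonneg (Finset.subset_univ _)
            (fun i _ _ => by positivity)).trans ?_
          exact Finset.sum_le_sum fun i _ => (sq_abs _).le
        have c4 : ∑ i ∈ univ.filter (fun i => B j i ≠ 0), |y i| ^ 2 =
            ∑ i, (if B j i ≠ 0 then y i ^ 2 else 0) := by
          rw [← Finset.sum_filter]
          exact Finset.sum_congr rfl fun i _ => sq_abs _
        rw [c4]
        refine mul_le_of_le_one_left ?_ c3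
        refine Finset.sum_nonneg fun i _ => ?_
        split_ifs
        · exact sq_nonneg _
        · exact le_rfl
      calc ∑ j, (∑ i, |A j i| * |y i|) ^ 2
          ≤ ∑ j, ∑ i, (if B j i ≠ 0 then y i ^ 2 else 0) := Finset.sum_le_sum fun j _ => e1 j
        _ = ∑ i, ∑ j, (if B j i ≠ 0 then y i ^ 2 else 0) := Finset.sum_comm
        _ ≤ ∑ i, τ * y i ^ 2 := by
            refine Finset.sum_le_sum fun i _ => ?_
            rw [← Finset.sum_filter, Finset.sum_const, nsmul_eq_mul]
            refine mul_le_mul_of_nonneg_right (le_trans ?_ hτt) (sq_nonneg _)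
            exact_mod_cast hcol i
        _ = τ * nsq y := by
            unfold nsq
            rw [← Finset.mul_sum]
  obtain ⟨x, hx1, hx2⟩ := h τ hτ1 (Fin n) (Fin m) A hadm
  -- the colouring
  set y : Fin n → ℝ := fun i => if i ≤ p i then x i else - x (p i) with hy
  have hy1 : ∀ i, y i = 1 ∨ y i = -1 := by
    intro i
    simp only [hy]
    split_ifs
    · exact hx1 i
    · rcases hx1 (p i) with h3 | h3
      · exact Or.inr (by rw [h3])
      · exact Or.inl (by rw [h3]; norm_num)
  refine ⟨fun i => if y i = 1 then 1 else -1, fun i => ?_, fun j => ?_⟩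
  · show (if y i = 1 then (1 : ℤ) else -1) = 1 ∨ (if y i = 1 then (1 : ℤ) else -1) = -1
    split_ifs
    · exact Or.inl rfl
    · exact Or.inr rfl
  push_cast
  have e1 : ∑ i ∈ S j, (if y i = 1 then (1 : ℝ) else -1) = ∑ i ∈ S j, y i := by
    refine Finset.sum_congr rfl fun i _ => ?_
    rcases hy1 i with h3 | h3
    · rw [if_pos h3, h3]
    · rw [if_neg (by rw [h3]; norm_num), h3]
  rw [e1]
  -- the reduction
  have e2 : ∑ i ∈ S j, y i = ∑ i, B j i * x i := by
    set s : Fin n → ℝ := fun i => if i ∈ S j then 1 else 0 with hs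
    have e3 : ∑ i ∈ S j, y i = ∑ i, s i * y i := by
      simp only [hs, ite_mul, one_mul, zero_mul]
      rw [Finset.sum_ite_mem, Finset.univ_inter]
    have e4 : ∀ i, s i * y i = (if p i = i then s i * x i else 0) +
        (if i < p i then s i * x i else 0) - (if p i < i then s i * x (p i) else 0) := by
      intro i
      rcases lt_trichotomy i (p i) with h3 | h3 | h3
      · rw [if_neg h3.ne', if_pos h3, if_neg (not_lt.2 h3.le)]
        simp [hy, h3.le]
      · rw [if_pos h3.symm, if_neg (by rw [← h3]; exact lt_irrefl _),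
          if_neg (by rw [← h3]; exact lt_irrefl _)]
        simp [hy, h3.le]
      · rw [if_neg h3.ne, if_neg (not_lt.2 h3.le), if_pos h3]
        simp [hy, not_le.2 h3]
    have e5 : ∑ i, (if p i < i then s i * x (p i) else 0) =
        ∑ i, (if i < p i then s (p i) * x i else 0) := by
      refine Finset.sum_nbij' p p (fun i _ => mem_univ _) (fun i _ => mem_univ _)
        (fun i _ => hp i) (fun i _ => hp i) ?_
      intro i _
      simp only [hp]
    rw [e3, Finset.sum_congr rfl (fun i _ => e4 i), Finset.sum_sub_distrib, e5,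
      ← Finset.sum_sub_distrib]
    refine Finset.sum_congr rfl fun i _ => ?_
    simp only [hB, hs]
    by_cases h3 : p i = i
    · simp [h3]
    · by_cases h4 : i < p i
      · simp only [h3, h4, if_true, if_false]
        ring
      · simp [h3, h4]
  have hsq : 0 < Real.sqrt (w j) := Real.sqrt_pos.2 (hw0 j)
  have h3 : ∑ v, A j v * x v = 1 / Real.sqrt (w j) * ∑ i ∈ S j, y i := by
    rw [e2, Finset.mul_sum]
    refine Finset.sum_congr rfl fun i _ => ?_
    simp only [hA]
    ring
  rcases Nat.eq_zero_or_pos (split p (S j)) with he | hpos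
  · have hz : ∀ i, B j i = 0 := by
      intro i
      by_contra hne
      have := hrow j
      rw [he] at this
      have hmem : i ∈ univ.filter (fun i => B j i ≠ 0) := mem_filter.2 ⟨mem_univ _, hne⟩
      have := Finset.card_pos.2 ⟨i, hmem⟩
      omega
    rw [e2]
    simp only [hz, zero_mul, Finset.sum_const_zero, abs_zero]
    positivity
  · have h4 := hx2 j
    rw [h3, abs_mul, abs_of_pos (by positivity : (0 : ℝ) < 1 / Real.sqrt (w j)), one_div,
      inv_mul_le_iff₀ hsq] at h4
    refine h4.trans ?_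
    have hcard : (1 : ℝ) ≤ (split p (S j) : ℝ) := by exact_mod_cast hpos
    have h5 : w j ≤ (T + 2) * ((t : ℝ) + (split p (S j) : ℝ) + Real.log k ^ κ) := by
      have ht0 : (0 : ℝ) ≤ (t : ℝ) := Nat.cast_nonneg t
      set Q : ℝ := (t : ℝ) + (split p (S j) : ℝ) + Real.log k ^ κ with hQ
      have hQ1 : 1 ≤ Q := by rw [hQ]; linarith
      have hTQ : T ≤ (T + 2) * Q := by nlinarith
      have hQQ : 2 * Q ≤ (T + 2) * Q := by nlinarith
      simp only [hw, hτ]
      refine max_le (max_le hTQ (max_le ?_ ?_)) ?_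
      · refine le_trans ?_ hQQ
        push_cast
        rw [hQ]; linarith
      · refine le_trans ?_ hQQ
        rw [hQ]; linarith
      · refine le_trans ?_ hQQ
        rw [hQ]; linarith
    calc Real.sqrt (w j) * C
        ≤ Real.sqrt ((T + 2) * ((t : ℝ) + (split p (S j) : ℝ) + Real.log k ^ κ)) * C :=
          mul_le_mul_of_nonneg_right (Real.sqrt_le_sqrt h5) hC.le
      _ = C * Real.sqrt (T + 2) *
            Real.sqrt ((t : ℝ) + (split p (S j) : ℝ) + Real.log k ^ κ) := by
          rw [Real.sqrt_mul (by linarith)]; ring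

end Pool.Agent.Q275.BF
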