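import Pool.Agent.Q275.Sep
import Pool.Agent.Helper805.CHS.Density

/-!
# Path-pairable graphs without a large clique minor have a vertex of linear degree
-/

set_option autoImplicit false

namespace Pool.Agent.Q275.PathPair

open Finset
open Pool.Agent.Q275.Sep

/-- the hypothesis: no model of `K_t` -/
def NoModel {V : Type} (G : SimpleGraph V) (t : ℕ) : Prop :=
  ¬ ∃ f : Fin t → Set V,
    (∀ i, (G.induce (f i)).Connected) ∧
    (∀ i j, i ≠ j → Disjoint (f i) (f j)) ∧
    (∀ i j, i ≠ j → ∃ u ∈ f i, ∃ v ∈ f j, G.Adj u v)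

lemma conn_induce {V : Type} {G : SimpleGraph V} {C : Finset V} (h : Conn G C) :
    (G.induce (C : Set V)).Connected := by
  obtain ⟨x, hx⟩ := h.1
  have key : ∀ z ∈ C, ∀ hz : z ∈ (C : Set V),
      (G.induce (C : Set V)).Reachable ⟨x, hx⟩ ⟨z, hz⟩ := by
    refine h.induct (fun z => ∀ hz : z ∈ (C : Set V),
      (G.induce (C : Set V)).Reachable ⟨x, hx⟩ ⟨z, hz⟩) hx (fun _ => SimpleGraph.Reachable.refl _) ?_
    intro a ha b hb hab hpa hz
    refine (hpa ha).trans ?_
    exact SimpleGraph.Adj.reachable (by simpa using hab)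
  have : Nonempty (C : Set V) := ⟨⟨x, hx⟩⟩
  refine ⟨fun a b => ?_⟩
  exact (key a.1 a.2 a.2).symm.trans (key b.1 b.2 b.2)

lemma noK_of_noModel {V : Type} {G : SimpleGraph V} {t : ℕ} (h : NoModel G t) :
    NoK t G := by
  intro C hC hd ha
  exact h ⟨fun i => (C i : Set V), fun i => conn_induce (hC i),
    fun i j hij => Finset.disjoint_coe.2 (hd i j hij), fun i j hij => by
      obtain ⟨x, hx, y, hy, hxy⟩ := ha i j hij
      exact ⟨x, hx, y, hy, hxy⟩⟩

open Pool.Agent.Helper805.CHS in
/-- the degree sum is linear -/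
lemma sum_degree_le {V : Type} [Fintype V] (G : SimpleGraph V) [DecidableRel G.Adj] {t : ℕ}
    (h : NoModel G t) : ∑ v, G.degree v ≤ 2 ^ (t + 1) * Fintype.card V := by
  classical
  set P : Finset (Set V) := Finset.univ.image (fun v : V => ({v} : Set V)) with hP
  have hinj : Function.Injective (fun v : V => ({v} : Set V)) := Set.singleton_injective
  have hPF : Fam G P := by
    constructor
    · intro D hD
      obtain ⟨v, -, rfl⟩ := Finset.mem_image.1 hD
      simp
    · intro D hD D' hD' hne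
      obtain ⟨v, -, rfl⟩ := Finset.mem_image.1 hD
      obtain ⟨w, -, rfl⟩ := Finset.mem_image.1 hD'
      exact Set.disjoint_singleton.2 (fun e => hne (by rw [e]))
  have hPc : P.card = Fintype.card V := by
    rw [hP, Finset.card_image_of_injective _ hinj, Finset.card_univ]
  have hle : ∑ v, G.degree v ≤ (prs G P).card := by
    have h1 : ∑ v, G.degree v = (Finset.univ.sigma (fun v => G.neighborFinset v)).card := by
      rw [Finset.card_sigma]; rfl
    rw [h1]
    apply Finset.card_le_card_of_injOn (fun e => (({e.1} : Set V), ({e.2} : Set V)))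
    · intro e he
      have he' := (Finset.mem_sigma.1 (Finset.mem_coe.1 he)).2
      rw [SimpleGraph.mem_neighborFinset] at he'
      apply Finset.mem_coe.2
      rw [mem_prs]
      refine ⟨Finset.mem_image_of_mem _ (Finset.mem_univ _),
        Finset.mem_image_of_mem _ (Finset.mem_univ _), ?_, e.1, rfl, e.2, rfl, he'⟩
      intro hh
      exact he'.ne (hinj hh)
    · rintro ⟨a, b⟩ _ ⟨a', b'⟩ _ hh
      obtain ⟨h1, h2⟩ := Prod.mk.inj hh
      have := hinj h1
      have := hinj h2
      simp_all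
  by_contra hcon
  push Not at hcon
  have hlt : 2 * (2 ^ t - 1) * P.card < (prs G P).card := by
    rw [hPc]
    refine lt_of_le_of_lt ?_ (lt_of_lt_of_le hcon hle)
    apply Nat.mul_le_mul_right
    rw [pow_succ]
    omega
  obtain ⟨f, f1, f2, f3, -, -⟩ := mader G t P hPF hlt
  refine h ⟨fun i => f (Fin.castLE (by omega) i), fun i => f1 _, fun i j hij => f2 _ _ ?_,
    fun i j hij => f3 _ _ ?_⟩
  · intro e; exact hij (Fin.castLE_injective _ e)
  · intro e; exact hij (Fin.castLE_injective _ e)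

/-- A walk leaving a set that is closed outside `S` uses an edge at `S`. -/
lemma walk_hits {V : Type} {G : SimpleGraph V} (A S : Set V)
    (hcl : ∀ x ∈ A, ∀ y, G.Adj x y → y ∈ A ∨ y ∈ S) :
    ∀ {u v : V} (p : G.Walk u v), u ∈ A → v ∉ A → ∃ e ∈ p.edges, ∃ s ∈ S, s ∈ e := by
  intro u v p
  induction p with
  | nil => intro h1 h2; exact absurd h1 h2
  | @cons a b c hab q ih =>
    intro ha hc
    rcases hcl a ha b hab with hb | hb
    · obtain ⟨e, he, s, hs, hse⟩ := ih hb hc
      exact ⟨e, by simp [he], s, hs, hse⟩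
    · exact ⟨s(a, b), by simp, b, hb, by simp⟩

/-- edges at `S` -/
lemma card_edges_at {V : Type} [Fintype V] (G : SimpleGraph V) [DecidableRel G.Adj]
    (S : Finset V) {k : ℕ} (e : Fin k → Sym2 V) (hinj : Function.Injective e)
    (he : ∀ i, e i ∈ G.edgeSet) (hs : ∀ i, ∃ s ∈ S, s ∈ e i) :
    k ≤ ∑ s ∈ S, G.degree s := by
  classical
  have h1 : (Finset.univ.image e) ⊆ S.biUnion (fun s => G.incidenceFinset s) := by
    intro x hx
    obtain ⟨i, -, rfl⟩ := Finset.mem_image.1 hx
    obtain ⟨s, hs1, hs2⟩ := hs i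
    rw [Finset.mem_biUnion]
    refine ⟨s, hs1, ?_⟩
    rw [SimpleGraph.mem_incidenceFinset]
    exact ⟨he i, hs2⟩
  have h2 := Finset.card_le_card h1
  rw [Finset.card_image_of_injective _ hinj, Finset.card_univ, Fintype.card_fin] at h2
  refine h2.trans (Finset.card_biUnion_le.trans ?_)
  apply Finset.sum_le_sum
  intro s _
  rw [SimpleGraph.card_incidenceFinset_eq_degree]

/-- existence of a big closed set -/
lemma exists_closed {V : Type} [Fintype V] (G : SimpleGraph V) (S : Finset V)
    (hS : 4 * S.card ≤ Fintype.card V) (hn : 0 < Fintype.card V)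
    (hT : ∀ T, Conn G T → Disjoint T S → 2 * T.card ≤ Fintype.card V) :
    ∃ A : Finset V, Disjoint A S ∧ (∀ x ∈ A, ∀ y, G.Adj x y → y ∈ A ∨ y ∈ S) ∧
      2 * A.card ≤ Fintype.card V ∧ Fintype.card V ≤ 4 * A.card := by
  classical
  obtain ⟨A, hA, hmax⟩ := Finset.exists_max_image
    ((univ : Finset (Finset V)).filter (fun A => Disjoint A S ∧
      (∀ x ∈ A, ∀ y, G.Adj x y → y ∈ A ∨ y ∈ S) ∧ 2 * A.card ≤ Fintype.card V)) card
    ⟨∅, by simp⟩
  simp only [mem_filter, mem_univ, true_and] at hA hmax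
  obtain ⟨hA1, hA2, hA3⟩ := hA
  refine ⟨A, hA1, hA2, hA3, ?_⟩
  by_contra hcon
  push Not at hcon
  obtain ⟨x, hx⟩ : ∃ x, x ∉ A ∪ S := by
    by_contra hall
    push Not at hall
    have h1 : (univ : Finset V) ⊆ A ∪ S := fun x _ => hall x
    have h2 := card_le_card h1
    have h3 := card_union_le A S
    rw [card_univ] at h2
    omega
  rw [mem_union, not_or] at hx
  obtain ⟨C, hxC, hC, hCS, hCcl⟩ := exists_max_conn (conn_singleton G x)
    (disjoint_singleton_left.2 hx.2)
  have hC2 := hT C hC hCS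
  have hxC' : x ∈ C := hxC (mem_singleton_self x)
  by_cases hbig : Fintype.card V ≤ 4 * C.card
  · have := hmax C ⟨hCS, hCcl, hC2⟩
    omega
  · push Not at hbig
    have h4 := card_union_le A C
    have h5 := hmax (A ∪ C) ⟨disjoint_union_left.2 ⟨hA1, hCS⟩, ?_, by omega⟩
    · have h6 : A.card < (A ∪ C).card := by
        apply card_lt_card
        refine ⟨subset_union_left, fun h => hx.1 (h (mem_union_right _ hxC'))⟩
      omega
    · intro y hy z hyz
      rcases mem_union.1 hy with h | h
      · rcases hA2 y h z hyz with h' | h'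
        · exact Or.inl (mem_union_left _ h')
        · exact Or.inr h'
      · rcases hCcl y h z hyz with h' | h'
        · exact Or.inl (mem_union_right _ h')
        · exact Or.inr h'

theorem main :
    ∀ t : ℕ, ∃ c : ℝ, 0 < c ∧
      ∀ (V : Type) [Fintype V] (G : SimpleGraph V) [DecidableRel G.Adj],
        2 ≤ Fintype.card V →
        (∀ (k : ℕ) (s r : Fin k → V), Function.Injective (Sum.elim s r) →
          ∃ p : (i : Fin k) → G.Walk (s i) (r i),
            (∀ i, (p i).IsPath) ∧
            ∀ i j, i ≠ j → ∀ e ∈ (p i).edges, e ∉ (p j).edges) →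
        (¬ ∃ f : Fin t → Set V,
            (∀ i, (G.induce (f i)).Connected) ∧
            (∀ i j, i ≠ j → Disjoint (f i) (f j)) ∧
            (∀ i j, i ≠ j → ∃ u ∈ f i, ∃ v ∈ f j, G.Adj u v)) →
        ∃ v : V, c * (Fintype.card V : ℝ) ≤ (G.degree v : ℝ) := by
  classical
  intro t
  rcases Nat.eq_zero_or_pos t with ht | ht
  · subst ht
    refine ⟨1, one_pos, ?_⟩
    intro V _ G _ _ _ hno
    exact absurd ⟨fun i => i.elim0, fun i => i.elim0, fun i => i.elim0, fun i => i.elim0⟩ hno
  obtain ⟨m, rfl⟩ : ∃ m, t = m + 1 := ⟨t - 1, by omega⟩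
  set K : ℕ := 256 * (m + 1) ^ 3 * 2 ^ (m + 1 + 1) with hK
  have hKpos : 0 < K := by positivity
  refine ⟨1 / (K : ℝ), by positivity, ?_⟩
  intro V _ G _ hn hpp hno
  by_contra hcon
  push Not at hcon
  set n := Fintype.card V with hnn
  have hdeg : ∀ v, K * G.degree v < n := by
    intro v
    have h := hcon v
    rw [one_div, inv_mul_eq_div, lt_div_iff₀ (by exact_mod_cast hKpos)] at h
    have h' : (K * G.degree v : ℝ) < n := by rw [mul_comm]; exact h
    exact_mod_cast h'
  -- degrees are positive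
  have hpos : ∀ v, 1 ≤ G.degree v := by
    intro v
    obtain ⟨u, hu⟩ : ∃ u, u ≠ v := by
      have : Nontrivial V := Fintype.one_lt_card_iff_nontrivial.1 (by omega)
      exact exists_ne v
    obtain ⟨p, -, -⟩ := hpp 1 (fun _ => v) (fun _ => u) (by
      intro a b hab
      rcases a with a | a <;> rcases b with b | b
      · rw [Subsingleton.elim a b]
      · exact absurd hab.symm hu
      · exact absurd hab hu
      · rw [Subsingleton.elim a b])
    have hw := p 0
    cases hw with
    | nil => exact absurd rfl hu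
    | cons h q =>
      rw [Nat.one_le_iff_ne_zero, ← Nat.pos_iff_ne_zero, G.degree_pos_iff_exists_adj]
      exact ⟨_, h⟩
  have hsum := sum_degree_le G hno
  rw [← hnn] at hsum
  -- second moment
  have hsq : 256 * (m + 1) ^ 3 * ∑ v, G.degree v ^ 2 ≤ n ^ 2 := by
    have h1 : K * ∑ v, G.degree v ^ 2 ≤ n * ∑ v, G.degree v := by
      rw [mul_sum, mul_sum]
      apply sum_le_sum
      intro v _
      rw [sq, ← mul_assoc]
      exact Nat.mul_le_mul_right _ (hdeg v).le
    have h2 : K * ∑ v, G.degree v ^ 2 ≤ n * (2 ^ (m + 1 + 1) * n) :=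
      h1.trans (Nat.mul_le_mul_left _ hsum)
    have h3 : 2 ^ (m + 1 + 1) * (256 * (m + 1) ^ 3 * ∑ v, G.degree v ^ 2) ≤
        2 ^ (m + 1 + 1) * n ^ 2 := by
      calc 2 ^ (m + 1 + 1) * (256 * (m + 1) ^ 3 * ∑ v, G.degree v ^ 2)
          = K * ∑ v, G.degree v ^ 2 := by rw [hK]; ring
        _ ≤ n * (2 ^ (m + 1 + 1) * n) := h2
        _ = _ := by ring
    exact Nat.le_of_mul_le_mul_left h3 (by positivity)
  set R : ℕ := n / (16 * (m + 1)) + 1 with hR
  have hnR : n < 16 * (m + 1) * R := by
    rw [hR]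
    exact Nat.lt_mul_div_succ n (by positivity)
  have hcR : (m + 1) * ∑ v, G.degree v ^ 2 ≤ R ^ 2 := by
    have h1 : (256 * (m + 1) ^ 2) * ((m + 1) * ∑ v, G.degree v ^ 2) ≤
        (256 * (m + 1) ^ 2) * R ^ 2 := by
      calc (256 * (m + 1) ^ 2) * ((m + 1) * ∑ v, G.degree v ^ 2)
          = 256 * (m + 1) ^ 3 * ∑ v, G.degree v ^ 2 := by ring
        _ ≤ n ^ 2 := hsq
        _ ≤ (16 * (m + 1) * R) ^ 2 := Nat.pow_le_pow_left hnR.le 2
        _ = _ := by ring
    exact Nat.le_of_mul_le_mul_left h1 (by positivity)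
  obtain ⟨S, hS, hST⟩ := separator G (noK_of_noModel hno) (fun v => G.degree v) (fun _ => 1) R
    (Nat.succ_pos _) hcR
  have hST' : ∀ T, Conn G T → Disjoint T S → 2 * T.card ≤ n := by
    intro T hT hd
    have := hST T hT hd
    simpa using this
  have hKn : K < n := by
    obtain ⟨v⟩ : Nonempty V := Fintype.card_pos_iff.1 (by omega)
    have h1 := hdeg v
    have h2 := hpos v
    calc K = K * 1 := by ring
      _ ≤ K * G.degree v := Nat.mul_le_mul_left _ h2
      _ < n := h1
  have h16 : 16 * (m + 1) ≤ n := by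
    refine le_trans ?_ hKn.le
    rw [hK]
    have h1 : 1 ≤ (m + 1) ^ 2 := Nat.one_le_pow _ _ (by omega)
    have h2 : 1 ≤ 2 ^ (m + 1 + 1) := Nat.one_le_two_pow
    calc 16 * (m + 1) ≤ 256 * (m + 1) := by omega
      _ = 256 * (m + 1) * 1 * 1 := by ring
      _ ≤ 256 * (m + 1) * (m + 1) ^ 2 * 2 ^ (m + 1 + 1) :=
        Nat.mul_le_mul (Nat.mul_le_mul_left _ h1) h2
      _ = _ := by ring
  have htR : 8 * ((m + 1) * R) ≤ n := by
    have h1 : 16 * (m + 1) * (n / (16 * (m + 1))) ≤ n := Nat.mul_div_le _ _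
    have h2 : 16 * ((m + 1) * R) = 16 * (m + 1) * (n / (16 * (m + 1))) + 16 * (m + 1) := by
      rw [hR]; ring
    omega
  have hSc : S.card ≤ ∑ z ∈ S, G.degree z := by
    calc S.card = ∑ z ∈ S, 1 := by simp
      _ ≤ _ := sum_le_sum fun v _ => hpos v
  obtain ⟨A, hA1, hA2, hA3, hA4⟩ := exists_closed G S (by omega) (by omega) hST'
  rw [← hnn] at hA3 hA4
  set B : Finset V := univ \ (A ∪ S) with hB
  have hBc : n ≤ 4 * B.card := by
    have h1 : B.card + (A ∪ S).card = n := by
      rw [hB, hnn, ← card_univ, card_sdiff_add_card_eq_card (subset_univ _)]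
    have h2 := card_union_le A S
    omega
  set k := min A.card B.card with hk
  have hkA : k ≤ A.card := min_le_left _ _
  have hkB : k ≤ B.card := min_le_right _ _
  have hk4 : n ≤ 4 * k := by
    rcases min_choice A.card B.card with h | h
    · rw [hk, h]; exact hA4
    · rw [hk, h]; exact hBc
  let s : Fin k → V := fun i => (A.equivFin.symm (Fin.castLE hkA i)).1
  let r : Fin k → V := fun i => (B.equivFin.symm (Fin.castLE hkB i)).1
  have hsA : ∀ i, s i ∈ A := fun i => (A.equivFin.symm (Fin.castLE hkA i)).2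
  have hrB : ∀ i, r i ∈ B := fun i => (B.equivFin.symm (Fin.castLE hkB i)).2
  have hs_inj : Function.Injective s := by
    intro i j hij
    exact Fin.castLE_injective _ (A.equivFin.symm.injective (Subtype.ext hij))
  have hr_inj : Function.Injective r := by
    intro i j hij
    exact Fin.castLE_injective _ (B.equivFin.symm.injective (Subtype.ext hij))
  have hrA : ∀ i, r i ∉ A := by
    intro i hi
    have := hrB i
    rw [hB, mem_sdiff, mem_union, not_or] at this
    exact this.2.1 hi
  obtain ⟨p, -, hp⟩ := hpp k s r (by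
    rw [Sum.elim_injective]
    exact ⟨hs_inj, hr_inj, fun i j h => hrA j (h ▸ hsA i)⟩)
  have hits : ∀ i, ∃ e ∈ (p i).edges, ∃ x ∈ (S : Set V), x ∈ e := fun i =>
    walk_hits (A : Set V) (S : Set V) (fun x hx y hxy => hA2 x hx y hxy) (p i) (hsA i) (hrA i)
  choose e he x hx hxe using hits
  have he_inj : Function.Injective e := by
    intro i j hij
    by_contra hne
    exact hp i j hne (e i) (he i) (hij ▸ he j)
  have hfin := card_edges_at G S e he_inj (fun i => (p i).edges_subset_edgeSet (he i))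
    (fun i => ⟨x i, hx i, hxe i⟩)
  omega

end Pool.Agent.Q275.PathPair
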