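import Mathlib

set_option autoImplicit false

namespace Pool.Agent.Q275.Sep

open Finset

section
variable {Z : Type*}

/-- A nonempty finite vertex set is connected if it has no proper nonempty subset closed under
adjacency inside it. -/
def Conn (P : SimpleGraph Z) (C : Finset Z) : Prop :=
  C.Nonempty ∧ ∀ A ⊆ C, A.Nonempty → (∀ x ∈ A, ∀ y ∈ C, P.Adj x y → y ∈ A) → A = C

lemma Conn.induct {P : SimpleGraph Z} {C : Finset Z} (h : Conn P C) (p : Z → Prop)
    {x₀ : Z} (hx₀ : x₀ ∈ C) (h0 : p x₀)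
    (hs : ∀ x ∈ C, ∀ y ∈ C, P.Adj x y → p x → p y) : ∀ x ∈ C, p x := by
  classical
  have := h.2 (C.filter p) (filter_subset _ _) ⟨x₀, mem_filter.mpr ⟨hx₀, h0⟩⟩
    (fun x hx y hy hxy => mem_filter.mpr ⟨hy, hs x (mem_filter.mp hx).1 y hy hxy
      (mem_filter.mp hx).2⟩)
  intro x hx
  rw [← this] at hx
  exact (mem_filter.mp hx).2

lemma conn_of_induct {P : SimpleGraph Z} {C : Finset Z} (hne : C.Nonempty)
    (h : ∀ p : Z → Prop, (∃ x ∈ C, p x) → (∀ x ∈ C, ∀ y ∈ C, P.Adj x y → p x → p y) →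
      ∀ x ∈ C, p x) : Conn P C := by
  refine ⟨hne, fun A hA hAne hcl => Finset.Subset.antisymm hA ?_⟩
  obtain ⟨a, ha⟩ := hAne
  exact fun x hx => h (· ∈ A) ⟨a, hA ha, ha⟩ (fun x _ y hy hxy hxA => hcl x hxA y hy hxy) x hx

lemma conn_singleton (P : SimpleGraph Z) (v : Z) : Conn P {v} := by
  refine conn_of_induct (singleton_nonempty v) ?_
  rintro p ⟨x, hx, hpx⟩ _ y hy
  rw [mem_singleton] at hx hy
  rw [hy, ← hx]; exact hpx

end

variable {Z : Type*} [DecidableEq Z]

lemma sum_union_le (s t : Finset Z) (f : Z → ℕ) :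
    ∑ z ∈ s ∪ t, f z ≤ ∑ z ∈ s, f z + ∑ z ∈ t, f z := by
  rw [← sum_union_inter]; omega

lemma sum_biUnion_le {ι : Type*} [DecidableEq ι] (I : Finset ι) (S : ι → Finset Z) (f : Z → ℕ) :
    ∑ z ∈ I.biUnion S, f z ≤ ∑ i ∈ I, ∑ z ∈ S i, f z := by
  induction I using Finset.induction_on with
  | empty => simp
  | insert i I hi ih =>
    rw [biUnion_insert, sum_insert hi]
    exact (sum_union_le _ _ f).trans (Nat.add_le_add_left ih _)

lemma conn_union {P : SimpleGraph Z} {C D : Finset Z} (hC : Conn P C)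
    (hD : ∀ x ∈ D, ∃ T ⊆ D, Conn P T ∧ x ∈ T ∧ ∃ a ∈ T, ∃ y ∈ C, P.Adj a y) :
    Conn P (C ∪ D) := by
  refine conn_of_induct (hC.1.mono subset_union_left) ?_
  rintro p ⟨x, hx, hpx⟩ hs
  have stepC : (∃ c ∈ C, p c) → ∀ c ∈ C, p c := by
    rintro ⟨c, hc, hpc⟩
    exact hC.induct p hc hpc (fun x hx y hy => hs x (mem_union_left _ hx) y (mem_union_left _ hy))
  have allD : (∀ c ∈ C, p c) → ∀ d ∈ D, p d := by
    intro hall d hd
    obtain ⟨T, hTD, hT, hdT, a, haT, y, hyC, hay⟩ := hD d hd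
    have hpa : p a := hs y (mem_union_left _ hyC) a (mem_union_right _ (hTD haT)) hay.symm
      (hall y hyC)
    exact hT.induct p haT hpa (fun x hx y hy => hs x (mem_union_right _ (hTD hx)) y
      (mem_union_right _ (hTD hy))) d hdT
  have exC : ∃ c ∈ C, p c := by
    rcases mem_union.mp hx with hx | hx
    · exact ⟨x, hx, hpx⟩
    · obtain ⟨T, hTD, hT, hxT, a, haT, y, hyC, hay⟩ := hD x hx
      have hpa : p a := hT.induct p hxT hpx (fun x hx y hy => hs x (mem_union_right _ (hTD hx)) y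
        (mem_union_right _ (hTD hy))) a haT
      exact ⟨y, hyC, hs a (mem_union_right _ (hTD haT)) y (mem_union_left _ hyC) hay hpa⟩
  intro z hz
  rcases mem_union.mp hz with hz | hz
  · exact stepC exC z hz
  · exact allD (stepC exC) z hz

lemma conn_union_adj {P : SimpleGraph Z} {C D : Finset Z} (hC : Conn P C) (hD : Conn P D)
    (h : ∃ x ∈ C, ∃ y ∈ D, P.Adj x y) : Conn P (C ∪ D) := by
  obtain ⟨x, hx, y, hy, hxy⟩ := h
  exact conn_union hC (fun z hz => ⟨D, Subset.rfl, hD, hz, y, hy, x, hx, hxy.symm⟩)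

lemma conn_insert {P : SimpleGraph Z} {T : Finset Z} {u v : Z} (hT : Conn P T) (hu : u ∈ T)
    (huv : P.Adj u v) : Conn P (insert v T) := by
  have := conn_union_adj hT (conn_singleton P v) ⟨u, hu, v, mem_singleton_self v, huv⟩
  rwa [union_comm, ← insert_eq] at this

lemma exists_max_conn [Fintype Z] {P : SimpleGraph Z} {T S : Finset Z} (hT : Conn P T)
    (hd : Disjoint T S) :
    ∃ B, T ⊆ B ∧ Conn P B ∧ Disjoint B S ∧ ∀ x ∈ B, ∀ y, P.Adj x y → y ∈ B ∨ y ∈ S := by
  classical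
  obtain ⟨B, hB, hmax⟩ := Finset.exists_max_image
    ((univ : Finset (Finset Z)).filter (fun B => T ⊆ B ∧ Conn P B ∧ Disjoint B S)) card
    ⟨T, by simp [hT, hd]⟩
  simp only [mem_filter, mem_univ, true_and] at hB hmax
  refine ⟨B, hB.1, hB.2.1, hB.2.2, ?_⟩
  intro x hx y hxy
  by_contra hcon
  push Not at hcon
  have h1 := hmax (insert y B) ⟨hB.1.trans (subset_insert _ _), conn_insert hB.2.1 hx hxy, by
    rw [disjoint_insert_left]; exact ⟨hcon.2, hB.2.2⟩⟩
  rw [card_insert_of_notMem hcon.1] at h1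
  omega

/-- Counting thresholds. -/
lemma card_threshold (M : ℕ → Prop) (hM : ∀ a b, a ≤ b → M a → M b) (R c : ℕ)
    [DecidablePred fun t => M (t + c) ∧ ¬ M t] :
    ((range R).filter (fun t => M (t + c) ∧ ¬ M t)).card ≤ c := by
  classical
  by_cases h : ∃ d, M d
  · obtain ⟨d, hd, hmin⟩ : ∃ d, M d ∧ ∀ d' < d, ¬ M d' :=
      ⟨Nat.find h, Nat.find_spec h, fun d' hd' => Nat.find_min h hd'⟩
    have : ((range R).filter (fun t => M (t + c) ∧ ¬ M t)) ⊆ Ico (d - c) d := by
      intro t ht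
      simp only [mem_filter, mem_range] at ht
      rw [mem_Ico]
      constructor
      · by_contra hlt
        exact hmin (t + c) (by omega) ht.2.1
      · by_contra hge
        exact ht.2.2 (hM d t (by omega) hd)
    calc _ ≤ (Ico (d - c) d).card := card_le_card this
      _ ≤ c := by rw [Nat.card_Ico]; omega
  · have : ((range R).filter (fun t => M (t + c) ∧ ¬ M t)) = ∅ := by
      apply filter_eq_empty_iff.mpr
      intro t _ ht
      exact h ⟨_, ht.1⟩
    rw [this]; simp

/-- Tree-or-cut lemma: either a cheap connected set meets all the sets, or there is a cheap cut. -/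
lemma tree_or_cut {m : ℕ} (P : SimpleGraph Z) (B : Finset Z) (A : Fin (m + 1) → Finset Z)
    (c : Z → ℕ) (R : ℕ) (hR : 0 < R) :
    (∃ T ⊆ B, Conn P T ∧ (∀ i, (T ∩ A i).Nonempty) ∧ ∑ z ∈ T, c z ≤ R) ∨
    (∃ S ⊆ B, R * ∑ z ∈ S, c z ≤ (m + 1) * ∑ z ∈ B, c z ^ 2 ∧
      ∀ T ⊆ B, Conn P T → Disjoint T S → ∃ i, ¬ (T ∩ A i).Nonempty) := by
  classical
  by_contra hcon
  push Not at hcon
  obtain ⟨h1, h2⟩ := hcon
  -- `M i v n`: a connected set through `v` meeting `A 0, ..., A i` of cost at most `n`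
  let M : ℕ → Z → ℕ → Prop := fun i v n => ∃ T ⊆ B, Conn P T ∧ v ∈ T ∧
    (∀ j : Fin (m + 1), j.val ≤ i → (T ∩ A j).Nonempty) ∧ ∑ z ∈ T, c z ≤ n
  have hMmono : ∀ i v a b, a ≤ b → M i v a → M i v b := by
    rintro i v a b hab ⟨T, hTB, hT, hv, hj, hc⟩
    exact ⟨T, hTB, hT, hv, hj, hc.trans hab⟩
  let S : ℕ → Finset Z := fun t => B.filter (fun v => ∃ i : Fin (m + 1),
    M i.val v (t + c v) ∧ ¬ M i.val v t)
  have hsum : ∑ t ∈ range R, ∑ z ∈ S t, c z ≤ (m + 1) * ∑ z ∈ B, c z ^ 2 := by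
    have hstep : ∀ t, ∑ z ∈ S t, c z ≤ ∑ z ∈ B, ∑ i : Fin (m + 1),
        (if M i.val z (t + c z) ∧ ¬ M i.val z t then c z else 0) := by
      intro t
      simp only [S]
      rw [sum_filter]
      apply sum_le_sum
      intro z _
      split_ifs with h
      · obtain ⟨i, hi⟩ := h
        calc c z = (if M i.val z (t + c z) ∧ ¬ M i.val z t then c z else 0) := by rw [if_pos hi]
          _ ≤ _ := single_le_sum
            (f := fun i : Fin (m + 1) => (if M i.val z (t + c z) ∧ ¬ M i.val z t then c z else 0))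
            (fun _ _ => Nat.zero_le _) (mem_univ i)
      · exact Nat.zero_le _
    calc ∑ t ∈ range R, ∑ z ∈ S t, c z
        ≤ ∑ t ∈ range R, ∑ z ∈ B, ∑ i : Fin (m + 1),
            (if M i.val z (t + c z) ∧ ¬ M i.val z t then c z else 0) := sum_le_sum fun t _ => hstep t
      _ = ∑ z ∈ B, ∑ i : Fin (m + 1), ∑ t ∈ range R,
            (if M i.val z (t + c z) ∧ ¬ M i.val z t then c z else 0) := by
          rw [sum_comm]
          apply sum_congr rfl
          intro z _
          rw [sum_comm]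
      _ ≤ ∑ z ∈ B, ∑ i : Fin (m + 1), c z ^ 2 := by
          apply sum_le_sum; intro z _
          apply sum_le_sum; intro i _
          rw [← sum_filter, sum_const, smul_eq_mul, sq]
          exact Nat.mul_le_mul_right _ (card_threshold (M i.val z) (hMmono i.val z) R (c z))
      _ = (m + 1) * ∑ z ∈ B, c z ^ 2 := by
          rw [mul_sum]; apply sum_congr rfl; intro z _; simp
  obtain ⟨t, htR, ht⟩ : ∃ t ∈ range R, R * ∑ z ∈ S t, c z ≤ (m + 1) * ∑ z ∈ B, c z ^ 2 := by
    by_contra hno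
    push Not at hno
    have : ∑ t ∈ range R, ((m + 1) * ∑ z ∈ B, c z ^ 2) < ∑ t ∈ range R, (R * ∑ z ∈ S t, c z) :=
      sum_lt_sum_of_nonempty ⟨0, mem_range.mpr hR⟩ hno
    rw [sum_const, card_range, smul_eq_mul, ← mul_sum (range R) (fun t => ∑ z ∈ S t, c z) R]
      at this
    exact absurd (Nat.mul_le_mul_left R hsum) (not_le.mpr this)
  rw [mem_range] at htR
  obtain ⟨T, hTB, hT, hTS, hTA⟩ := h2 (S t) (filter_subset _ _) ht
  have hnotS : ∀ v ∈ T, ∀ i : Fin (m + 1), M i.val v (t + c v) → M i.val v t := by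
    intro v hv i hi
    by_contra hno
    exact disjoint_left.mp hTS hv (mem_filter.mpr ⟨hTB hv, i, hi, hno⟩)
  have prop : ∀ i : Fin (m + 1), (∃ v ∈ T, M i.val v t) → ∀ v ∈ T, M i.val v t := by
    rintro i ⟨v, hv, hM⟩
    refine hT.induct (fun v => M i.val v t) hv hM ?_
    rintro x hx y hy hxy ⟨T', hT'B, hT', hxT', hj, hc⟩
    apply hnotS y hy i
    refine ⟨insert y T', insert_subset (hTB hy) hT'B, conn_insert hT' hxT' hxy,
      mem_insert_self _ _, fun j hji => (hj j hji).mono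
        (inter_subset_inter_right (subset_insert _ _)), ?_⟩
    calc ∑ z ∈ insert y T', c z ≤ c y + ∑ z ∈ T', c z := by
          by_cases hyT : y ∈ T'
          · rw [insert_eq_of_mem hyT]; omega
          · rw [sum_insert hyT]
      _ ≤ t + c y := by omega
  have all : ∀ i : ℕ, ∀ hi : i < m + 1, ∀ v ∈ T, M i v t := by
    intro i
    induction i with
    | zero =>
      intro hi
      refine prop ⟨0, hi⟩ ?_
      obtain ⟨a, ha⟩ := hTA ⟨0, hi⟩
      rw [mem_inter] at ha
      refine ⟨a, ha.1, hnotS a ha.1 ⟨0, hi⟩ ⟨{a}, singleton_subset_iff.mpr (hTB ha.1),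
        conn_singleton P a, mem_singleton_self a, ?_, by simp⟩⟩
      intro j hj
      have : j = ⟨0, hi⟩ := Fin.ext (by simpa using hj)
      rw [this]
      exact ⟨a, mem_inter.mpr ⟨mem_singleton_self a, ha.2⟩⟩
    | succ i ih =>
      intro hi
      refine prop ⟨i + 1, hi⟩ ?_
      obtain ⟨a, ha⟩ := hTA ⟨i + 1, hi⟩
      rw [mem_inter] at ha
      obtain ⟨T', hT'B, hT', haT', hj, hc⟩ := ih (by omega) a ha.1
      refine ⟨a, ha.1, T', hT'B, hT', haT', ?_, hc⟩
      intro l hl
      rcases Nat.lt_or_ge i l.val with h | h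
      · have : l = ⟨i + 1, hi⟩ := Fin.ext (by simp at hl ⊢; omega)
        rw [this]; exact ⟨a, mem_inter.mpr ⟨haT', ha.2⟩⟩
      · exact hj l h
  obtain ⟨v, hv⟩ := hT.1
  obtain ⟨T', hT'B, hT', hvT', hj, hc⟩ := all m (by omega) v hv
  have := h1 T' hT'B hT' (fun i => hj i (by omega))
  omega

/-- `P` has no `K_m` model. -/
def NoK (m : ℕ) (P : SimpleGraph Z) : Prop :=
  ∀ C : Fin m → Finset Z, (∀ i, Conn P (C i)) → (∀ i j, i ≠ j → Disjoint (C i) (C j)) →
    (∀ i j, i ≠ j → ∃ x ∈ C i, ∃ y ∈ C j, P.Adj x y) → False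

lemma heavy_inter [Fintype Z] (w : Z → ℕ) {X Y : Finset Z}
    (hX : ∑ z, w z < 2 * ∑ z ∈ X, w z) (hY : ∑ z, w z < 2 * ∑ z ∈ Y, w z) :
    ∃ z ∈ X, z ∈ Y := by
  by_contra hcon
  push Not at hcon
  have hd : Disjoint X Y := disjoint_left.mpr hcon
  have : ∑ z ∈ X, w z + ∑ z ∈ Y, w z ≤ ∑ z, w z := by
    rw [← sum_union hd]; exact sum_le_sum_of_subset (subset_univ _)
  omega

/-- Core induction of the separator theorem (after Alon, Seymour and Thomas). -/
lemma sep_core {m : ℕ} [Fintype Z] (P : SimpleGraph Z) (hP : NoK (m + 1) P) (c w : Z → ℕ) (R : ℕ) (hR : 0 < R)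
    (hcR : (m + 1) * ∑ z, c z ^ 2 ≤ R ^ 2)
    (H : ∀ S : Finset Z, ∑ z ∈ S, c z ≤ (m + 1) * R →
      ∃ T, Conn P T ∧ Disjoint T S ∧ ∑ z, w z < 2 * ∑ z ∈ T, w z) :
    ∀ (n : ℕ) (I : Finset (Fin (m + 1))) (C S : Fin (m + 1) → Finset Z) (B : Finset Z), B.card = n →
      (∀ i ∈ I, Conn P (C i)) → (∀ i ∈ I, S i ⊆ C i) → (∀ i ∈ I, ∑ z ∈ S i, c z ≤ R) →
      (∀ i ∈ I, ∀ j ∈ I, i ≠ j → Disjoint (C i) (C j)) →
      (∀ i ∈ I, ∀ j ∈ I, i ≠ j → ∃ x ∈ C i, ∃ y ∈ C j, P.Adj x y) →
      (∀ i ∈ I, Disjoint B (C i)) →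
      (∀ x ∈ B, ∀ y, P.Adj x y → y ∈ B ∨ ∃ i ∈ I, y ∈ S i) →
      ∑ z, w z < 2 * ∑ z ∈ B, w z → False := by
  classical
  -- heavy maximal connected sets
  have H' : ∀ S : Finset Z, ∑ z ∈ S, c z ≤ (m + 1) * R → ∃ B, Conn P B ∧ Disjoint B S ∧
      (∀ x ∈ B, ∀ y, P.Adj x y → y ∈ B ∨ y ∈ S) ∧ ∑ z, w z < 2 * ∑ z ∈ B, w z := by
    intro S hS
    obtain ⟨T, hT, hTS, hTw⟩ := H S hS
    obtain ⟨B, hTB, hB, hBS, hmax⟩ := exists_max_conn hT hTS
    refine ⟨B, hB, hBS, hmax, lt_of_lt_of_le hTw ?_⟩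
    have := sum_le_sum_of_subset (f := w) hTB
    omega
  intro n
  induction n using Nat.strong_induction_on with
  | _ n ih =>
  intro I₀ C S B hBn hC₀ hSC₀ hSR₀ hdis₀ hadj₀ hBC₀ hflap₀ hBw
  have hBne : B.Nonempty := by
    rw [nonempty_iff_ne_empty]; rintro rfl; simp at hBw
  -- keep only the members adjacent to `B`
  obtain ⟨I, hII, hI⟩ : ∃ I ⊆ I₀, ∀ i, i ∈ I ↔ i ∈ I₀ ∧ ∃ x ∈ B, ∃ y ∈ S i, P.Adj x y :=
    ⟨I₀.filter (fun i => ∃ x ∈ B, ∃ y ∈ S i, P.Adj x y), filter_subset _ _, fun i => mem_filter⟩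
  have hC : ∀ i ∈ I, Conn P (C i) := fun i hi => hC₀ i (hII hi)
  have hSC : ∀ i ∈ I, S i ⊆ C i := fun i hi => hSC₀ i (hII hi)
  have hSR : ∀ i ∈ I, ∑ z ∈ S i, c z ≤ R := fun i hi => hSR₀ i (hII hi)
  have hdis : ∀ i ∈ I, ∀ j ∈ I, i ≠ j → Disjoint (C i) (C j) :=
    fun i hi j hj => hdis₀ i (hII hi) j (hII hj)
  have hadj : ∀ i ∈ I, ∀ j ∈ I, i ≠ j → ∃ x ∈ C i, ∃ y ∈ C j, P.Adj x y :=
    fun i hi j hj => hadj₀ i (hII hi) j (hII hj)
  have hBC : ∀ i ∈ I, Disjoint B (C i) := fun i hi => hBC₀ i (hII hi)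
  have hflap : ∀ x ∈ B, ∀ y, P.Adj x y → y ∈ B ∨ ∃ i ∈ I, y ∈ S i := by
    intro x hx y hxy
    rcases hflap₀ x hx y hxy with h | ⟨i, hi, hy⟩
    · exact Or.inl h
    · exact Or.inr ⟨i, (hI i).mpr ⟨hi, x, hx, y, hy, hxy⟩, hy⟩
  have hIadj : ∀ i ∈ I, ∃ x ∈ B, ∃ y ∈ S i, P.Adj x y := fun i hi => ((hI i).mp hi).2
  clear hC₀ hSC₀ hSR₀ hdis₀ hadj₀ hBC₀ hflap₀ hI
  -- `I` is not everything
  obtain ⟨i₀, hi₀⟩ : ∃ i₀, i₀ ∉ I := by
    by_contra hall
    push Not at hall
    exact hP C (fun i => hC i (hall i)) (fun i j => hdis i (hall i) j (hall j))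
      (fun i j => hadj i (hall i) j (hall j))
  have hIcard : I.card ≤ m := by
    have : I ⊆ univ.erase i₀ := fun i hi => mem_erase.mpr ⟨fun h => hi₀ (h ▸ hi), mem_univ _⟩
    have := card_le_card this
    rw [card_erase_of_mem (mem_univ _), card_univ, Fintype.card_fin] at this
    omega
  -- any heavy connected set avoiding all `S i` lies in `B`
  have hsub : ∀ B', Conn P B' → (∀ i ∈ I, Disjoint B' (S i)) →
      ∑ z, w z < 2 * ∑ z ∈ B', w z → B' ⊆ B := by
    intro B' hB' hd hw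
    obtain ⟨z, hz, hzB⟩ := heavy_inter w hw hBw
    refine hB'.induct (· ∈ B) hz hzB ?_
    intro x hx y hy hxy hxB
    rcases hflap x hxB y hxy with h | ⟨i, hi, hyS⟩
    · exact h
    · exact absurd hyS (disjoint_left.mp (hd i hi) hy)
  let A : Fin (m + 1) → Finset Z := fun i => if i ∈ I then B.filter (fun x => ∃ y ∈ S i, P.Adj x y) else B
  have hAI : ∀ i ∈ I, A i = B.filter (fun x => ∃ y ∈ S i, P.Adj x y) := fun i hi => if_pos hi
  have hAnI : ∀ i, i ∉ I → A i = B := fun i hi => if_neg hi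
  rcases tree_or_cut P B A c R hR with ⟨T, hTB, hT, hTA, hTc⟩ | ⟨S₀, hS₀B, hS₀c, hS₀⟩
  · -- a new member of the family
    have hI'c : (insert i₀ I).card ≤ m + 1 := (card_insert_le _ _).trans (by omega)
    have hcost : ∑ z ∈ (insert i₀ I).biUnion (Function.update S i₀ T), c z ≤ (m + 1) * R := by
      calc ∑ z ∈ (insert i₀ I).biUnion (Function.update S i₀ T), c z
          ≤ ∑ i ∈ insert i₀ I, ∑ z ∈ Function.update S i₀ T i, c z := sum_biUnion_le _ _ _
        _ ≤ ∑ i ∈ insert i₀ I, R := by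
          apply sum_le_sum
          intro i hi
          by_cases h : i = i₀
          · rw [h, Function.update_self]; exact hTc
          · rw [Function.update_of_ne h]
            exact hSR i ((mem_insert.mp hi).resolve_left h)
        _ ≤ (m + 1) * R := by rw [sum_const, smul_eq_mul]; exact Nat.mul_le_mul_right _ hI'c
    obtain ⟨B', hB', hB'd, hB'max, hB'w⟩ := H' _ hcost
    have hB'T : Disjoint B' T := by
      refine disjoint_left.mpr fun x hx hxT => disjoint_left.mp hB'd hx ?_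
      exact mem_biUnion.mpr ⟨i₀, mem_insert_self _ _, by rwa [Function.update_self]⟩
    have hB'S : ∀ i ∈ I, Disjoint B' (S i) := by
      intro i hi
      refine disjoint_left.mpr fun x hx hxT => disjoint_left.mp hB'd hx ?_
      exact mem_biUnion.mpr ⟨i, mem_insert_of_mem hi, by
        rwa [Function.update_of_ne (fun h : i = i₀ => hi₀ (h ▸ hi))]⟩
    have hB'B : B' ⊆ B := hsub B' hB' hB'S hB'w
    have hcard : B'.card < n := by
      rw [← hBn]
      apply card_lt_card
      refine ⟨hB'B, fun hBB' => ?_⟩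
      obtain ⟨t, ht⟩ := hT.1
      exact disjoint_left.mp hB'T (hBB' (hTB ht)) ht
    have hTadj : ∀ i ∈ I, ∃ x ∈ T, ∃ y ∈ C i, P.Adj x y := by
      intro i hi
      obtain ⟨x, hx⟩ := hTA i
      rw [hAI i hi, mem_inter, mem_filter] at hx
      obtain ⟨hxT, hxB, y, hy, hxy⟩ := hx
      exact ⟨x, hxT, y, hSC i hi hy, hxy⟩
    refine ih B'.card hcard (insert i₀ I) (Function.update C i₀ T) (Function.update S i₀ T) B' rfl
      ?_ ?_ ?_ ?_ ?_ ?_ ?_ hB'w
    · intro i hi
      by_cases h : i = i₀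
      · rw [h, Function.update_self]; exact hT
      · rw [Function.update_of_ne h]; exact hC i ((mem_insert.mp hi).resolve_left h)
    · intro i hi
      by_cases h : i = i₀
      · rw [h, Function.update_self, Function.update_self]
      · rw [Function.update_of_ne h, Function.update_of_ne h]
        exact hSC i ((mem_insert.mp hi).resolve_left h)
    · intro i hi
      by_cases h : i = i₀
      · rw [h, Function.update_self]; exact hTc
      · rw [Function.update_of_ne h]; exact hSR i ((mem_insert.mp hi).resolve_left h)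
    · intro i hi j hj hij
      by_cases h : i = i₀
      · have hj' : j ≠ i₀ := fun h' => hij (h.trans h'.symm)
        rw [h, Function.update_self, Function.update_of_ne hj']
        exact (hBC j ((mem_insert.mp hj).resolve_left hj')).mono_left hTB
      · have hiI := (mem_insert.mp hi).resolve_left h
        by_cases h' : j = i₀
        · rw [h', Function.update_self, Function.update_of_ne h]
          exact ((hBC i hiI).mono_left hTB).symm
        · rw [Function.update_of_ne h, Function.update_of_ne h']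
          exact hdis i hiI j ((mem_insert.mp hj).resolve_left h') hij
    · intro i hi j hj hij
      by_cases h : i = i₀
      · have hj' : j ≠ i₀ := fun h' => hij (h.trans h'.symm)
        rw [h, Function.update_self, Function.update_of_ne hj']
        exact hTadj j ((mem_insert.mp hj).resolve_left hj')
      · have hiI := (mem_insert.mp hi).resolve_left h
        by_cases h' : j = i₀
        · rw [h', Function.update_self, Function.update_of_ne h]
          obtain ⟨x, hx, y, hy, hxy⟩ := hTadj i hiI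
          exact ⟨y, hy, x, hx, hxy.symm⟩
        · rw [Function.update_of_ne h, Function.update_of_ne h']
          exact hadj i hiI j ((mem_insert.mp hj).resolve_left h') hij
    · intro i hi
      by_cases h : i = i₀
      · rw [h, Function.update_self]; exact hB'T
      · rw [Function.update_of_ne h]
        exact (hBC i ((mem_insert.mp hi).resolve_left h)).mono_left hB'B
    · intro x hx y hxy
      rcases hB'max x hx y hxy with h | h
      · exact Or.inl h
      · rw [mem_biUnion] at h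
        exact Or.inr h
  · -- a cheap cut
    have hS₀R : ∑ z ∈ S₀, c z ≤ R := by
      have h1 : (m + 1) * ∑ z ∈ B, c z ^ 2 ≤ R ^ 2 :=
        (Nat.mul_le_mul_left (m + 1) (sum_le_sum_of_subset (subset_univ _))).trans hcR
      have h2 := hS₀c.trans h1
      rw [sq] at h2
      exact Nat.le_of_mul_le_mul_left h2 hR
    have hcost : ∑ z ∈ I.biUnion S ∪ S₀, c z ≤ (m + 1) * R := by
      calc ∑ z ∈ I.biUnion S ∪ S₀, c z ≤ ∑ z ∈ I.biUnion S, c z + ∑ z ∈ S₀, c z :=
            sum_union_le _ _ _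
        _ ≤ ∑ i ∈ I, ∑ z ∈ S i, c z + R := Nat.add_le_add (sum_biUnion_le _ _ _) hS₀R
        _ ≤ ∑ i ∈ I, R + R := Nat.add_le_add_right (sum_le_sum hSR) _
        _ ≤ (m + 1) * R := by
          rw [sum_const, smul_eq_mul]
          have := Nat.mul_le_mul_right R hIcard
          rw [Nat.add_mul, Nat.one_mul]
          omega
    obtain ⟨B', hB', hB'd, hB'max, hB'w⟩ := H' _ hcost
    rw [disjoint_union_right] at hB'd
    have hB'S : ∀ i ∈ I, Disjoint B' (S i) := fun i hi =>
      hB'd.1.mono_right (subset_biUnion_of_mem S hi)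
    have hB'B : B' ⊆ B := hsub B' hB' hB'S hB'w
    obtain ⟨i, hi⟩ := hS₀ B' hB'B hB' hB'd.2
    have hiI : i ∈ I := by
      by_contra h
      rw [hAnI i h, inter_eq_left.mpr hB'B] at hi
      exact hi hB'.1
    rw [hAI i hiI] at hi
    -- the part of `B` hanging on `C i`
    obtain ⟨D, hDmem⟩ : ∃ D : Finset Z, ∀ x, x ∈ D ↔ ∃ T ⊆ B \ B', Conn P T ∧ x ∈ T ∧
        ∃ a ∈ T, ∃ y ∈ S i, P.Adj a y :=
      ⟨univ.filter (fun x => ∃ T ⊆ B \ B', Conn P T ∧ x ∈ T ∧ ∃ a ∈ T, ∃ y ∈ S i, P.Adj a y),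
        fun x => by simp⟩
    have hDB : D ⊆ B \ B' := by
      intro x hx
      obtain ⟨T, hT, -, hxT, -⟩ := (hDmem x).mp hx
      exact hT hxT
    have hAD : ∀ x ∈ B, (∃ y ∈ S i, P.Adj x y) → x ∈ D := by
      intro x hxB hxy
      refine (hDmem x).mpr ⟨{x}, ?_, conn_singleton P x, mem_singleton_self x, x,
        mem_singleton_self x, hxy⟩
      rw [singleton_subset_iff, mem_sdiff]
      refine ⟨hxB, fun hxB' => hi ⟨x, ?_⟩⟩
      rw [mem_inter, mem_filter]
      exact ⟨hxB', hxB, hxy⟩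
    have hDclosed : ∀ x ∈ B, x ∉ B' → ∀ y ∈ D, P.Adj x y → x ∈ D := by
      intro x hxB hxB' y hy hxy
      obtain ⟨T, hT, hTc, hyT, a, ha, z, hz, haz⟩ := (hDmem y).mp hy
      refine (hDmem x).mpr ⟨insert x T, ?_, conn_insert hTc hyT hxy.symm, mem_insert_self _ _,
        a, mem_insert_of_mem ha, z, hz, haz⟩
      exact insert_subset (mem_sdiff.mpr ⟨hxB, hxB'⟩) hT
    obtain ⟨Si, hSi⟩ : ∃ Si : Finset Z, ∀ x, x ∈ Si ↔ x ∈ D ∧ ∃ y ∈ B', P.Adj x y :=
      ⟨D.filter (fun x => ∃ y ∈ B', P.Adj x y), fun x => mem_filter⟩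
    have hSiS₀ : Si ⊆ S₀ := by
      intro x hx
      obtain ⟨hxD, y, hy, hxy⟩ := (hSi x).mp hx
      have hxB := mem_sdiff.mp (hDB hxD)
      rcases hB'max y hy x hxy.symm with h | h
      · exact absurd h hxB.2
      · rcases mem_union.mp h with h | h
        · rw [mem_biUnion] at h
          obtain ⟨j, hj, hxj⟩ := h
          exact absurd (hSC j hj hxj) (disjoint_left.mp (hBC j hj) hxB.1)
        · exact h
    have hSiR : ∑ z ∈ Si, c z ≤ R := (sum_le_sum_of_subset hSiS₀).trans hS₀R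
    have hCi : Conn P (C i ∪ D) := by
      apply conn_union (hC i hiI)
      intro x hx
      obtain ⟨T, hT, hTc, hxT, a, ha, z, hz, haz⟩ := (hDmem x).mp hx
      refine ⟨T, ?_, hTc, hxT, a, ha, z, hSC i hiI hz, haz⟩
      intro t ht
      exact (hDmem t).mpr ⟨T, hT, hTc, ht, a, ha, z, hz, haz⟩
    have hcost2 : ∑ z ∈ I.biUnion (Function.update S i Si), c z ≤ (m + 1) * R := by
      calc ∑ z ∈ I.biUnion (Function.update S i Si), c z
          ≤ ∑ j ∈ I, ∑ z ∈ Function.update S i Si j, c z := sum_biUnion_le _ _ _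
        _ ≤ ∑ j ∈ I, R := by
          apply sum_le_sum
          intro j hj
          by_cases h : j = i
          · rw [h, Function.update_self]; exact hSiR
          · rw [Function.update_of_ne h]; exact hSR j hj
        _ ≤ (m + 1) * R := by
          rw [sum_const, smul_eq_mul]; exact Nat.mul_le_mul_right _ (by omega)
    obtain ⟨B'', hB'', hB''d, hB''max, hB''w⟩ := H' _ hcost2
    have hB''Si : Disjoint B'' Si := by
      refine disjoint_left.mpr fun x hx hxT => disjoint_left.mp hB''d hx ?_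
      exact mem_biUnion.mpr ⟨i, hiI, by rwa [Function.update_self]⟩
    have hB''S : ∀ j ∈ I, j ≠ i → Disjoint B'' (S j) := by
      intro j hj hji
      refine disjoint_left.mpr fun x hx hxT => disjoint_left.mp hB''d hx ?_
      exact mem_biUnion.mpr ⟨j, hj, by rwa [Function.update_of_ne hji]⟩
    have hB''BD : B'' ⊆ B \ D := by
      obtain ⟨z, hz, hzB'⟩ := heavy_inter w hB''w hB'w
      refine hB''.induct (· ∈ B \ D) hz (mem_sdiff.mpr ⟨hB'B hzB', fun h =>
        (mem_sdiff.mp (hDB h)).2 hzB'⟩) ?_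
      intro x hx y hy hxy hxBD
      rw [mem_sdiff] at hxBD ⊢
      have hyB : y ∈ B := by
        rcases hflap x hxBD.1 y hxy with h | ⟨j, hj, hyj⟩
        · exact h
        · by_cases hji : j = i
          · rw [hji] at hyj
            exact absurd (hAD x hxBD.1 ⟨y, hyj, hxy⟩) hxBD.2
          · exact absurd hyj (disjoint_left.mp (hB''S j hj hji) hy)
      refine ⟨hyB, fun hyD => ?_⟩
      by_cases hxB' : x ∈ B'
      · exact disjoint_left.mp hB''Si hy ((hSi y).mpr ⟨hyD, x, hxB', hxy.symm⟩)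
      · exact hxBD.2 (hDclosed x hxBD.1 hxB' y hyD hxy)
    have hcard : B''.card < n := by
      rw [← hBn]
      apply card_lt_card
      refine ⟨hB''BD.trans sdiff_subset, fun hBB => ?_⟩
      obtain ⟨x, hx, y, hy, hxy⟩ := hIadj i hiI
      exact (mem_sdiff.mp (hB''BD (hBB hx))).2 (hAD x hx ⟨y, hy, hxy⟩)
    have hDC : ∀ j ∈ I, Disjoint D (C j) := fun j hj =>
      (hBC j hj).mono_left (hDB.trans sdiff_subset)
    refine ih B''.card hcard I (Function.update C i (C i ∪ D)) (Function.update S i Si) B'' rfl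
      ?_ ?_ ?_ ?_ ?_ ?_ ?_ hB''w
    · intro j hj
      by_cases h : j = i
      · rw [h, Function.update_self]; exact hCi
      · rw [Function.update_of_ne h]; exact hC j hj
    · intro j hj
      by_cases h : j = i
      · rw [h, Function.update_self, Function.update_self]
        exact fun x hx => mem_union_right _ ((hSi x).mp hx).1
      · rw [Function.update_of_ne h, Function.update_of_ne h]; exact hSC j hj
    · intro j hj
      by_cases h : j = i
      · rw [h, Function.update_self]; exact hSiR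
      · rw [Function.update_of_ne h]; exact hSR j hj
    · intro j hj l hl hjl
      by_cases h : j = i
      · have hl' : l ≠ i := fun h' => hjl (h.trans h'.symm)
        rw [h, Function.update_self, Function.update_of_ne hl']
        exact disjoint_union_left.mpr ⟨hdis i hiI l hl (Ne.symm hl'), hDC l hl⟩
      · by_cases h' : l = i
        · rw [h', Function.update_self, Function.update_of_ne h]
          exact disjoint_union_right.mpr ⟨hdis j hj i hiI h, (hDC j hj).symm⟩
        · rw [Function.update_of_ne h, Function.update_of_ne h']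
          exact hdis j hj l hl hjl
    · intro j hj l hl hjl
      by_cases h : j = i
      · have hl' : l ≠ i := fun h' => hjl (h.trans h'.symm)
        rw [h, Function.update_self, Function.update_of_ne hl']
        obtain ⟨x, hx, y, hy, hxy⟩ := hadj i hiI l hl (Ne.symm hl')
        exact ⟨x, mem_union_left _ hx, y, hy, hxy⟩
      · by_cases h' : l = i
        · rw [h', Function.update_self, Function.update_of_ne h]
          obtain ⟨x, hx, y, hy, hxy⟩ := hadj j hj i hiI h
          exact ⟨x, hx, y, mem_union_left _ hy, hxy⟩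
        · rw [Function.update_of_ne h, Function.update_of_ne h']
          exact hadj j hj l hl hjl
    · intro j hj
      by_cases h : j = i
      · rw [h, Function.update_self, disjoint_union_right]
        refine ⟨(hBC i hiI).mono_left (hB''BD.trans sdiff_subset), ?_⟩
        exact disjoint_left.mpr fun x hx hxD => (mem_sdiff.mp (hB''BD hx)).2 hxD
      · rw [Function.update_of_ne h]
        exact (hBC j hj).mono_left (hB''BD.trans sdiff_subset)
    · intro x hx y hxy
      rcases hB''max x hx y hxy with h | h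
      · exact Or.inl h
      · rw [mem_biUnion] at h
        exact Or.inr h

/-- Separator theorem with costs and weights for graphs without `K_m` model. -/
theorem separator {m : ℕ} [Fintype Z] (P : SimpleGraph Z) (hP : NoK (m + 1) P) (c w : Z → ℕ) (R : ℕ)
    (hR : 0 < R) (hcR : (m + 1) * ∑ z, c z ^ 2 ≤ R ^ 2) :
    ∃ S : Finset Z, ∑ z ∈ S, c z ≤ (m + 1) * R ∧
      ∀ T, Conn P T → Disjoint T S → 2 * ∑ z ∈ T, w z ≤ ∑ z, w z := by
  classical
  by_contra hcon
  push Not at hcon
  obtain ⟨T, hT, hTd, hTw⟩ := hcon ∅ (by simp)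
  obtain ⟨B, hTB, hB, hBd, hBmax⟩ := exists_max_conn hT hTd
  refine sep_core P hP c w R hR hcR hcon B.card ∅ (fun _ => ∅) (fun _ => ∅) B rfl (by simp)
    (by simp) (by simp) (by simp) (by simp) (by simp) ?_ (lt_of_lt_of_le hTw ?_)
  · intro x hx y hxy
    rcases hBmax x hx y hxy with h | h
    · exact Or.inl h
    · simp at h
  · have := sum_le_sum_of_subset (f := w) hTB
    omega

end Pool.Agent.Q275.Sep
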