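import Mathlib

/-!
# Multigraphs, unique shortest paths, parade number, spectator number and floor
-/

set_option autoImplicit false

namespace Pool.Agent.Q275.Spec

/-- A multigraph without loops on the vertex set `V`: `m a b` is the number of edges joining `a`
and `b`. -/
structure MG (V : Type) where
  m : V → V → ℕ
  symm : ∀ a b, m a b = m b a
  loopless : ∀ a, m a a = 0

/-- `Steps G u l v`: `l` is a walk from `u` to `v`; each entry `(x, i)` of `l` means: go to `x`
along the `i`-th of the parallel edges (`i < m _ x`). -/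
def Steps {V : Type} (G : MG V) : V → List (V × ℕ) → V → Prop
  | u, [], v => u = v
  | u, (x, i) :: l, v => i < G.m u x ∧ Steps G x l v

/-- `l` is a path from `u` to `v` (a walk with distinct vertices); its order is `l.length + 1`. -/
def IsPath {V : Type} (G : MG V) (u : V) (l : List (V × ℕ)) (v : V) : Prop :=
  Steps G u l v ∧ (u :: l.map Prod.fst).Nodup

/-- `l` is a unique shortest path from `u` to `v`. -/
def IsUSP {V : Type} (G : MG V) (u : V) (l : List (V × ℕ)) (v : V) : Prop :=
  IsPath G u l v ∧ (∀ l', IsPath G u l' v → l.length ≤ l'.length) ∧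
    (∀ l', IsPath G u l' v → l'.length = l.length → l' = l)

/-- the parade number: the largest order of a unique shortest path -/
noncomputable def usp {V : Type} (G : MG V) : ℕ :=
  sSup {p | ∃ u l v, IsUSP G u l v ∧ p = l.length + 1}

/-- the spectator number -/
noncomputable def sp {V : Type} (G : MG V) : ℕ := Nat.card V - usp G

/-- `K` arises from `H` by deleting an isolated vertex (up to renaming vertices) -/
def IsDelVertex {W X : Type} (H : MG W) (K : MG X) : Prop :=
  ∃ (v : W) (f : X → W), (∀ a, H.m v a = 0) ∧ Function.Injective f ∧ (∀ w, w ≠ v ↔ ∃ x, f x = w) ∧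
    ∀ a b, K.m a b = H.m (f a) (f b)

/-- `K` arises from `H` by deleting an edge -/
def IsDelEdge {W : Type} (H K : MG W) : Prop :=
  ∃ a b, H.m a b = K.m a b + 1 ∧
    ∀ c d, ¬ (c = a ∧ d = b) → ¬ (c = b ∧ d = a) → K.m c d = H.m c d

/-- `K` arises from `H` by contracting an edge `uv` that has no edge parallel to it (up to
renaming vertices): `π` is the quotient map, and the edges between two vertices of `K` are all the
edges of `H` between the corresponding sets. -/
def IsContr {W X : Type} (H : MG W) (K : MG X) : Prop :=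
  ∃ (u v : W) (π : W → X), u ≠ v ∧ H.m u v = 1 ∧ Function.Surjective π ∧
    (∀ a b, π a = π b ↔ a = b ∨ (a = u ∧ b = v) ∨ (a = v ∧ b = u)) ∧
    ∀ x y, x ≠ y → K.m x y = ∑ᶠ (p : W × W) (_ : π p.1 = x ∧ π p.2 = y), H.m p.1 p.2

/-- `MinorOf G H`: `G` is a minor of `H`. -/
inductive MinorOf : ∀ {V W : Type}, MG V → MG W → Prop
  | iso {V W : Type} {G : MG V} {H : MG W} (e : V ≃ W) (h : ∀ a b, H.m (e a) (e b) = G.m a b) :
      MinorOf G H
  | delVertex {V W X : Type} {G : MG V} {H : MG W} {K : MG X} (h : IsDelVertex H K)
      (hG : MinorOf G K) : MinorOf G H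
  | delEdge {V W : Type} {G : MG V} {H : MG W} {K : MG W} (h : IsDelEdge H K)
      (hG : MinorOf G K) : MinorOf G H
  | contract {V W X : Type} {G : MG V} {H : MG W} {K : MG X} (h : IsContr H K)
      (hG : MinorOf G K) : MinorOf G H

/-- the spectator floor -/
noncomputable def sf {V : Type} (G : MG V) : ℕ :=
  sInf {s | ∃ (W : Type) (_ : Finite W) (H : MG W), MinorOf G H ∧ s = sp H}

/-- `F` is obtained from `G` by adding edges -/
def Supergraph {V : Type} (G F : MG V) : Prop := ∀ a b, G.m a b ≤ F.m a b

end Pool.Agent.Q275.Spec
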