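import Pool.Agent.Q275.SpecProof

set_option autoImplicit false

namespace Pool.Agent.Q275.Spec

variable {V W X : Type}

/-- merging the levels `κ` and `κ + 1` -/
def sh (κ t : ℕ) : ℕ := if t ≤ κ then t else t - 1

lemma sh_lip {κ s t : ℕ} (h : s ≤ t + 1) : sh κ s ≤ sh κ t + 1 := by
  unfold sh
  split_ifs <;> omega

/-- the new path -/
def skip (κ : ℕ) (x : ℕ → V) (j : ℕ) : V := if j < κ then x j else x (j + 1)

lemma sh_skip {κ p : ℕ} {f : V → ℕ} {x : ℕ → V} (h : ∀ k < p, f (x k) = k) {j : ℕ}
    (hj : j + 1 < p) : sh κ (f (skip κ x j)) = j := by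
  unfold skip sh
  split_ifs with h1 h2 h2
  · exact h j (by omega)
  · rw [h j (by omega)] at h2 ⊢; omega
  · rw [h (j + 1) hj] at h2 ⊢; omega
  · rw [h (j + 1) hj]; omega

/-! ### Isomorphisms and edge deletion -/

lemma WLS.iso {G : MG V} {H : MG W} (e : V ≃ W) (he : ∀ a b, H.m (e a) (e b) = G.m a b) {p : ℕ}
    {f : W → ℕ} {x : ℕ → W} (h : WLS H p f x) :
    WLS G p (fun a => f (e a)) (fun k => e.symm (x k)) := by
  refine ⟨fun k hk => by simpa using h.lev k hk, fun a b hab => h.lip _ _ (by rwa [he]), ?_, ?_⟩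
  · intro k hk a ha hne
    have := h.down k hk (e a) ha (fun hh => hne (by simp [← hh]))
    rw [← this, ← he]; simp
  · intro k hk
    have := h.one k hk
    rw [← he]
    simpa using this

lemma WLS.mono {H K : MG W} {p : ℕ} {f : W → ℕ} {x : ℕ → W} (h : WLS H p f x)
    (hle : ∀ a b, K.m a b ≤ H.m a b) : WLS K p f x := by
  refine ⟨h.lev, fun a b hab => h.lip a b (lt_of_lt_of_le hab (hle a b)), ?_, ?_⟩
  · intro k hk a ha hne
    have := h.down k hk a ha hne
    have := hle a (x (k + 1))
    omega
  · intro k hk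
    exact (hle _ _).trans (h.one k hk)

lemma IsDelEdge.le {H K : MG W} (h : IsDelEdge H K) (c d : W) : K.m c d ≤ H.m c d := by
  obtain ⟨a, b, h1, h2⟩ := h
  by_cases e1 : c = a ∧ d = b
  · obtain ⟨rfl, rfl⟩ := e1; omega
  · by_cases e2 : c = b ∧ d = a
    · obtain ⟨rfl, rfl⟩ := e2
      rw [K.symm, H.symm]; omega
    · exact (h2 c d e1 e2).le

/-! ### Vertex deletion -/

lemma WLS.delVertex {H : MG W} {K : MG X} [Nonempty X] {v : W} {g : X → W}
    (hg : Function.Injective g)
    (hr : ∀ w, w ≠ v ↔ ∃ x, g x = w) (hm : ∀ a b, K.m a b = H.m (g a) (g b)) {p : ℕ}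
    {f : W → ℕ} {x : ℕ → W} (h : WLS H p f x) :
    ∃ f' x', WLS K (p - 1) f' x' := by
  classical
  set κ := f v with hκ
  have hne : ∀ j, j + 1 < p → skip κ x j ≠ v := by
    intro j hj e
    unfold skip at e
    split_ifs at e with h1
    · have := h.lev j (by omega)
      rw [e] at this; omega
    · have := h.lev (j + 1) hj
      rw [e] at this; omega
  obtain ⟨x', hx'⟩ : ∃ x' : ℕ → X, ∀ j, j + 1 < p → g (x' j) = skip κ x j := by
    refine ⟨fun j => if hj : j + 1 < p then ((hr _).1 (hne j hj)).choose else
      Classical.arbitrary X, ?_⟩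
    intro j hj
    simp only [dif_pos hj]
    exact ((hr _).1 (hne j hj)).choose_spec
  -- the basic claim
  have claim : ∀ j, j + 2 < p → ∀ a, sh κ (f a) = j → 0 < H.m a (skip κ x (j + 1)) →
      a = skip κ x j ∧ H.m a (skip κ x (j + 1)) ≤ 1 := by
    intro j hj a ha hpos
    have hl1 := h.lip a _ hpos
    have hl2 := h.lip _ a (by rw [H.symm]; exact hpos)
    unfold skip at hpos hl1 hl2 ⊢
    by_cases h1 : j + 1 < κ
    · rw [if_pos h1] at hpos hl1 hl2 ⊢
      rw [if_pos (by omega)]
      have hfa : f a = j := by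
        unfold sh at ha; split_ifs at ha <;> omega
      have hax : a = x j := by
        by_contra hcon
        have := h.down j (by omega) a hfa hcon
        omega
      exact ⟨hax, hax ▸ h.one j (by omega)⟩
    · rw [if_neg h1] at hpos hl1 hl2 ⊢
      rw [h.lev (j + 1 + 1) (by omega)] at hl1 hl2
      have hfa : f a = j + 1 ∧ κ ≤ j := by
        unfold sh at ha; split_ifs at ha <;> omega
      rw [if_neg (by omega)]
      have hax : a = x (j + 1) := by
        by_contra hcon
        have := h.down (j + 1) (by omega) a hfa.1 hcon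
        omega
      exact ⟨hax, hax ▸ h.one (j + 1) (by omega)⟩
  refine ⟨fun a => sh κ (f (g a)), x', ?_, ?_, ?_, ?_⟩
  · intro k hk
    show sh κ (f (g (x' k))) = k
    rw [hx' k (by omega)]
    exact sh_skip h.lev (by omega)
  · intro a b hab
    rw [hm] at hab
    exact sh_lip (h.lip _ _ hab)
  · intro k hk a ha hne'
    by_contra hpos
    have hpos : 0 < K.m a (x' (k + 1)) := Nat.pos_of_ne_zero hpos
    rw [hm, hx' (k + 1) (by omega)] at hpos
    have := (claim k (by omega) _ ha hpos).1
    rw [← hx' k (by omega)] at this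
    exact hne' (hg this)
  · intro k hk
    rcases Nat.eq_zero_or_pos (K.m (x' k) (x' (k + 1))) with h0 | h0
    · omega
    · rw [hm, hx' k (by omega), hx' (k + 1) (by omega)] at h0 ⊢
      exact (claim k (by omega) _ (sh_skip h.lev (by omega)) h0).2

/-! ### Contraction -/

lemma WLS.contract {H : MG W} {K : MG X} {u v : W} {π : W → X} (huv : H.m u v = 1)
    (hs : Function.Surjective π)
    (hπ : ∀ a b, π a = π b ↔ a = b ∨ (a = u ∧ b = v) ∨ (a = v ∧ b = u))
    (hm : ∀ x y, x ≠ y → K.m x y = ∑ᶠ (p : W × W) (_ : π p.1 = x ∧ π p.2 = y), H.m p.1 p.2)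
    {p : ℕ} {f : W → ℕ} {x : ℕ → W} (h : WLS H p f x) (hf : f u ≤ f v) :
    ∃ f' x', WLS K (p - 1) f' x' := by
  classical
  have hf2 : f v ≤ f u + 1 := h.lip v u (by rw [H.symm, huv]; exact Nat.one_pos)
  set κ := f v - 1 with hκ
  have huv' : sh κ (f u) = sh κ (f v) := by
    unfold sh; split_ifs <;> omega
  -- level function on the quotient
  have hlev : ∀ a b, π a = π b → sh κ (f a) = sh κ (f b) := by
    intro a b hab
    rcases (hπ a b).1 hab with rfl | ⟨rfl, rfl⟩ | ⟨rfl, rfl⟩
    · rfl
    · exact huv'
    · exact huv'.symm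
  obtain ⟨s, hs'⟩ : ∃ s : X → W, ∀ y, π (s y) = y := ⟨_, Function.surjInv_eq hs⟩
  set f' : X → ℕ := fun y => sh κ (f (s y)) with hf'
  have hf'π : ∀ a, f' (π a) = sh κ (f a) := fun a => hlev _ _ (hs' _)
  -- the basic claim
  have claim : ∀ j, j + 2 < p → ∃ a0 b0, π a0 = π (skip κ x j) ∧ H.m a0 b0 ≤ 1 ∧
      ∀ a b, sh κ (f a) = j → π b = π (skip κ x (j + 1)) → 0 < H.m a b → a = a0 ∧ b = b0 := by
    intro j hj
    by_cases h1 : j < κ
    · refine ⟨x j, x (j + 1), by simp only [skip, if_pos h1], h.one j (by omega), ?_⟩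
      intro a b ha hb hpos
      have hl1 := h.lip a _ hpos
      have hl2 := h.lip _ a (by rw [H.symm]; exact hpos)
      have hfa : f a = j := by
        unfold sh at ha; split_ifs at ha <;> omega
      have hbx : b = x (j + 1) := by
        by_cases h2 : j + 1 < κ
        · simp only [skip, if_pos h2] at hb
          rcases (hπ _ _).1 hb with e | ⟨e1, e2⟩ | ⟨e1, e2⟩
          · exact e
          · have := h.lev (j + 1) (by omega)
            rw [e2] at this; omega
          · have := h.lev (j + 1) (by omega)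
            rw [e2] at this; omega
        · simp only [skip, if_neg h2] at hb
          have h3 := h.lev (j + 1 + 1) (by omega)
          rcases (hπ _ _).1 hb with e | ⟨e1, e2⟩ | ⟨e1, e2⟩
          · rw [e, h3] at hl2; omega
          · -- `b = u`, `v = x (j + 2)`
            subst e1
            have hfu : f b = j + 1 := by
              rw [← e2] at hf2 hκ hf
              rw [h3] at hf2 hκ hf
              omega
            by_contra hcon
            have := h.down (j + 1) (by omega) b hfu hcon
            rw [e2, huv] at this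
            omega
          · rw [e1] at hl1 hl2
            rw [e2] at h3
            omega
      subst hbx
      refine ⟨?_, rfl⟩
      by_contra hcon
      have := h.down j (by omega) a hfa hcon
      omega
    · refine ⟨x (j + 1), x (j + 2), by simp only [skip, if_neg h1], h.one (j + 1) (by omega), ?_⟩
      intro a b ha hb hpos
      have hl2 := h.lip _ a (by rw [H.symm]; exact hpos)
      simp only [skip, if_neg (show ¬ j + 1 < κ by omega)] at hb
      have h3 := h.lev (j + 1 + 1) (by omega)
      have hbx : b = x (j + 2) := by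
        rcases (hπ _ _).1 hb with e | ⟨e1, e2⟩ | ⟨e1, e2⟩
        · exact e
        · rw [e2] at h3; omega
        · rw [e2] at h3; omega
      subst hbx
      rw [h.lev (j + 2) (by omega)] at hl2
      have hfa : f a = j + 1 := by
        unfold sh at ha; split_ifs at ha <;> omega
      refine ⟨?_, rfl⟩
      by_contra hcon
      have h5 : H.m a (x (j + 2)) = 0 := h.down (j + 1) (by omega) a hfa hcon
      omega
  have hpos : ∀ y z, 0 < K.m y z → ∃ a b, π a = y ∧ π b = z ∧ 0 < H.m a b := by
    intro y z hyz
    have hne : y ≠ z := by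
      rintro rfl
      rw [K.loopless] at hyz; omega
    rw [hm y z hne] at hyz
    by_contra hcon
    push Not at hcon
    have : (∑ᶠ (p : W × W) (_ : π p.1 = y ∧ π p.2 = z), H.m p.1 p.2) = 0 := by
      rw [finsum_eq_zero_of_forall_eq_zero]
      rintro ⟨a, b⟩
      rw [finsum_eq_if]
      split_ifs with hc
      · exact Nat.le_zero.1 (hcon a b hc.1 hc.2)
      · rfl
    omega
  refine ⟨f', fun j => π (skip κ x j), ?_, ?_, ?_, ?_⟩
  · intro k hk
    show f' (π _) = k
    rw [hf'π]
    exact sh_skip h.lev (by omega)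
  · intro y z hyz
    obtain ⟨a, b, rfl, rfl, hab⟩ := hpos y z hyz
    rw [hf'π, hf'π]
    exact sh_lip (h.lip _ _ hab)
  · intro k hk y hy hne
    by_contra hcon
    obtain ⟨a, b, rfl, hb, hab⟩ := hpos _ _ (Nat.pos_of_ne_zero hcon)
    rw [hf'π] at hy
    obtain ⟨a0, b0, h1, -, h2⟩ := claim k (by omega)
    obtain ⟨rfl, rfl⟩ := h2 a b hy hb hab
    exact hne h1
  · intro k hk
    obtain ⟨a0, b0, h1, h1', h2⟩ := claim k (by omega)
    by_cases hne : π (skip κ x k) = π (skip κ x (k + 1))
    · show K.m (π (skip κ x k)) (π (skip κ x (k + 1))) ≤ 1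
      rw [hne, K.loopless]; omega
    · show K.m (π (skip κ x k)) (π (skip κ x (k + 1))) ≤ 1
      rw [hm _ _ hne, finsum_eq_single _ (a0, b0)]
      · rw [finsum_eq_if]
        split_ifs with hc
        · exact h1'
        · omega
      · rintro ⟨a, b⟩ hab
        rw [finsum_eq_if]
        split_ifs with hc
        · by_contra hpos'
          apply hab
          have h5 : sh κ (f a) = k := by
            have h3 : π a = π (skip κ x k) := hc.1
            rw [← hf'π, h3, hf'π]
            exact sh_skip h.lev (by omega)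
          obtain ⟨rfl, rfl⟩ := h2 a b h5 hc.2 (Nat.pos_of_ne_zero hpos')
          rfl
        · rfl

/-! ### Minors -/

theorem WLS.minor {G : MG V} {H : MG W} (hGH : MinorOf G H) : ∀ [Nonempty V] [Finite W] {p : ℕ}
    {f : W → ℕ} {x : ℕ → W}, WLS H p f x →
    ∃ p' f' x', WLS G p' f' x' ∧ p + Nat.card V ≤ p' + Nat.card W := by
  induction hGH with
  | iso e he =>
    intro _ _ p f x h
    exact ⟨p, _, _, h.iso e he, by rw [Nat.card_congr e]⟩
  | @delEdge W G H K hK _ ih =>
    intro _ _ p f x h
    exact ih (h.mono hK.le)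
  | @delVertex W X G H K hK hG ih =>
    intro _ _ p f x h
    obtain ⟨v, g, -, hg, hr, hm⟩ := hK
    have hfin : Finite X := Finite.of_injective g hg
    have hne : Nonempty X := by
      clear ih
      have : ∀ {V W : Type} {G : MG V} {H : MG W}, MinorOf G H → Nonempty V → Nonempty W := by
        intro V W G H hGH
        induction hGH with
        | iso e _ => rintro ⟨a⟩; exact ⟨e a⟩
        | delVertex hK _ ih =>
          intro h
          obtain ⟨x⟩ := ih h
          obtain ⟨v, g, -⟩ := hK
          exact ⟨v⟩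
        | delEdge _ _ ih => exact ih
        | contract hK _ ih =>
          intro h
          obtain ⟨u, -⟩ := hK
          exact ⟨u⟩
      exact this hG ‹Nonempty _›
    obtain ⟨f', x', h'⟩ := h.delVertex hg hr hm
    obtain ⟨p', f'', x'', h1, h2⟩ := ih h'
    refine ⟨p', f'', x'', h1, ?_⟩
    have hcard : Nat.card W = Nat.card X + 1 := by
      have e : Set.range g = {v}ᶜ := by
        ext w
        rw [Set.mem_compl_iff, Set.mem_singleton_iff]
        exact (hr w).symm
      have h3 : (Set.range g).ncard = Nat.card X := by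
        rw [← Set.image_univ, Set.ncard_image_of_injective _ hg, Set.ncard_univ]
      have h4 : ({v} : Set W).ncard + ({v}ᶜ : Set W).ncard = Nat.card W :=
        Set.ncard_add_ncard_compl _
      rw [Set.ncard_singleton, ← e, h3] at h4
      omega
    omega
  | @contract W X G H K hK hG ih =>
    intro _ _ p f x h
    obtain ⟨u, v, π, hne, huv, hs, hπ, hm⟩ := hK
    have hfin : Finite X := Finite.of_surjective π hs
    have hcard : Nat.card W = Nat.card X + 1 := by
      classical
      have hb : Function.Bijective (fun x : ({v}ᶜ : Set W) => π x) := by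
        constructor
        · intro x y hxy
          rcases (hπ x y).1 hxy with h | ⟨-, h⟩ | ⟨h, -⟩
          · exact Subtype.ext h
          · exact absurd h y.2
          · exact absurd h x.2
        · intro w
          obtain ⟨a, rfl⟩ := hs w
          by_cases hav : a = v
          · refine ⟨⟨u, fun e => hne e⟩, ?_⟩
            exact (hπ u a).2 (Or.inr (Or.inl ⟨rfl, hav⟩))
          · exact ⟨⟨a, hav⟩, rfl⟩
      have h1 := Nat.card_eq_of_bijective _ hb
      have h2 : ({v} : Set W).ncard + ({v}ᶜ : Set W).ncard = Nat.card W :=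
        Set.ncard_add_ncard_compl _
      rw [Set.ncard_singleton, ← Nat.card_coe_set_eq, h1] at h2
      omega
    obtain ⟨f', x', h'⟩ : ∃ f' x', WLS K (p - 1) f' x' := by
      rcases Nat.le_total (f u) (f v) with hf | hf
      · exact h.contract huv hs hπ hm hf
      · refine h.contract (u := v) (v := u) (by rw [H.symm]; exact huv) hs ?_ hm hf
        intro a b
        rw [hπ a b]
        constructor
        · rintro (h | h | h)
          · exact Or.inl h
          · exact Or.inr (Or.inr h)
          · exact Or.inr (Or.inl h)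
        · rintro (h | h | h)
          · exact Or.inl h
          · exact Or.inr (Or.inr h)
          · exact Or.inr (Or.inl h)
    obtain ⟨p', f'', x'', h1, h2⟩ := ih h'
    exact ⟨p', f'', x'', h1, by omega⟩

/-! ### Lowering the parade number by one -/

open Classical in
/-- double the edge `ab` -/
noncomputable def dbl (F : MG V) (a b : V) (hab : a ≠ b) : MG V where
  m c d := if (c = a ∧ d = b) ∨ (c = b ∧ d = a) then F.m c d + 1 else F.m c d
  symm c d := by
    have e : ((c = a ∧ d = b) ∨ (c = b ∧ d = a)) ↔ ((d = a ∧ c = b) ∨ (d = b ∧ c = a)) := by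
      constructor <;> (rintro (⟨h1, h2⟩ | ⟨h1, h2⟩) <;> simp [h1, h2])
    rw [if_congr e (by rw [F.symm]) (F.symm c d)]
  loopless c := by
    rw [if_neg, F.loopless]
    rintro (⟨h1, h2⟩ | ⟨h1, h2⟩)
    · exact hab (h1.symm.trans h2)
    · exact hab (h2.symm.trans h1)

theorem exists_usp_eq [Finite V] [Nonempty V] (q : ℕ) (hq : 1 ≤ q) : ∀ (N : ℕ) (F : MG V),
    {c : V × V | F.m c.1 c.2 = 1}.ncard = N → q ≤ usp F →
    ∃ F', Supergraph F F' ∧ usp F' = q := by
  classical
  intro N
  induction N using Nat.strong_induction_on with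
  | _ N ih =>
    intro F hN hF
    by_cases he : usp F = q
    · exact ⟨F, fun _ _ => le_rfl, he⟩
    obtain ⟨f, x, h⟩ := usp_ls F
    obtain ⟨p, hp⟩ : ∃ p, usp F = p + 2 := ⟨usp F - 2, by omega⟩
    rw [hp] at h
    have hab : x p ≠ x (p + 1) := by
      intro e
      have e1 := h.lev p (by omega)
      have e2 := h.lev (p + 1) (by omega)
      rw [e] at e1
      omega
    have h1 := h.one p (by omega)
    -- the doubled graph
    have hLS : LS (dbl F (x p) (x (p + 1)) hab) (p + 1) f x := by
      refine ⟨fun k hk => h.lev k (by omega), ?_, ?_, ?_⟩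
      · intro a b hab'
        apply h.lip
        have hab'' : 0 < if (a = x p ∧ b = x (p + 1)) ∨ (a = x (p + 1) ∧ b = x p)
          then F.m a b + 1 else F.m a b := hab'
        split_ifs at hab'' with hc
        · rcases hc with ⟨rfl, rfl⟩ | ⟨rfl, rfl⟩
          · omega
          · rw [F.symm]; omega
        · exact hab''
      · intro k hk a ha hne
        show (if (a = x p ∧ x (k + 1) = x (p + 1)) ∨ (a = x (p + 1) ∧ x (k + 1) = x p)
          then F.m a (x (k + 1)) + 1 else F.m a (x (k + 1))) = 0
        rw [if_neg]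
        · exact h.down k (by omega) a ha hne
        · rintro (⟨e1, e2⟩ | ⟨e1, e2⟩)
          · have e3 := h.lev (k + 1) (by omega)
            have e4 := h.lev (p + 1) (by omega)
            rw [e2] at e3; omega
          · have e3 := h.lev (p + 1) (by omega)
            rw [← e1] at e3; omega
      · intro k hk
        show (if (x k = x p ∧ x (k + 1) = x (p + 1)) ∨ (x k = x (p + 1) ∧ x (k + 1) = x p)
          then F.m (x k) (x (k + 1)) + 1 else F.m (x k) (x (k + 1))) = 1
        rw [if_neg]
        · exact h.one k (by omega)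
        · rintro (⟨e1, e2⟩ | ⟨e1, e2⟩)
          · have e3 := h.lev (k + 1) (by omega)
            have e4 := h.lev (p + 1) (by omega)
            rw [e2] at e3; omega
          · have e3 := h.lev k (by omega)
            have e4 := h.lev (p + 1) (by omega)
            rw [e1] at e3; omega
    have hlt : {c : V × V | (dbl F (x p) (x (p + 1)) hab).m c.1 c.2 = 1}.ncard < N := by
      rw [← hN]
      apply Set.ncard_lt_ncard _ (Set.toFinite _)
      constructor
      · rintro ⟨a, b⟩ hc
        have hc' : (if (a = x p ∧ b = x (p + 1)) ∨ (a = x (p + 1) ∧ b = x p)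
          then F.m a b + 1 else F.m a b) = 1 := hc
        show F.m a b = 1
        split_ifs at hc' with hcc
        · exfalso
          rcases hcc with ⟨rfl, rfl⟩ | ⟨rfl, rfl⟩
          · omega
          · rw [F.symm] at hc'; omega
        · exact hc'
      · intro hsub
        have := hsub (show (x p, x (p + 1)) ∈ {c : V × V | F.m c.1 c.2 = 1} from h1)
        have hc' : (if (x p = x p ∧ x (p + 1) = x (p + 1)) ∨ (x p = x (p + 1) ∧ x (p + 1) = x p)
          then F.m (x p) (x (p + 1)) + 1 else F.m (x p) (x (p + 1))) = 1 := this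
        rw [if_pos (Or.inl ⟨rfl, rfl⟩)] at hc'
        omega
    obtain ⟨F', h2, h3⟩ := ih _ hlt (dbl F (x p) (x (p + 1)) hab) rfl
      (by have := hLS.le_usp; omega)
    refine ⟨F', fun a b => le_trans ?_ (h2 a b), h3⟩
    show F.m a b ≤ if (a = x p ∧ b = x (p + 1)) ∨ (a = x (p + 1) ∧ b = x p)
      then F.m a b + 1 else F.m a b
    split_ifs <;> omega

/-- the main theorem -/
theorem main (V : Type) [Finite V] [Nonempty V] (G : MG V) (i : ℕ) (h1 : sf G ≤ i)
    (h2 : i < Nat.card V) : ∃ F : MG V, Supergraph G F ∧ sp F = i := by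
  obtain ⟨W, hW, H, hGH, hsf⟩ : ∃ (W : Type) (_ : Finite W) (H : MG W), MinorOf G H ∧
      sf G = sp H :=
    Nat.sInf_mem (s := {s | ∃ (W : Type) (_ : Finite W) (H : MG W), MinorOf G H ∧ s = sp H})
      ⟨sp G, V, inferInstance, G, MinorOf.iso (Equiv.refl V) (fun _ _ => rfl), rfl⟩
  have hne : Nonempty W := by
    have : ∀ {V W : Type} {G : MG V} {H : MG W}, MinorOf G H → Nonempty V → Nonempty W := by
      intro V W G H hGH
      induction hGH with
      | iso e _ => rintro ⟨a⟩; exact ⟨e a⟩
      | delVertex hK _ ih =>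
        intro h
        obtain ⟨x⟩ := ih h
        obtain ⟨v, g, -⟩ := hK
        exact ⟨v⟩
      | delEdge _ _ ih => exact ih
      | contract hK _ ih =>
        intro h
        obtain ⟨u, -⟩ := hK
        exact ⟨u⟩
    exact this hGH ‹Nonempty _›
  obtain ⟨f, x, h⟩ := usp_ls H
  obtain ⟨p', f', x', h3, h4⟩ := h.weak.minor hGH
  obtain ⟨F1, h5, h6⟩ := h3.complete
  have h7 := h6.le_usp
  have h8 := usp_le_card H
  obtain ⟨F, h9, h10⟩ := exists_usp_eq (Nat.card V - i) (by omega) _ F1 rfl (by
    unfold sp at hsf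
    omega)
  refine ⟨F, fun a b => (h5 a b).trans (h9 a b), ?_⟩
  unfold sp
  omega

end Pool.Agent.Q275.Spec
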