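import Pool.Agent.Q275.SpecDefs

set_option autoImplicit false

namespace Pool.Agent.Q275.Spec

variable {V W X : Type}

/-! ### Walks -/

lemma Steps.append {G : MG V} {u v w : V} {l l' : List (V × ℕ)} (h : Steps G u l v)
    (h' : Steps G v l' w) : Steps G u (l ++ l') w := by
  induction l generalizing u with
  | nil => cases h; exact h'
  | cons a l ih =>
    obtain ⟨x, i⟩ := a
    exact ⟨h.1, ih h.2⟩

lemma Steps.single {G : MG V} {a b : V} (h : 0 < G.m a b) : Steps G a [(b, 0)] b := ⟨h, rfl⟩

/-- end point -/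
lemma Steps.end_eq {G : MG V} {u v w : V} {l : List (V × ℕ)} (h : Steps G u l v)
    (h' : Steps G u l w) : v = w := by
  induction l generalizing u with
  | nil => cases h; cases h'; rfl
  | cons a l ih =>
    obtain ⟨x, i⟩ := a
    exact ih h.2 h'.2

/-- suffix from a vertex of a path -/
lemma IsPath.suffix {G : MG V} {u v w : V} {l : List (V × ℕ)} (h : IsPath G u l v)
    (hw : w ∈ u :: l.map Prod.fst) : ∃ l', IsPath G w l' v ∧ l'.length ≤ l.length := by
  induction l generalizing u with
  | nil =>
    simp only [List.map_nil, List.mem_singleton] at hw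
    subst hw
    exact ⟨[], h, le_rfl⟩
  | cons a l ih =>
    obtain ⟨x, i⟩ := a
    rcases List.mem_cons.1 hw with rfl | hw
    · exact ⟨(x, i) :: l, h, le_rfl⟩
    · obtain ⟨l', h1, h2⟩ := ih (u := x) ⟨h.1.2, (List.nodup_cons.1 h.2).2⟩ hw
      exact ⟨l', h1, by simp; omega⟩

lemma walk_to_path {G : MG V} {u v : V} {l : List (V × ℕ)} (h : Steps G u l v) :
    ∃ l', IsPath G u l' v ∧ (l' = l ∨ l'.length < l.length) := by
  classical
  induction l generalizing u with
  | nil => exact ⟨[], ⟨h, by simp⟩, Or.inl rfl⟩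
  | cons a l ih =>
    obtain ⟨x, i⟩ := a
    obtain ⟨l', h1, h2⟩ := ih h.2
    by_cases hu : u ∈ x :: l'.map Prod.fst
    · obtain ⟨l'', h3, h4⟩ := h1.suffix hu
      refine ⟨l'', h3, Or.inr ?_⟩
      have : l'.length ≤ l.length := by
        rcases h2 with rfl | h2
        · exact le_rfl
        · omega
      simp; omega
    · refine ⟨(x, i) :: l', ⟨⟨h.1, h1.1⟩, List.nodup_cons.2 ⟨hu, h1.2⟩⟩, ?_⟩
      rcases h2 with rfl | h2
      · exact Or.inl rfl
      · right; simp; exact h2

/-- a unique shortest path is the unique walk of at most its length -/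
lemma IsUSP.walk {G : MG V} {u v : V} {l : List (V × ℕ)} (h : IsUSP G u l v) {l' : List (V × ℕ)}
    (h' : Steps G u l' v) (hl : l'.length ≤ l.length) : l' = l := by
  obtain ⟨l'', h1, h2⟩ := walk_to_path h'
  have h3 := h.2.1 l'' h1
  rcases h2 with rfl | h2
  · exact h.2.2 _ h1 (by omega)
  · omega

/-! ### Level structures -/

/-- level structure of order `p` -/
structure LS (G : MG V) (p : ℕ) (f : V → ℕ) (x : ℕ → V) : Prop where
  lev : ∀ k < p, f (x k) = k
  lip : ∀ a b, 0 < G.m a b → f a ≤ f b + 1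
  down : ∀ k, k + 1 < p → ∀ a, f a = k → a ≠ x k → G.m a (x (k + 1)) = 0
  one : ∀ k, k + 1 < p → G.m (x k) (x (k + 1)) = 1

/-- weak level structure -/
structure WLS (G : MG V) (p : ℕ) (f : V → ℕ) (x : ℕ → V) : Prop where
  lev : ∀ k < p, f (x k) = k
  lip : ∀ a b, 0 < G.m a b → f a ≤ f b + 1
  down : ∀ k, k + 1 < p → ∀ a, f a = k → a ≠ x k → G.m a (x (k + 1)) = 0
  one : ∀ k, k + 1 < p → G.m (x k) (x (k + 1)) ≤ 1

lemma LS.weak {G : MG V} {p : ℕ} {f : V → ℕ} {x : ℕ → V} (h : LS G p f x) : WLS G p f x :=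
  ⟨h.lev, h.lip, h.down, fun k hk => (h.one k hk).le⟩

def seg (x : ℕ → V) : ℕ → ℕ → List (V × ℕ)
  | _, 0 => []
  | k, d + 1 => (x (k + 1), 0) :: seg x (k + 1) d

lemma seg_length (x : ℕ → V) (k d : ℕ) : (seg x k d).length = d := by
  induction d generalizing k with
  | zero => rfl
  | succ d ih => simp [seg, ih]

lemma seg_mem {x : ℕ → V} {k d : ℕ} {a : V} (h : a ∈ (seg x k d).map Prod.fst) :
    ∃ j, k < j ∧ j ≤ k + d ∧ a = x j := by
  induction d generalizing k with
  | zero => simp [seg] at h
  | succ d ih =>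
    simp only [seg, List.map_cons, List.mem_cons] at h
    rcases h with h | h
    · exact ⟨k + 1, by omega, by omega, h⟩
    · obtain ⟨j, h1, h2, h3⟩ := ih h
      exact ⟨j, by omega, by omega, h3⟩

lemma LS.steps {G : MG V} {p : ℕ} {f : V → ℕ} {x : ℕ → V} (h : LS G p f x) (k d : ℕ)
    (hk : k + d < p) : Steps G (x k) (seg x k d) (x (k + d)) := by
  induction d generalizing k with
  | zero => exact rfl
  | succ d ih =>
    refine ⟨?_, ?_⟩
    · rw [h.one k (by omega)]; exact Nat.one_pos
    · have := ih (k + 1) (by omega)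
      rwa [show k + 1 + d = k + (d + 1) by omega] at this

lemma LS.nodup {G : MG V} {p : ℕ} {f : V → ℕ} {x : ℕ → V} (h : LS G p f x) (k d : ℕ)
    (hk : k + d < p) : (x k :: (seg x k d).map Prod.fst).Nodup := by
  induction d generalizing k with
  | zero => simp [seg]
  | succ d ih =>
    rw [List.nodup_cons]
    refine ⟨?_, ?_⟩
    · intro hm
      obtain ⟨j, h1, h2, h3⟩ := seg_mem hm
      have e1 := h.lev k (by omega)
      have e2 := h.lev j (by omega)
      rw [h3] at e1
      omega
    · exact ih (k + 1) (by omega)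

lemma LS.lower {G : MG V} {p : ℕ} {f : V → ℕ} {x : ℕ → V} (h : LS G p f x) {u v : V}
    {l : List (V × ℕ)} (hl : Steps G u l v) : f v ≤ f u + l.length := by
  induction l generalizing u with
  | nil => cases hl; simp
  | cons a l ih =>
    obtain ⟨y, i⟩ := a
    have h1 := ih hl.2
    have h2 := h.lip y u (by rw [G.symm]; have := hl.1; omega)
    simp; omega

lemma LS.unique {G : MG V} {p : ℕ} {f : V → ℕ} {x : ℕ → V} (h : LS G p f x) :
    ∀ (d : ℕ) {k : ℕ} {u : V} {l : List (V × ℕ)}, k + d < p → Steps G u l (x (k + d)) →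
      l.length = d → f u = k → u = x k ∧ l = seg x k d := by
  intro d
  induction d with
  | zero =>
    intro k u l hk hl hlen _
    have : l = [] := List.length_eq_zero_iff.1 hlen
    subst this
    exact ⟨hl, rfl⟩
  | succ d ih =>
    intro k u l hk hl hlen hu
    rcases l with _ | ⟨⟨y, i⟩, l⟩
    · simp at hlen
    · have hlen' : l.length = d := by simpa using hlen
      have h1 := h.lip y u (by rw [G.symm]; have := hl.1; omega)
      have h2 := h.lower hl.2
      rw [h.lev _ (by omega)] at h2
      have hy : f y = k + 1 := by omega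
      have hl2 : Steps G y l (x (k + 1 + d)) := by
        rw [show k + 1 + d = k + (d + 1) by omega]; exact hl.2
      obtain ⟨e1, e2⟩ := ih (k := k + 1) (by omega) hl2 hlen' hy
      subst e1
      have hpos : i < G.m u (x (k + 1)) := hl.1
      have hux : u = x k := by
        by_contra hne
        rw [h.down k (by omega) u hu hne] at hpos
        omega
      subst hux
      rw [h.one k (by omega)] at hpos
      refine ⟨rfl, ?_⟩
      rw [seg, e2, show i = 0 by omega]

/-- a level structure of order `p` gives a unique shortest path of order `p` -/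
theorem LS.isUSP {G : MG V} {p : ℕ} {f : V → ℕ} {x : ℕ → V} (h : LS G (p + 1) f x) :
    IsUSP G (x 0) (seg x 0 p) (x p) := by
  have h0 : ∀ l, Steps G (x 0) l (x p) → p ≤ l.length := by
    intro l hl
    have := h.lower hl
    rw [h.lev 0 (by omega), h.lev p (by omega)] at this
    omega
  refine ⟨⟨?_, h.nodup 0 p (by omega)⟩, ?_, ?_⟩
  · have := h.steps 0 p (by omega)
    rwa [Nat.zero_add] at this
  · intro l hl
    rw [seg_length]
    exact h0 l hl.1
  · intro l hl hlen
    rw [seg_length] at hlen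
    have hl' : Steps G (x 0) l (x (0 + p)) := by rw [Nat.zero_add]; exact hl.1
    exact (h.unique p (k := 0) (by omega) hl' hlen (h.lev 0 (by omega))).2

/-! ### From unique shortest paths to level structures -/

/-- distance (0 if unreachable) -/
noncomputable def dst (G : MG V) (u a : V) : ℕ := sInf {n | ∃ l, l.length = n ∧ Steps G u l a}

lemma dst_le {G : MG V} {u a : V} {l : List (V × ℕ)} (h : Steps G u l a) :
    dst G u a ≤ l.length := Nat.sInf_le ⟨l, rfl, h⟩

lemma dst_spec {G : MG V} {u a : V} (h : ∃ l, Steps G u l a) :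
    ∃ l, l.length = dst G u a ∧ Steps G u l a := by
  obtain ⟨l, hl⟩ := h
  exact Nat.sInf_mem (s := {n | ∃ l, l.length = n ∧ Steps G u l a}) ⟨_, l, rfl, hl⟩

lemma dst_unreach {G : MG V} {u a : V} (h : ¬ ∃ l, Steps G u l a) : dst G u a = 0 := by
  unfold dst
  have : {n | ∃ l, l.length = n ∧ Steps G u l a} = ∅ := by
    ext n
    simp only [Set.mem_ofPred_eq, Set.mem_empty_iff_false, iff_false]
    rintro ⟨l, -, hl⟩
    exact h ⟨l, hl⟩
  rw [this, Nat.sInf_empty]

/-- the vertex at position `k` -/
def pos (u : V) (l : List (V × ℕ)) (k : ℕ) : V := ((u :: l.map Prod.fst)).getD k u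

lemma steps_split {G : MG V} {v : V} : ∀ {l : List (V × ℕ)} {u : V} (_ : Steps G u l v) (k : ℕ)
    (_ : k ≤ l.length), Steps G u (l.take k) (pos u l k) ∧ Steps G (pos u l k) (l.drop k) v := by
  intro l
  induction l with
  | nil =>
    intro u h k hk
    have : k = 0 := by simpa using hk
    subst this
    exact ⟨rfl, h⟩
  | cons a l ih =>
    obtain ⟨y, i⟩ := a
    intro u h k hk
    rcases k with _ | k
    · exact ⟨rfl, h⟩
    · have h1 := ih h.2 k (by simpa using hk)
      have e : pos u ((y, i) :: l) (k + 1) = pos y l k := by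
        unfold pos
        rw [List.map_cons, List.getD_cons_succ]
        have hlt : k < (y :: l.map Prod.fst).length := by
          have : k + 1 ≤ l.length + 1 := by simpa using hk
          simp; omega
        rw [List.getD_eq_getElem _ _ hlt, List.getD_eq_getElem _ _ hlt]
      rw [e, List.take_succ_cons, List.drop_succ_cons]
      exact ⟨⟨h.1, h1.1⟩, h1.2⟩

/-- the entry at position `k` -/
lemma drop_entry {G : MG V} {u v : V} {l : List (V × ℕ)} (h : Steps G u l v) {k : ℕ}
    (hk : k < l.length) : ∃ i, l.drop k = (pos u l (k + 1), i) :: l.drop (k + 1) ∧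
      i < G.m (pos u l k) (pos u l (k + 1)) := by
  have h1 := (steps_split h k hk.le).2
  rw [List.drop_eq_getElem_cons hk] at h1 ⊢
  have hp : pos u l (k + 1) = (l[k]).1 := by
    unfold pos
    rw [List.getD_eq_getElem _ _ (by simp; omega)]
    simp
  refine ⟨(l[k]).2, ?_, ?_⟩
  · rw [hp]
  · rw [hp]
    exact h1.1

theorem IsUSP.ls {G : MG V} {u v : V} {l : List (V × ℕ)} (h : IsUSP G u l v) :
    LS G (l.length + 1) (dst G u) (pos u l) := by
  have hS := h.1.1
  have hlev : ∀ k ≤ l.length, dst G u (pos u l k) = k := by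
    intro k hk
    obtain ⟨h1, h2⟩ := steps_split hS k hk
    apply le_antisymm
    · have := dst_le h1
      rw [List.length_take] at this
      omega
    · obtain ⟨l', h3, h4⟩ := dst_spec ⟨_, h1⟩
      by_contra hlt
      push Not at hlt
      have h5 := h4.append h2
      have h6 : (l' ++ l.drop k).length < l.length := by
        rw [List.length_append, List.length_drop]; omega
      have := h.walk h5 h6.le
      rw [this] at h6
      exact lt_irrefl _ h6
  refine ⟨fun k hk => hlev k (by omega), ?_, ?_, ?_⟩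
  · intro a b hab
    by_cases hb : ∃ l, Steps G u l b
    · obtain ⟨l', h1, h2⟩ := dst_spec hb
      have h3 := h2.append (Steps.single (by rw [G.symm]; exact hab))
      have := dst_le h3
      rw [List.length_append, h1] at this
      simpa using this
    · have ha : ¬ ∃ l, Steps G u l a := by
        rintro ⟨l', hl'⟩
        exact hb ⟨_, hl'.append (Steps.single hab)⟩
      rw [dst_unreach ha]
      exact Nat.zero_le _
  · intro k hk a ha hne
    by_contra hpos
    have hpos : 0 < G.m a (pos u l (k + 1)) := Nat.pos_of_ne_zero hpos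
    obtain ⟨h1, h2⟩ := steps_split hS (k + 1) (by omega)
    have hreach : ∃ l, Steps G u l a :=
      ⟨_, h1.append (Steps.single (by rw [G.symm]; exact hpos))⟩
    obtain ⟨l', h3, h4⟩ := dst_spec hreach
    rw [ha] at h3
    have h5 := (h4.append (Steps.single hpos)).append h2
    have h6 := h.walk h5 (by
      simp only [List.length_append, List.length_drop, List.length_cons, List.length_nil]; omega)
    have h7 : l.take k = l' := by
      rw [← h6, List.append_assoc, ← h3, List.take_left']
      rfl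
    have h8 := (steps_split hS k (by omega)).1
    rw [h7] at h8
    exact hne (h4.end_eq h8)
  · intro k hk
    obtain ⟨i, h1, h2⟩ := drop_entry hS (k := k) (by omega)
    by_contra hne
    have hge : 2 ≤ G.m (pos u l k) (pos u l (k + 1)) := by omega
    obtain ⟨j, hj, hji⟩ : ∃ j, j < G.m (pos u l k) (pos u l (k + 1)) ∧ j ≠ i := by
      by_cases hi : i = 0
      · exact ⟨1, by omega, by omega⟩
      · exact ⟨0, by omega, fun e => hi e.symm⟩
    obtain ⟨h3, h4⟩ := steps_split hS k (by omega)
    have h5 := (steps_split hS (k + 1) (by omega)).2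
    have h6 : Steps G (pos u l k) ((pos u l (k + 1), j) :: l.drop (k + 1)) v := ⟨hj, h5⟩
    have h7 := h3.append h6
    have h8 := h.walk h7 (by
      simp only [List.length_append, List.length_take, List.length_cons, List.length_drop]; omega)
    have h9 : l.take k ++ ((pos u l (k + 1), j) :: l.drop (k + 1)) =
        l.take k ++ ((pos u l (k + 1), i) :: l.drop (k + 1)) := by
      rw [h8, ← h1, List.take_append_drop]
    have h10 := List.append_cancel_left h9
    simp only [List.cons.injEq, Prod.mk.injEq, true_and, and_true] at h10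
    exact hji h10

/-! ### The parade number -/

lemma IsPath.length_lt [Finite V] {G : MG V} {u v : V} {l : List (V × ℕ)} (h : IsPath G u l v) :
    l.length + 1 ≤ Nat.card V := by
  classical
  have := Fintype.ofFinite V
  have h1 := h.2.length_le_card
  rw [← Nat.card_eq_fintype_card] at h1
  simpa using h1

lemma usp_bdd [Finite V] (G : MG V) : BddAbove {p | ∃ u l v, IsUSP G u l v ∧ p = l.length + 1} := by
  refine ⟨Nat.card V, ?_⟩
  rintro p ⟨u, l, v, h, rfl⟩
  exact h.1.length_lt

lemma usp_one (G : MG V) (a : V) : IsUSP G a [] a := by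
  refine ⟨⟨rfl, by simp⟩, fun l _ => Nat.zero_le _, fun l _ hl => List.length_eq_zero_iff.1 hl⟩

lemma usp_mem [Finite V] [Nonempty V] (G : MG V) :
    ∃ u l v, IsUSP G u l v ∧ usp G = l.length + 1 := by
  obtain ⟨a⟩ := ‹Nonempty V›
  exact Nat.sSup_mem (s := {p | ∃ u l v, IsUSP G u l v ∧ p = l.length + 1})
    ⟨1, a, [], a, usp_one G a, rfl⟩ (usp_bdd G)

lemma usp_pos [Finite V] [Nonempty V] (G : MG V) : 1 ≤ usp G := by
  obtain ⟨u, l, v, -, h⟩ := usp_mem G
  omega

lemma usp_le_card [Finite V] [Nonempty V] (G : MG V) : usp G ≤ Nat.card V := by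
  obtain ⟨u, l, v, h, h'⟩ := usp_mem G
  rw [h']
  exact h.1.length_lt

lemma LS.le_usp [Finite V] [Nonempty V] {G : MG V} {p : ℕ} {f : V → ℕ} {x : ℕ → V}
    (h : LS G p f x) : p ≤ usp G := by
  rcases p with _ | p
  · exact Nat.zero_le _
  · exact le_csSup (usp_bdd G) ⟨_, _, _, h.isUSP, by rw [seg_length]⟩

lemma usp_ls [Finite V] [Nonempty V] (G : MG V) : ∃ f x, LS G (usp G) f x := by
  obtain ⟨u, l, v, h, h'⟩ := usp_mem G
  rw [h']
  exact ⟨_, _, h.ls⟩

/-! ### Completing a weak level structure -/

open Classical in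
/-- set the multiplicities along the path to one -/
noncomputable def fillIn (G : MG V) (p : ℕ) (f : V → ℕ) (x : ℕ → V) (hx : ∀ k < p, f (x k) = k) :
    MG V where
  m a b := if ∃ k, k + 1 < p ∧ ((a = x k ∧ b = x (k + 1)) ∨ (b = x k ∧ a = x (k + 1))) then 1
    else G.m a b
  symm a b := by
    have e : (∃ k, k + 1 < p ∧ ((a = x k ∧ b = x (k + 1)) ∨ (b = x k ∧ a = x (k + 1)))) ↔
      (∃ k, k + 1 < p ∧ ((b = x k ∧ a = x (k + 1)) ∨ (a = x k ∧ b = x (k + 1)))) := by
      constructor <;> (rintro ⟨k, hk, h⟩; exact ⟨k, hk, h.symm⟩)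
    rw [if_congr e rfl (G.symm a b)]
  loopless a := by
    rw [if_neg, G.loopless]
    rintro ⟨k, hk, ⟨h1, h2⟩ | ⟨h1, h2⟩⟩
    · have := hx k (by omega)
      have := hx (k + 1) hk
      rw [← h2, h1] at this
      omega
    · have := hx k (by omega)
      have := hx (k + 1) hk
      rw [← h2, h1] at this
      omega

theorem WLS.complete {G : MG V} {p : ℕ} {f : V → ℕ} {x : ℕ → V} (h : WLS G p f x) :
    ∃ F : MG V, Supergraph G F ∧ LS F p f x := by
  classical
  refine ⟨fillIn G p f x h.lev, ?_, h.lev, ?_, ?_, ?_⟩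
  · intro a b
    show G.m a b ≤ if _ then 1 else G.m a b
    split_ifs with hc
    · obtain ⟨k, hk, ⟨rfl, rfl⟩ | ⟨rfl, rfl⟩⟩ := hc
      · exact h.one k hk
      · rw [G.symm]; exact h.one k hk
    · exact le_rfl
  · intro a b hab
    have hab' : 0 < if ∃ k, k + 1 < p ∧ ((a = x k ∧ b = x (k + 1)) ∨ (b = x k ∧ a = x (k + 1)))
      then 1 else G.m a b := hab
    split_ifs at hab' with hc
    · obtain ⟨k, hk, ⟨rfl, rfl⟩ | ⟨rfl, rfl⟩⟩ := hc
      · rw [h.lev k (by omega), h.lev (k + 1) hk]; omega
      · rw [h.lev k (by omega), h.lev (k + 1) hk]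
    · exact h.lip a b hab'
  · intro k hk a ha hne
    show (if ∃ j, j + 1 < p ∧ ((a = x j ∧ x (k + 1) = x (j + 1)) ∨
      (x (k + 1) = x j ∧ a = x (j + 1))) then 1 else G.m a (x (k + 1))) = 0
    rw [if_neg]
    · exact h.down k hk a ha hne
    · rintro ⟨j, hj, ⟨h1, h2⟩ | ⟨h1, h2⟩⟩
      · have e1 := h.lev (k + 1) hk
        have e2 := h.lev (j + 1) hj
        rw [h2] at e1
        have : j = k := by omega
        subst this
        exact hne h1
      · have e1 := h.lev (k + 1) hk
        have e2 := h.lev j (by omega)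
        have e3 := h.lev (j + 1) hj
        rw [h1] at e1
        rw [← h2] at e3
        omega
  · intro k hk
    show (if ∃ j, j + 1 < p ∧ ((x k = x j ∧ x (k + 1) = x (j + 1)) ∨
      (x (k + 1) = x j ∧ x k = x (j + 1))) then 1 else G.m (x k) (x (k + 1))) = 1
    rw [if_pos ⟨k, hk, Or.inl ⟨rfl, rfl⟩⟩]

end Pool.Agent.Q275.Spec
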