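import Pool.Agent.Q275.UnivRun

/-!
# Counting the large cliques of a graph without a large clique minor
-/

set_option autoImplicit false

namespace Pool.Agent.Q275.Univ

open Pool.Agent.Q275 Finset

variable {V : Type} [Fintype V] [DecidableEq V]

/-- the cliques of size `k + 1` inside `W` -/
noncomputable def cliquesIn (U : SimpleGraph V) (k : ℕ) (W : Finset V) : Finset (Finset V) := by
  classical
  exact (univ : Finset (Finset V)).filter
    (fun Q => Q.card = k + 1 ∧ Q ⊆ W ∧ ∀ a ∈ Q, ∀ b ∈ Q, a ≠ b → U.Adj a b)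

lemma mem_cliquesIn {U : SimpleGraph V} {k : ℕ} {W Q : Finset V} :
    Q ∈ cliquesIn U k W ↔ Q.card = k + 1 ∧ Q ⊆ W ∧ ∀ a ∈ Q, ∀ b ∈ Q, a ≠ b → U.Adj a b := by
  classical
  unfold cliquesIn
  rw [mem_filter]
  exact ⟨fun h => h.2, fun h => ⟨mem_univ _, h⟩⟩

lemma conn_coe {U : SimpleGraph V} {C : Finset V} (h : Sep.Conn U C) :
    (U.induce (C : Set V)).Connected := by
  classical
  rw [connected_iff]
  refine ⟨by exact_mod_cast h.1, ?_⟩
  rintro A hA ⟨y, hy⟩ hcl z hz
  exact h.induct (p := (· ∈ A)) (hA hy) hy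
    (fun a _ b hb hab ha => hcl a ha b hb hab) z hz

lemma not_attached {U : SimpleGraph V} {k : ℕ}
    (hU : ¬ IsMinor (⊤ : SimpleGraph (Fin (k + 2))) U) {Q C : Finset V} (hQ : Q.card = k + 1)
    (hcl : ∀ a ∈ Q, ∀ b ∈ Q, a ≠ b → U.Adj a b) (hC : Sep.Conn U C) (hd : Disjoint C Q) :
    ∃ q ∈ Q, ∀ c ∈ C, ¬ U.Adj c q := by
  by_contra hcon
  push Not at hcon
  apply hU
  have e := Q.equivFinOfCardEq hQ
  refine minor_of_clique (fun j => ((e.symm j : Q) : V)) ?_ C (conn_coe hC) ?_ ?_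
  · intro i j hij
    refine hcl _ (e.symm i).2 _ (e.symm j).2 ?_
    intro h
    exact hij (e.symm.injective (Subtype.ext h))
  · intro j h
    exact disjoint_left.1 hd (by exact_mod_cast h) (e.symm j).2
  · intro j
    obtain ⟨c, hc, h⟩ := hcon _ (e.symm j).2
    exact ⟨c, by exact_mod_cast hc, h⟩

/-- maximal connected subset of `W \ Q` containing `y` -/
lemma exists_comp {U : SimpleGraph V} {W Q : Finset V} {y : V} (hyW : y ∈ W) (hyQ : y ∉ Q) :
    ∃ C ⊆ W, y ∈ C ∧ Sep.Conn U C ∧ Disjoint C Q ∧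
      ∀ x ∈ C, ∀ z ∈ W, U.Adj x z → z ∈ C ∨ z ∈ Q := by
  classical
  obtain ⟨B, hB, hBc, hBd, hBm⟩ := Sep.exists_max_conn (P := U) (T := {y}) (S := Q ∪ Wᶜ)
    (Sep.conn_singleton U y) (by
      rw [disjoint_singleton_left, mem_union, mem_compl]
      push Not
      exact ⟨hyQ, hyW⟩)
  refine ⟨B, ?_, hB (mem_singleton_self y), hBc, ?_, ?_⟩
  · intro x hx
    by_contra hxW
    exact disjoint_left.1 hBd hx (mem_union_right _ (mem_compl.2 hxW))
  · exact disjoint_of_subset_right subset_union_left hBd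
  · intro x hx z hz hxz
    rcases hBm x hx z hxz with h | h
    · exact Or.inl h
    · rcases mem_union.1 h with h | h
      · exact Or.inr h
      · exact absurd hz (mem_compl.1 h)

theorem card_cliquesIn {U : SimpleGraph V} {k : ℕ}
    (hU : ¬ IsMinor (⊤ : SimpleGraph (Fin (k + 2))) U) : ∀ (r : ℕ) (W : Finset V), W.card = r →
    cliquesIn U k W = ∅ ∨ (cliquesIn U k W).card + k ≤ W.card := by
  intro r
  induction r using Nat.strong_induction_on with
  | _ r ih =>
    intro W hW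
    by_cases hne : cliquesIn U k W = ∅
    · exact Or.inl hne
    right
    obtain ⟨Q, hQ⟩ := Finset.nonempty_iff_ne_empty.2 hne
    by_cases hone : cliquesIn U k W = {Q}
    · rw [hone, card_singleton]
      have h := mem_cliquesIn.1 hQ
      have := card_le_card h.2.1
      omega
    obtain ⟨Q', hQ', hQQ⟩ : ∃ Q' ∈ cliquesIn U k W, Q' ≠ Q := by
      by_contra hcon
      push Not at hcon
      apply hone
      ext K
      rw [mem_singleton]
      exact ⟨fun h => hcon K h, fun h => h ▸ hQ⟩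
    obtain ⟨hQc, hQW, hQa⟩ := mem_cliquesIn.1 hQ
    obtain ⟨hQ'c, hQ'W, hQ'a⟩ := mem_cliquesIn.1 hQ'
    obtain ⟨y, hyQ', hyQ⟩ : ∃ y ∈ Q', y ∉ Q := by
      by_contra hcon
      push Not at hcon
      exact hQQ (eq_of_subset_of_card_le hcon (by omega))
    obtain ⟨C, hCW, hyC, hCc, hCd, hCm⟩ := exists_comp (U := U) (hQ'W hyQ') hyQ
    obtain ⟨q, hqQ, hq⟩ := not_attached hU hQc hQa hCc hCd
    have hqC : q ∉ C := fun h => disjoint_left.1 hCd h hqQ
    -- the two sides
    have hQW1 : Q ⊆ W \ C := fun a ha => mem_sdiff.2 ⟨hQW ha, fun h => disjoint_left.1 hCd h ha⟩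
    have hcov : ∀ K ∈ cliquesIn U k W, (∃ z ∈ K, z ∈ C) → K ⊆ C ∪ Q.erase q := by
      rintro K hK ⟨z, hzK, hzC⟩ a ha
      obtain ⟨-, hKW, hKa⟩ := mem_cliquesIn.1 hK
      by_cases haC : a ∈ C
      · exact mem_union_left _ haC
      · have haz : z ≠ a := fun e => haC (e ▸ hzC)
        have hadj := hKa z hzK a ha haz
        rcases hCm z hzC a (hKW ha) hadj with h | h
        · exact absurd h haC
        · refine mem_union_right _ (mem_erase.2 ⟨?_, h⟩)
          rintro rfl
          exact hq z hzC hadj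
    have hsub : cliquesIn U k W ⊆ cliquesIn U k (W \ C) ∪ cliquesIn U k (C ∪ Q.erase q) := by
      intro K hK
      obtain ⟨hKc, hKW, hKa⟩ := mem_cliquesIn.1 hK
      by_cases h : ∃ z ∈ K, z ∈ C
      · exact mem_union_right _ (mem_cliquesIn.2 ⟨hKc, hcov K hK h, hKa⟩)
      · push Not at h
        exact mem_union_left _ (mem_cliquesIn.2
          ⟨hKc, fun a ha => mem_sdiff.2 ⟨hKW ha, h a ha⟩, hKa⟩)
    have hCcard : 0 < C.card := card_pos.2 ⟨y, hyC⟩
    have hW1 : (W \ C).card + C.card = W.card := card_sdiff_add_card_eq_card hCW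
    have hW2 : (C ∪ Q.erase q).card = C.card + k := by
      rw [card_union_of_disjoint (disjoint_of_subset_right (erase_subset _ _) hCd),
        card_erase_of_mem hqQ, hQc]
      rfl
    have hQle : k + 1 ≤ (W \ C).card := hQc ▸ card_le_card hQW1
    have h1 := ih (W \ C).card (by omega) (W \ C) rfl
    have h2 := ih (C ∪ Q.erase q).card (by omega) _ rfl
    have n1 : cliquesIn U k (W \ C) ≠ ∅ :=
      Finset.nonempty_iff_ne_empty.1 ⟨Q, mem_cliquesIn.2 ⟨hQc, hQW1, hQa⟩⟩
    have n2 : cliquesIn U k (C ∪ Q.erase q) ≠ ∅ :=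
      Finset.nonempty_iff_ne_empty.1 ⟨Q', mem_cliquesIn.2
        ⟨hQ'c, hcov Q' hQ' ⟨y, hyQ', hyC⟩, hQ'a⟩⟩
    have h1' := h1.resolve_left n1
    have h2' := h2.resolve_left n2
    have h3 := (card_le_card hsub).trans (card_union_le _ _)
    omega

theorem card_cliques_le {U : SimpleGraph V} {k : ℕ}
    (hU : ¬ IsMinor (⊤ : SimpleGraph (Fin (k + 2))) U) :
    (cliquesIn U k univ).card ≤ Fintype.card V := by
  rcases card_cliquesIn hU _ univ rfl with h | h
  · rw [h]; simp
  · rw [card_univ] at h; omega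

/-- the clique tuples -/
noncomputable def tuples (U : SimpleGraph V) (k : ℕ) : Finset (Fin (k + 1) → V) := by
  classical
  exact univ.filter (fun Q => ∀ i j, i ≠ j → U.Adj (Q i) (Q j))

lemma mem_tuples {U : SimpleGraph V} {k : ℕ} {Q : Fin (k + 1) → V} :
    Q ∈ tuples U k ↔ ∀ i j, i ≠ j → U.Adj (Q i) (Q j) := by
  classical
  unfold tuples
  rw [mem_filter]
  exact ⟨fun h => h.2, fun h => ⟨mem_univ _, h⟩⟩

theorem card_tuples_le {U : SimpleGraph V} {k : ℕ}
    (hU : ¬ IsMinor (⊤ : SimpleGraph (Fin (k + 2))) U) :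
    (tuples U k).card ≤ Fintype.card V * (k + 1) ^ (k + 1) := by
  classical
  have hsub : tuples U k ⊆ (cliquesIn U k univ).biUnion
      (fun S => Fintype.piFinset (fun _ : Fin (k + 1) => S)) := by
    intro Q hQ
    rw [mem_tuples] at hQ
    have hinj : Function.Injective Q := by
      intro i j hij
      by_contra hne
      exact (hQ i j hne).ne hij
    rw [mem_biUnion]
    refine ⟨univ.image Q, mem_cliquesIn.2 ⟨?_, subset_univ _, ?_⟩, ?_⟩
    · rw [card_image_of_injective _ hinj]; simp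
    · intro a ha b hb hab
      obtain ⟨i, -, rfl⟩ := mem_image.1 ha
      obtain ⟨j, -, rfl⟩ := mem_image.1 hb
      exact hQ i j (fun e => hab (by rw [e]))
    · rw [Fintype.mem_piFinset]
      exact fun i => mem_image_of_mem _ (mem_univ _)
  refine (card_le_card hsub).trans (card_biUnion_le.trans ?_)
  have : ∀ S ∈ cliquesIn U k univ,
      (Fintype.piFinset (fun _ : Fin (k + 1) => S)).card = (k + 1) ^ (k + 1) := by
    intro S hS
    rw [Fintype.card_piFinset]
    simp [(mem_cliquesIn.1 hS).1]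
  rw [sum_congr rfl this, sum_const, smul_eq_mul]
  exact Nat.mul_le_mul_right _ (card_cliques_le hU)

end Pool.Agent.Q275.Univ
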