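import Pool.Agent.Q275.UnivRun

/-!
# A large family of `k`-trees with the same first clique
-/

set_option autoImplicit false

namespace Pool.Agent.Q275.Univ

open Pool.Agent.Q275

/-- lower neighbours -/
def low {k : ℕ} (s : ℕ → Fin (k + 1)) (b : ℕ) : Set ℕ :=
  {a | a < b ∧ (b < k + 1 ∨ ∃ j, j ≠ s (b - (k + 1)) ∧
    tup (fun j : Fin (k + 1) => (j : ℕ)) s (fun i => k + 1 + i) (b - (k + 1)) j = a)}

/-- the `k`-tree of a replacement pattern, on all natural numbers -/
def tree {k : ℕ} (s : ℕ → Fin (k + 1)) : SimpleGraph ℕ where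
  Adj a b := a ∈ low s b ∨ b ∈ low s a
  symm := ⟨fun _ _ h => Or.symm h⟩
  loopless := ⟨fun a h => by
    rcases h with h | h <;> exact lt_irrefl a h.1⟩

abbrev T0 {k : ℕ} (s : ℕ → Fin (k + 1)) : ℕ → Fin (k + 1) → ℕ :=
  tup (fun j : Fin (k + 1) => (j : ℕ)) s (fun i => k + 1 + i)

lemma tup_lt {k : ℕ} (s : ℕ → Fin (k + 1)) (i : ℕ) (j : Fin (k + 1)) :
    T0 s i j < k + 1 + i := by
  induction i generalizing j with
  | zero => exact j.2
  | succ i ih =>
    show Function.update (T0 s i) (s i) (k + 1 + i) j < _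
    by_cases h : j = s i
    · rw [h, Function.update_self]; omega
    · rw [Function.update_of_ne h]
      have := ih j
      omega

lemma tree_att {k : ℕ} (s : ℕ → Fin (k + 1)) (i : ℕ) (j : Fin (k + 1)) (hj : j ≠ s i) :
    (tree s).Adj (k + 1 + i) (T0 s i j) := by
  right
  refine ⟨tup_lt s i j, Or.inr ⟨j, ?_, ?_⟩⟩
  · rwa [show k + 1 + i - (k + 1) = i by omega]
  · rw [show k + 1 + i - (k + 1) = i by omega]

lemma tup_clique {k : ℕ} (s : ℕ → Fin (k + 1)) (i : ℕ) :
    ∀ j j', j ≠ j' → (tree s).Adj (T0 s i j) (T0 s i j') := by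
  induction i with
  | zero =>
    intro j j' hj
    have h : (j : ℕ) ≠ j' := fun e => hj (Fin.ext e)
    rcases Nat.lt_or_gt_of_ne h with h | h
    · exact Or.inl ⟨h, Or.inl j'.2⟩
    · exact Or.inr ⟨h, Or.inl j.2⟩
  | succ i ih =>
    intro j j' hjj
    show (tree s).Adj (Function.update (T0 s i) (s i) (k + 1 + i) j)
      (Function.update (T0 s i) (s i) (k + 1 + i) j')
    by_cases hj : j = s i
    · have hj' : j' ≠ s i := fun e => hjj (hj.trans e.symm)
      rw [hj, Function.update_self, Function.update_of_ne hj']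
      exact tree_att s i j' hj'
    · by_cases hj' : j' = s i
      · rw [hj', Function.update_self, Function.update_of_ne hj]
        exact (tree_att s i j hj).symm
      · rw [Function.update_of_ne hj, Function.update_of_ne hj']
        exact ih j j' hjj

/-- the lower neighbours form a clique -/
lemma low_clique {k : ℕ} (s : ℕ → Fin (k + 1)) (v a b : ℕ) (ha : a ∈ low s v) (hb : b ∈ low s v)
    (hab : a ≠ b) : (tree s).Adj a b := by
  by_cases hv : v < k + 1
  · rcases Nat.lt_or_gt_of_ne hab with h | h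
    · exact Or.inl ⟨h, Or.inl (hb.1.trans hv)⟩
    · exact Or.inr ⟨h, Or.inl (ha.1.trans hv)⟩
  · obtain ⟨j, -, hj⟩ := ha.2.resolve_left hv
    obtain ⟨j', -, hj'⟩ := hb.2.resolve_left hv
    rw [← hj, ← hj']
    exact tup_clique s _ j j' (fun e => hab (by rw [← hj, ← hj', e]))

/-- there are at most `k` lower neighbours -/
lemma low_cover {k : ℕ} (s : ℕ → Fin (k + 1)) (v : ℕ) :
    ∃ T : Fin k → ℕ, ∀ a ∈ low s v, ∃ i, T i = a := by
  by_cases hv : v < k + 1
  · refine ⟨fun i => i, fun a ha => ⟨⟨a, ?_⟩, rfl⟩⟩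
    have := ha.1
    omega
  · refine ⟨fun i => T0 s (v - (k + 1)) ((s (v - (k + 1))).succAbove i), fun a ha => ?_⟩
    obtain ⟨j, hj, hja⟩ := ha.2.resolve_left hv
    obtain ⟨i, hi⟩ := Fin.exists_succAbove_eq hj
    exact ⟨i, by simp only [hi]; exact hja⟩

/-- `tree s` restricted to an initial segment has no `K_{k+2}` minor -/
theorem tree_no_minor {k : ℕ} (s : ℕ → Fin (k + 1)) (r : ℕ) :
    ¬ ∃ B : Fin (k + 2) → Set ℕ, (∀ w, ((tree s).induce (B w)).Connected) ∧
      (∀ w w', w ≠ w' → Disjoint (B w) (B w')) ∧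
      (∀ w w', w ≠ w' → ∃ a ∈ B w, ∃ b ∈ B w', (tree s).Adj a b) ∧
      ∀ w, ∀ x ∈ B w, x < r := by
  induction r with
  | zero =>
    rintro ⟨B, hB, -, -, hr⟩
    obtain ⟨x, hx⟩ := (connected_iff.1 (hB 0)).1
    exact absurd (hr 0 x hx) (Nat.not_lt_zero _)
  | succ r ih =>
    rintro ⟨B, hB, hd, ha, hr⟩
    apply ih
    by_cases hex : ∃ w, r ∈ B w
    swap
    · push Not at hex
      refine ⟨B, hB, hd, ha, fun w x hx => ?_⟩
      have h1 := hr w x hx
      have h2 : x ≠ r := fun e => hex w (e ▸ hx)
      omega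
    obtain ⟨w0, hw0⟩ := hex
    have hlow : ∀ w, ∀ x ∈ B w, (tree s).Adj r x → x ∈ low s r := by
      intro w x hx hadj
      rcases hadj with h | h
      · have h1 := hr w x hx
        have h2 := h.1
        omega
      · exact h
    -- the branch set has another vertex
    have hmore : ∃ u ∈ B w0, u ≠ r := by
      by_contra hcon
      push Not at hcon
      obtain ⟨T, hT⟩ := low_cover s r
      have hch : ∀ i : Fin (k + 1), ∃ j : Fin k, T j ∈ B (w0.succAbove i) := by
        intro i
        obtain ⟨a, haB, b, hbB, hab⟩ := ha w0 (w0.succAbove i) (Fin.succAbove_ne _ _).symm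
        rw [hcon a haB] at hab
        obtain ⟨j, hj⟩ := hT b (hlow _ b hbB hab)
        exact ⟨j, hj ▸ hbB⟩
      choose g hg using hch
      have hginj : Function.Injective g := by
        intro i i' hii
        by_contra hne
        have := hd (w0.succAbove i) (w0.succAbove i')
          (fun e => hne (Fin.succAbove_right_injective e))
        exact Set.disjoint_left.1 this (hg i) (by rw [hii]; exact hg i')
      have := Fintype.card_le_of_injective g hginj
      simp at this
    -- there is a neighbour in the branch set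
    have hnb : ∃ u ∈ B w0, u ≠ r ∧ (tree s).Adj r u := by
      by_contra hcon
      push Not at hcon
      have := (connected_iff.1 (hB w0)).2 {r} (by simpa using hw0) ⟨r, rfl⟩ (by
        rintro x rfl y hy hxy
        by_contra hne
        exact hcon y hy hne hxy)
      obtain ⟨u, hu, hur⟩ := hmore
      exact hur (this hu)
    obtain ⟨u, hu, hur, hru⟩ := hnb
    have hul : u ∈ low s r := hlow _ u hu hru
    refine ⟨fun w => B w \ {r}, ?_, ?_, ?_, ?_⟩
    · intro w
      rw [connected_iff]
      by_cases hw : w = w0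
      · subst hw
        refine ⟨⟨u, hu, hur⟩, ?_⟩
        rintro A hA hne hcl
        -- close up
        by_cases hin : u ∈ A
        · have := (connected_iff.1 (hB w)).2 (insert r A) (by
            rintro x (rfl | hx)
            · exact hw0
            · exact (hA hx).1) ⟨r, Or.inl rfl⟩ (by
            rintro x hx y hy hxy
            by_cases hyr : y = r
            · exact Or.inl hyr
            · right
              rcases hx with rfl | hx
              · by_cases hyu : y = u
                · rw [hyu]; exact hin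
                · exact hcl u hin y ⟨hy, hyr⟩
                    (low_clique s x u y hul (hlow _ y hy hxy) (Ne.symm hyu))
              · exact hcl x hx y ⟨hy, hyr⟩ hxy)
          rintro x ⟨hx, hxr⟩
          exact (this hx).resolve_left hxr
        · have := (connected_iff.1 (hB w)).2 A (fun x hx => (hA hx).1) hne (by
            rintro x hx y hy hxy
            by_cases hyr : y = r
            · subst hyr
              exfalso
              apply hin
              have hxl : x ∈ low s y := hlow _ x (hA hx).1 hxy.symm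
              have hxu : x ≠ u := fun e => hin (e ▸ hx)
              exact hcl x hx u ⟨hu, hur⟩ (low_clique s y x u hxl hul hxu)
            · exact hcl x hx y ⟨hy, hyr⟩ hxy)
          exact fun x hx => this hx.1
      · have hrw : r ∉ B w := fun h => Set.disjoint_left.1 (hd _ _ hw) h hw0
        have e : B w \ {r} = B w := Set.sdiff_singleton_eq_self hrw
        show (B w \ {r}).Nonempty ∧ ∀ A ⊆ B w \ {r}, A.Nonempty →
          (∀ x ∈ A, ∀ y ∈ B w \ {r}, (tree s).Adj x y → y ∈ A) → B w \ {r} ⊆ A
        rw [e]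
        exact connected_iff.1 (hB w)
    · intro w w' hww
      exact (hd w w' hww).mono Set.sdiff_subset Set.sdiff_subset
    · -- adjacency
      have key : ∀ w', w' ≠ w0 → ∃ a ∈ B w0 \ {r}, ∃ b ∈ B w' \ {r}, (tree s).Adj a b := by
        intro w' hw'
        obtain ⟨a, haB, b, hbB, hab⟩ := ha w0 w' (Ne.symm hw')
        have hbr : b ≠ r := fun e => Set.disjoint_left.1 (hd _ _ hw') hbB (e ▸ hw0)
        by_cases har : a = r
        · subst har
          have hbl := hlow _ b hbB hab
          have hub : u ≠ b := fun e => Set.disjoint_left.1 (hd _ _ hw') hbB (e ▸ hu)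
          exact ⟨u, ⟨hu, hur⟩, b, ⟨hbB, hbr⟩, low_clique s a u b hul hbl hub⟩
        · exact ⟨a, ⟨haB, har⟩, b, ⟨hbB, hbr⟩, hab⟩
      intro w w' hww
      by_cases hw : w = w0
      · subst hw
        exact key w' (Ne.symm hww)
      · by_cases hw' : w' = w0
        · subst hw'
          obtain ⟨a, ha', b, hb', hab⟩ := key w hw
          exact ⟨b, hb', a, ha', hab.symm⟩
        · obtain ⟨a, haB, b, hbB, hab⟩ := ha w w' hww
          refine ⟨a, ⟨haB, ?_⟩, b, ⟨hbB, ?_⟩, hab⟩
          · intro e
            have e' : a = r := e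
            exact Set.disjoint_left.1 (hd _ _ hw) haB (e' ▸ hw0)
          · intro e
            have e' : b = r := e
            exact Set.disjoint_left.1 (hd _ _ hw') hbB (e' ▸ hw0)
    · rintro w x ⟨hx, hxr⟩
      have h1 := hr w x hx
      have h2 : x ≠ r := hxr
      omega

/-- the finite version -/
def fam {k : ℕ} (s : ℕ → Fin (k + 1)) (n : ℕ) : SimpleGraph (Fin n) :=
  (tree s).comap (Fin.val)

theorem fam_no_minor {k : ℕ} (s : ℕ → Fin (k + 1)) (n : ℕ) :
    ¬ IsMinor (⊤ : SimpleGraph (Fin (k + 2))) (fam s n) := by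
  rintro ⟨B, hB, hd, ha⟩
  apply tree_no_minor s n
  refine ⟨fun w => Fin.val '' (B w), ?_, ?_, ?_, ?_⟩
  · intro w
    have h := connected_iff.1 (hB w)
    rw [connected_iff]
    refine ⟨h.1.image _, ?_⟩
    rintro A hA ⟨y, hy⟩ hcl
    have := h.2 (Fin.val ⁻¹' A ∩ B w) Set.inter_subset_right (by
      obtain ⟨z, hz, rfl⟩ := hA hy
      exact ⟨z, hy, hz⟩) (by
      rintro x ⟨hx, hxB⟩ z hz hxz
      exact ⟨hcl _ hx _ ⟨z, hz, rfl⟩ hxz, hz⟩)
    rintro _ ⟨z, hz, rfl⟩
    exact (this hz).1
  · intro w w' hww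
    rw [Set.disjoint_left]
    rintro _ ⟨z, hz, rfl⟩ ⟨z', hz', e⟩
    have : z' = z := Fin.ext e
    subst this
    exact Set.disjoint_left.1 (hd w w' hww) hz hz'
  · intro w w' hww
    obtain ⟨a, haB, b, hbB, hab⟩ := ha w w' hww
    exact ⟨_, ⟨a, haB, rfl⟩, _, ⟨b, hbB, rfl⟩, hab⟩
  · rintro w _ ⟨z, -, rfl⟩
    exact z.2

/-- an embedding of `fam s (k + 1 + m)` into `U` gives a run -/
theorem run_of_embedding {V : Type} {U : SimpleGraph V} {k m : ℕ} {s : ℕ → Fin (k + 1)}
    (hs : ∀ i, i + 1 < m → s (i + 1) ≠ s i)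
    (f : Fin (k + 1 + m) → V) (hf : Function.Injective f)
    (hadj : ∀ a b, (fam s (k + 1 + m)).Adj a b → U.Adj (f a) (f b)) :
    ∃ g : ℕ → V, Run U k m (fun j => g j) s (fun i => g (k + 1 + i)) := by
  classical
  obtain ⟨g, hg⟩ : ∃ g : ℕ → V, ∀ a (ha : a < k + 1 + m), g a = f ⟨a, ha⟩ :=
    ⟨fun a => if ha : a < k + 1 + m then f ⟨a, ha⟩ else f ⟨0, by omega⟩,
      fun a ha => by simp [ha]⟩
  refine ⟨g, ?_⟩
  have hga : ∀ a b, a < k + 1 + m → b < k + 1 + m → (tree s).Adj a b → U.Adj (g a) (g b) := by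
    intro a b ha hb hab
    rw [hg a ha, hg b hb]
    exact hadj _ _ hab
  have hgi : ∀ a b, a < k + 1 + m → b < k + 1 + m → g a = g b → a = b := by
    intro a b ha hb hab
    rw [hg a ha, hg b hb] at hab
    exact Fin.mk.inj_iff.1 (hf hab)
  have htup : ∀ i j, tup (fun j : Fin (k + 1) => g j) s (fun i => g (k + 1 + i)) i j
      = g (T0 s i j) := by
    intro i
    induction i with
    | zero => intro j; rfl
    | succ i ih =>
      intro j
      show Function.update (tup (fun j : Fin (k + 1) => g j) s (fun i => g (k + 1 + i)) i) (s i)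
        (g (k + 1 + i)) j = g (Function.update (T0 s i) (s i) (k + 1 + i) j)
      by_cases h : j = s i
      · rw [h, Function.update_self, Function.update_self]
      · rw [Function.update_of_ne h, Function.update_of_ne h]
        exact ih j
  refine ⟨?_, ?_, ?_, ?_, hs⟩
  · intro i j hij
    exact hga _ _ (by omega) (by omega) (tup_clique s 0 i j hij)
  · intro i hi j hj
    show U.Adj (g (k + 1 + i)) _
    rw [htup]
    exact hga _ _ (by omega) (by have := tup_lt s i j; omega) (tree_att s i j hj)
  · intro i hi j e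
    have := hgi (k + 1 + i) j (by omega) (by omega) e
    omega
  · intro i hi j hj e
    have := hgi (k + 1 + i) (k + 1 + j) (by omega) (by omega) e
    omega

end Pool.Agent.Q275.Univ
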