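import Pool.Agent.Q275.Base
import Pool.Agent.Q275.Sep

/-!
# Runs of cliques in graphs without a large clique minor
-/

set_option autoImplicit false

namespace Pool.Agent.Q275.Univ

open Pool.Agent.Q275

variable {V : Type}

lemma connected_union {G : SimpleGraph V} {A B : Set V} (hA : (G.induce A).Connected)
    (hB : (G.induce B).Connected) (hAB : (A ∩ B).Nonempty) : (G.induce (A ∪ B)).Connected := by
  rw [connected_iff] at hA hB ⊢
  obtain ⟨z, hzA, hzB⟩ := hAB
  refine ⟨⟨z, Or.inl hzA⟩, ?_⟩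
  rintro S hS ⟨y, hy⟩ hcl
  have key : ∀ T : Set V, T ⊆ A ∪ B → (∀ S ⊆ T, S.Nonempty →
      (∀ x ∈ S, ∀ y ∈ T, G.Adj x y → y ∈ S) → T ⊆ S) → (S ∩ T).Nonempty → T ⊆ S := by
    intro T hT hcon hne
    have := hcon (S ∩ T) Set.inter_subset_right hne
      (fun x hx y hy hxy => ⟨hcl x hx.1 y (hT hy) hxy, hy⟩)
    exact fun a ha => (this ha).1
  rcases hS hy with h | h
  · have h1 := key A Set.subset_union_left hA.2 ⟨y, hy, h⟩
    have h2 := key B Set.subset_union_right hB.2 ⟨z, h1 hzA, hzB⟩
    exact Set.union_subset h1 h2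
  · have h1 := key B Set.subset_union_right hB.2 ⟨y, hy, h⟩
    have h2 := key A Set.subset_union_left hA.2 ⟨z, h1 hzB, hzA⟩
    exact Set.union_subset h2 h1

/-- a clique of `k + 1` vertices plus a connected set attached to all of them -/
lemma minor_of_clique {U : SimpleGraph V} {k : ℕ} (Q : Fin (k + 1) → V)
    (hQ : ∀ i j, i ≠ j → U.Adj (Q i) (Q j)) (D : Set V) (hD : (U.induce D).Connected)
    (hdis : ∀ j, Q j ∉ D) (hadj : ∀ j, ∃ d ∈ D, U.Adj d (Q j)) :
    IsMinor (⊤ : SimpleGraph (Fin (k + 2))) U := by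
  refine ⟨Fin.cons D (fun j => {Q j}), ?_, ?_, ?_⟩
  · intro w
    refine Fin.cases ?_ (fun j => ?_) w
    · rw [Fin.cons_zero]; exact hD
    · rw [Fin.cons_succ]; exact connected_singleton U _
  · intro w w'
    refine Fin.cases ?_ (fun j => ?_) w <;> refine Fin.cases ?_ (fun j' => ?_) w'
    · intro h; exact absurd rfl h
    · intro _
      rw [Fin.cons_zero, Fin.cons_succ, Set.disjoint_singleton_right]
      exact hdis j'
    · intro _
      rw [Fin.cons_zero, Fin.cons_succ, Set.disjoint_singleton_left]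
      exact hdis j
    · intro h
      rw [Fin.cons_succ, Fin.cons_succ, Set.disjoint_singleton]
      exact (hQ j j' (fun e => h (by rw [e]))).ne
  · intro w w'
    refine Fin.cases ?_ (fun j => ?_) w <;> refine Fin.cases ?_ (fun j' => ?_) w'
    · intro h; exact absurd rfl h.ne
    · intro _
      rw [Fin.cons_zero, Fin.cons_succ]
      obtain ⟨d, hd, h⟩ := hadj j'
      exact ⟨d, hd, _, rfl, h⟩
    · intro _
      rw [Fin.cons_zero, Fin.cons_succ]
      obtain ⟨d, hd, h⟩ := hadj j
      exact ⟨_, rfl, d, hd, h.symm⟩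
    · intro h
      rw [Fin.cons_succ, Fin.cons_succ]
      exact ⟨_, rfl, _, rfl, hQ j j' (fun e => h.ne (by rw [e]))⟩

/-- the clique tuples of a run -/
def tup {k : ℕ} (Q : Fin (k + 1) → V) (s : ℕ → Fin (k + 1)) (x : ℕ → V) :
    ℕ → Fin (k + 1) → V
  | 0 => Q
  | i + 1 => Function.update (tup Q s x i) (s i) (x i)

lemma tup_shift {k : ℕ} (Q : Fin (k + 1) → V) (s : ℕ → Fin (k + 1)) (x : ℕ → V) (i : ℕ) :
    tup Q s x (i + 1) =
      tup (Function.update Q (s 0) (x 0)) (fun i => s (i + 1)) (fun i => x (i + 1)) i := by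
  induction i with
  | zero => rfl
  | succ i ih =>
    rw [tup, ih]; rfl

/-- A run: start with a clique tuple, repeatedly replace one entry by a new vertex adjacent to the
other entries, never replacing the newest one. -/
structure Run (U : SimpleGraph V) (k m : ℕ) (Q : Fin (k + 1) → V) (s : ℕ → Fin (k + 1))
    (x : ℕ → V) : Prop where
  clique : ∀ i j, i ≠ j → U.Adj (Q i) (Q j)
  att : ∀ i < m, ∀ j, j ≠ s i → U.Adj (x i) (tup Q s x i j)
  new : ∀ i < m, ∀ j, x i ≠ Q j
  inj : ∀ i < m, ∀ j < m, x i = x j → i = j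
  turn : ∀ i, i + 1 < m → s (i + 1) ≠ s i

lemma Run.tail {U : SimpleGraph V} {k m : ℕ} {Q : Fin (k + 1) → V} {s : ℕ → Fin (k + 1)}
    {x : ℕ → V} (h : Run U k (m + 1) Q s x) :
    Run U k m (Function.update Q (s 0) (x 0)) (fun i => s (i + 1)) (fun i => x (i + 1)) := by
  refine ⟨?_, ?_, ?_, ?_, ?_⟩
  · intro i j hij
    by_cases hi : i = s 0
    · have hj : j ≠ s 0 := fun e => hij (hi.trans e.symm)
      rw [hi, Function.update_self, Function.update_of_ne hj]
      exact h.att 0 (Nat.succ_pos _) j hj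
    · by_cases hj : j = s 0
      · rw [hj, Function.update_self, Function.update_of_ne hi]
        exact (h.att 0 (Nat.succ_pos _) i hi).symm
      · rw [Function.update_of_ne hi, Function.update_of_ne hj]
        exact h.clique i j hij
  · intro i hi j hj
    rw [← tup_shift]
    exact h.att (i + 1) (by omega) j hj
  · intro i hi j
    by_cases hj : j = s 0
    · rw [hj, Function.update_self]
      intro e
      have := h.inj (i + 1) (by omega) 0 (by omega) e
      omega
    · rw [Function.update_of_ne hj]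
      exact h.new (i + 1) (by omega) j
  · intro i hi j hj e
    have := h.inj (i + 1) (by omega) (j + 1) (by omega) e
    omega
  · intro i hi
    exact h.turn (i + 1) (by omega)

lemma Run.adj_succ {U : SimpleGraph V} {k m : ℕ} {Q : Fin (k + 1) → V} {s : ℕ → Fin (k + 1)}
    {x : ℕ → V} (h : Run U k m Q s x) {i : ℕ} (hi : i + 1 < m) : U.Adj (x (i + 1)) (x i) := by
  have := h.att (i + 1) hi (s i) (Ne.symm (h.turn i hi))
  rwa [tup, Function.update_self] at this

/-- the vertices `x a, ..., x (b - 1)` -/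
def seg (x : ℕ → V) (a b : ℕ) : Set V := {y | ∃ i, a ≤ i ∧ i < b ∧ x i = y}

lemma Run.seg_conn {U : SimpleGraph V} {k m : ℕ} {Q : Fin (k + 1) → V} {s : ℕ → Fin (k + 1)}
    {x : ℕ → V} (h : Run U k m Q s x) {a b : ℕ} (hab : a < b) (hb : b ≤ m) :
    (U.induce (seg x a b)).Connected := by
  rw [connected_iff]
  refine ⟨⟨x a, a, le_rfl, hab, rfl⟩, ?_⟩
  rintro A hA ⟨y, hy⟩ hcl z ⟨j, haj, hjb, rfl⟩
  obtain ⟨i, hai, hib, rfl⟩ := hA hy
  have up : ∀ d, i + d < b → x (i + d) ∈ A := by
    intro d
    induction d with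
    | zero => intro _; exact hy
    | succ d ih =>
      intro hd
      exact hcl _ (ih (by omega)) _ ⟨i + d + 1, by omega, by omega, rfl⟩
        (h.adj_succ (i := i + d) (by omega)).symm
  have down : ∀ d, a + d ≤ i → x (i - d) ∈ A := by
    intro d
    induction d with
    | zero => intro _; exact hy
    | succ d ih =>
      intro hd
      refine hcl _ (ih (by omega)) _ ⟨i - (d + 1), by omega, by omega, rfl⟩ ?_
      have := h.adj_succ (i := i - (d + 1)) (by omega)
      rwa [show i - (d + 1) + 1 = i - d by omega] at this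
  rcases Nat.le_total i j with hij | hij
  · have := up (j - i) (by omega)
    rwa [show i + (j - i) = j by omega] at this
  · have := down (i - j) (by omega)
    rwa [show i - (i - j) = j by omega] at this

/-- the first replaced position is determined -/
lemma Run.first_pos {U : SimpleGraph V} {k m : ℕ} (hU : ¬ IsMinor (⊤ : SimpleGraph (Fin (k + 2))) U)
    {Q : Fin (k + 1) → V} {s s' : ℕ → Fin (k + 1)} {x x' : ℕ → V}
    (h : Run U k (m + 1) Q s x) (h' : Run U k (m + 1) Q s' x') (hlast : x m = x' m) :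
    s 0 = s' 0 := by
  by_contra hne
  apply hU
  have h1 := h.seg_conn (a := 0) (b := m + 1) (by omega) le_rfl
  have h2 := h'.seg_conn (a := 0) (b := m + 1) (by omega) le_rfl
  have h3 := connected_union h1 h2
    ⟨x m, ⟨m, by omega, by omega, rfl⟩, ⟨m, by omega, by omega, hlast.symm⟩⟩
  refine minor_of_clique Q h.clique _ h3 ?_ ?_
  · rintro j (⟨i, -, hi, e⟩ | ⟨i, -, hi, e⟩)
    · exact h.new i hi j e
    · exact h'.new i hi j e
  · intro j
    by_cases hj : j = s 0
    · refine ⟨x' 0, Or.inr ⟨0, by omega, by omega, rfl⟩, ?_⟩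
      exact h'.att 0 (by omega) j (fun e => hne (hj ▸ e))
    · exact ⟨x 0, Or.inl ⟨0, by omega, by omega, rfl⟩, h.att 0 (by omega) j hj⟩

/-- the first new vertex is determined -/
lemma Run.first_vertex {U : SimpleGraph V} {k m : ℕ}
    (hU : ¬ IsMinor (⊤ : SimpleGraph (Fin (k + 2))) U)
    {Q : Fin (k + 1) → V} {s s' : ℕ → Fin (k + 1)} {x x' : ℕ → V}
    (h : Run U k (m + 1) Q s x) (h' : Run U k (m + 1) Q s' x') (hlast : x m = x' m)
    (hm : 0 < m) : x 0 = x' 0 := by
  by_contra hne
  have hs := Run.first_pos hU h h' hlast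
  apply hU
  have ht := h.tail
  -- the connected set
  obtain ⟨D, hD, hDnot, hDadj, hDQ, hDx⟩ : ∃ D : Set V, (U.induce D).Connected ∧ x 0 ∉ D ∧
      (∃ d ∈ D, U.Adj d (x 0)) ∧ (∀ j, Q j ∉ D) ∧ x' 0 ∈ D := by
    by_cases hin : ∃ j, j < m + 1 ∧ x' j = x 0
    · obtain ⟨j, hj, hjx⟩ := hin
      have hj0 : 0 < j := by
        rcases Nat.eq_zero_or_pos j with h0 | h0
        · subst h0; exact absurd hjx.symm hne
        · exact h0
      refine ⟨seg x' 0 j, h'.seg_conn hj0 (by omega), ?_, ?_, ?_, ⟨0, le_rfl, hj0, rfl⟩⟩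
      · rintro ⟨i, -, hi, e⟩
        have := h'.inj i (by omega) j hj (e.trans hjx.symm)
        omega
      · refine ⟨x' (j - 1), ⟨j - 1, by omega, by omega, rfl⟩, ?_⟩
        have := (h'.adj_succ (i := j - 1) (by omega)).symm
        rwa [show j - 1 + 1 = j by omega, hjx] at this
      · rintro l ⟨i, -, hi, e⟩
        exact h'.new i (by omega) l e
    · push Not at hin
      have h1 := h.seg_conn (a := 1) (b := m + 1) (by omega) le_rfl
      have h2 := h'.seg_conn (a := 0) (b := m + 1) (by omega) le_rfl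
      have h3 := connected_union h1 h2
        ⟨x m, ⟨m, by omega, by omega, rfl⟩, ⟨m, by omega, by omega, hlast.symm⟩⟩
      refine ⟨_, h3, ?_, ?_, ?_, Or.inr ⟨0, le_rfl, by omega, rfl⟩⟩
      · rintro (⟨i, hi1, hi, e⟩ | ⟨i, -, hi, e⟩)
        · have := h.inj i hi 0 (by omega) e
          omega
        · exact hin i hi e
      · exact ⟨x 1, Or.inl ⟨1, le_rfl, by omega, rfl⟩, h.adj_succ (i := 0) (by omega)⟩
      · rintro j (⟨i, -, hi, e⟩ | ⟨i, -, hi, e⟩)
        · exact h.new i hi j e
        · exact h'.new i hi j e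
  refine minor_of_clique (Function.update Q (s 0) (x 0)) ht.clique D hD ?_ ?_
  · intro j
    by_cases hj : j = s 0
    · rw [hj, Function.update_self]; exact hDnot
    · rw [Function.update_of_ne hj]; exact hDQ j
  · intro j
    by_cases hj : j = s 0
    · rw [hj, Function.update_self]; exact hDadj
    · rw [Function.update_of_ne hj]
      exact ⟨x' 0, hDx, h'.att 0 (by omega) j (hs ▸ hj)⟩

/-- a run is determined by its start tuple and its last vertex -/
theorem Run.determined {U : SimpleGraph V} {k : ℕ}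
    (hU : ¬ IsMinor (⊤ : SimpleGraph (Fin (k + 2))) U) : ∀ (m : ℕ)
    {Q : Fin (k + 1) → V} {s s' : ℕ → Fin (k + 1)} {x x' : ℕ → V},
    Run U k (m + 1) Q s x → Run U k (m + 1) Q s' x' → x m = x' m →
    ∀ i < m + 1, s i = s' i := by
  intro m
  induction m with
  | zero =>
    intro Q s s' x x' h h' hl i hi
    have : i = 0 := by omega
    subst this
    exact Run.first_pos hU h h' hl
  | succ m ih =>
    intro Q s s' x x' h h' hl i hi
    have h0 := Run.first_pos hU h h' hl
    have hx0 := Run.first_vertex hU h h' hl (by omega)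
    rcases Nat.eq_zero_or_pos i with hi0 | hi0
    · subst hi0; exact h0
    · have t' := h'.tail
      rw [← h0, ← hx0] at t'
      have := ih h.tail t' hl (i - 1) (by omega)
      rwa [show i - 1 + 1 = i by omega] at this

end Pool.Agent.Q275.Univ
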